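import Mathlib

/-!
The hyperspherical Bessel functions, defined by their power series.
-/

namespace Pool.Agent.MP_6cbfb8_an.Sparse

open Set
open scoped Real

/-- rising factorial -/
noncomputable def poch (μ : ℝ) (i : ℕ) : ℝ := ∏ a ∈ Finset.range i, (μ + a)

lemma poch_zero (μ : ℝ) : poch μ 0 = 1 := by simp [poch]

lemma poch_succ (μ : ℝ) (i : ℕ) : poch μ (i + 1) = poch μ i * (μ + i) := by
  simp [poch, Finset.prod_range_succ]

lemma poch_succ' (μ : ℝ) (i : ℕ) : poch μ (i + 1) = μ * poch (μ + 1) i := by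
  unfold poch
  rw [Finset.prod_range_succ']
  have : ∏ k ∈ Finset.range i, (μ + ((k + 1 : ℕ) : ℝ)) = ∏ a ∈ Finset.range i, (μ + 1 + a) := by
    refine Finset.prod_congr rfl fun a _ => ?_
    push_cast
    ring
  rw [this]
  simp [mul_comm]

lemma one_le_poch {μ : ℝ} (hμ : 1 ≤ μ) (i : ℕ) : 1 ≤ poch μ i := by
  induction i with
  | zero => simp [poch_zero]
  | succ i ih =>
    rw [poch_succ]
    have : (0 : ℝ) ≤ i := Nat.cast_nonneg i
    nlinarith

lemma poch_pos {μ : ℝ} (hμ : 1 ≤ μ) (i : ℕ) : 0 < poch μ i :=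
  lt_of_lt_of_le one_pos (one_le_poch hμ i)

/-- the terms of the series -/
noncomputable def bt (μ x : ℝ) (i : ℕ) : ℝ := (-x) ^ i / ((i.factorial : ℝ) * poch μ i)

lemma bt_abs {μ : ℝ} (hμ : 1 ≤ μ) (x : ℝ) (i : ℕ) : ‖bt μ x i‖ ≤ |x| ^ i / i.factorial := by
  unfold bt
  rw [Real.norm_eq_abs, abs_div, abs_pow, abs_neg, abs_mul, abs_of_pos (poch_pos hμ i),
    abs_of_pos (by positivity : (0 : ℝ) < i.factorial)]
  have h := one_le_poch hμ i
  have h1 : (0 : ℝ) < i.factorial := by positivity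
  gcongr
  nlinarith

lemma bt_summable {μ : ℝ} (hμ : 1 ≤ μ) (x : ℝ) : Summable (bt μ x) :=
  Summable.of_norm_bounded (Real.summable_pow_div_factorial |x|) (bt_abs hμ x)

/-- entire function `0F1(μ; -x)` -/
noncomputable def Bs (μ x : ℝ) : ℝ := ∑' i, bt μ x i

lemma Bs_abs {μ : ℝ} (hμ : 1 ≤ μ) (x : ℝ) : |Bs μ x| ≤ Real.exp |x| := by
  unfold Bs
  rw [Real.exp_eq_exp_ℝ, NormedSpace.exp_eq_tsum_div]
  rw [← Real.norm_eq_abs]
  exact tsum_of_norm_bounded (Real.summable_pow_div_factorial |x|).hasSum (bt_abs hμ x)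

lemma hasDerivAt_Bs {μ : ℝ} (hμ : 1 ≤ μ) (x : ℝ) :
    HasDerivAt (Bs μ) (-(1 / μ) * Bs (μ + 1) x) x := by
  set R : ℝ := |x| + 1 with hR
  have hR0 : 0 < R := by positivity
  set g' : ℕ → ℝ → ℝ := fun i y => (((i : ℝ) * (-y) ^ (i - 1)) * (-1)) /
    ((i.factorial : ℝ) * poch μ i) with hg'
  set u : ℕ → ℝ := fun i => (i : ℝ) * R ^ (i - 1) / i.factorial with hu
  have hsum : Summable u := by
    have : Summable fun i : ℕ => u (i + 1) := by
      refine (Real.summable_pow_div_factorial R).congr fun i => ?_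
      simp only [hu, Nat.add_sub_cancel, Nat.factorial_succ]
      push_cast
      have h1 : (0 : ℝ) < i.factorial := by positivity
      field_simp
    exact (summable_nat_add_iff 1).1 this
  have key := hasDerivAt_tsum_of_isPreconnected (𝕜 := ℝ) (g := fun i y => bt μ y i) (g' := g')
    (u := u) (t := Metric.ball (0 : ℝ) R) (y₀ := 0) (y := x) hsum Metric.isOpen_ball
    (convex_ball _ _).isPreconnected ?_ ?_ (by simpa using hR0) (bt_summable hμ 0) ?_
  · refine HasDerivAt.congr_deriv (f := Bs μ) key ?_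
    have hs : Summable fun i => g' i x := by
      refine Summable.of_norm_bounded hsum fun i => ?_
      simp only [hg', hu, Real.norm_eq_abs, abs_div, abs_mul, abs_pow, abs_neg, abs_one, mul_one,
        Nat.abs_cast, abs_of_pos (poch_pos hμ i)]
      have h := one_le_poch hμ i
      have h1 : (0 : ℝ) < i.factorial := by positivity
      have h2 : |x| ≤ R := by rw [hR]; linarith
      have h3 : (i.factorial : ℝ) ≤ i.factorial * poch μ i := by nlinarith
      gcongr
    rw [hs.tsum_eq_zero_add]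
    have h0 : g' 0 x = 0 := by simp [hg']
    rw [h0, zero_add]
    unfold Bs
    rw [← tsum_mul_left]
    refine tsum_congr fun i => ?_
    simp only [hg', bt, Nat.add_sub_cancel, Nat.factorial_succ, poch_succ']
    have h1 : (0 : ℝ) < i.factorial := by positivity
    have h2 := poch_pos (μ := μ + 1) (by linarith) i
    push_cast
    field_simp
  · intro i y _
    have h1 : HasDerivAt (fun y : ℝ => (-y) ^ i) (((i : ℝ) * (-y) ^ (i - 1)) * (-1)) y :=
      (hasDerivAt_neg y).fun_pow i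
    exact h1.div_const _
  · intro i y hy
    simp only [hg', hu, Real.norm_eq_abs, abs_div, abs_mul, abs_pow, abs_neg, abs_one, mul_one,
      Nat.abs_cast, abs_of_pos (poch_pos hμ i)]
    have h := one_le_poch hμ i
    have h1 : (0 : ℝ) < i.factorial := by positivity
    have h2 : |y| ≤ R := by
      have := hy
      rw [mem_ball_zero_iff, Real.norm_eq_abs] at this
      exact this.le
    have h3 : (i.factorial : ℝ) ≤ i.factorial * poch μ i := by nlinarith
    gcongr
  · rw [mem_ball_zero_iff, Real.norm_eq_abs, hR]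
    linarith

/-- contiguous relation -/
lemma Bs_contiguous {μ : ℝ} (hμ : 1 ≤ μ) (x : ℝ) :
    Bs μ x + x / (μ * (μ + 1)) * Bs (μ + 2) x = Bs (μ + 1) x := by
  have s0 := bt_summable hμ x
  have s1 := bt_summable (μ := μ + 1) (by linarith) x
  have s2 := bt_summable (μ := μ + 2) (by linarith) x
  have e : Bs (μ + 1) x - Bs μ x = x / (μ * (μ + 1)) * Bs (μ + 2) x := by
    unfold Bs
    rw [← s1.tsum_sub s0, ← tsum_mul_left, (s1.sub s0).tsum_eq_zero_add]
    have h0 : bt (μ + 1) x 0 - bt μ x 0 = 0 := by simp [bt, poch_zero]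
    rw [h0, zero_add]
    refine tsum_congr fun i => ?_
    unfold bt
    have h1 : (0 : ℝ) < i.factorial := by positivity
    have h2 := poch_pos (μ := μ + 2) (by linarith) i
    have h3 : (0 : ℝ) ≤ i := Nat.cast_nonneg i
    have e1 : poch μ (i + 1) = μ * poch (μ + 1) i := poch_succ' μ i
    have e2 : poch (μ + 1) (i + 1) = (μ + 1) * poch (μ + 2) i := by
      rw [poch_succ']
      ring_nf
    have e3 : poch (μ + 1) (i + 1) = poch (μ + 1) i * (μ + 1 + i) := poch_succ _ _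
    have h4 := poch_pos (μ := μ + 1) (by linarith) i
    have e4 : poch (μ + 2) i = poch (μ + 1) i * (μ + 1 + i) / (μ + 1) := by
      rw [eq_div_iff (by positivity), ← e3, e2]
      ring
    rw [e1, e2, Nat.factorial_succ, e4]
    push_cast
    field_simp
    ring
  linarith

/-- hyperspherical Bessel functions of dimension `j + 2` -/
noncomputable def jb (j k : ℕ) (s : ℝ) : ℝ :=
  (s / 2) ^ k / poch (((j : ℝ) + 2) / 2) k * Bs (((j : ℝ) + 2) / 2 + k) (s ^ 2 / 4)

lemma hasDerivAt_jb (j k : ℕ) {s : ℝ} (hs : s ≠ 0) :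
    HasDerivAt (jb j k) ((k : ℝ) / s * jb j k s - jb j (k + 1) s) s := by
  set ν : ℝ := ((j : ℝ) + 2) / 2 with hν
  have hj0 : (0 : ℝ) ≤ j := Nat.cast_nonneg j
  have hk0 : (0 : ℝ) ≤ k := Nat.cast_nonneg k
  have hν1 : 1 ≤ ν := by rw [hν]; linarith
  have h1 : HasDerivAt (fun s : ℝ => (s / 2) ^ k / poch ν k)
      (((k : ℝ) * (s / 2) ^ (k - 1) * (1 / 2)) / poch ν k) s :=
    (((hasDerivAt_id s).div_const 2).fun_pow k).div_const _
  have h2 : HasDerivAt (fun s : ℝ => s ^ 2 / 4) (s / 2) s := by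
    have := (hasDerivAt_pow 2 s).div_const 4
    refine this.congr_deriv ?_
    push_cast
    ring
  have h3 : HasDerivAt (fun s : ℝ => Bs (ν + k) (s ^ 2 / 4))
      ((-(1 / (ν + k)) * Bs (ν + k + 1) (s ^ 2 / 4)) * (s / 2)) s := by
    have h := hasDerivAt_Bs (μ := ν + k) (by linarith) (s ^ 2 / 4)
    exact HasDerivAt.comp (h₂ := Bs (ν + k)) (h := fun s : ℝ => s ^ 2 / 4) s h h2
  have h4 := h1.fun_mul h3
  refine HasDerivAt.congr_deriv (f := jb j k) h4 ?_
  have hp := poch_pos hν1 k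
  have hp' := poch_succ ν k
  have e1 : jb j (k + 1) s = (s / 2) ^ (k + 1) / (poch ν k * (ν + k)) *
      Bs (ν + k + 1) (s ^ 2 / 4) := by
    unfold jb
    rw [← hν, hp']
    push_cast
    rw [← add_assoc]
  have e2 : jb j k s = (s / 2) ^ k / poch ν k * Bs (ν + k) (s ^ 2 / 4) := rfl
  rw [e1, e2]
  have e3 : (k : ℝ) * (s / 2) ^ (k - 1) * (1 / 2) = k / s * (s / 2) ^ k := by
    rcases k with _ | k
    · simp
    · rw [Nat.add_sub_cancel, pow_succ]
      field_simp
  rw [e3, pow_succ]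
  have h5 : 0 < ν + k := by linarith
  field_simp
  ring

lemma jb_contiguous (j k : ℕ) {s : ℝ} (hs : s ≠ 0) :
    jb j k s + jb j (k + 2) s = (2 * k + j + 2) / s * jb j (k + 1) s := by
  set ν : ℝ := ((j : ℝ) + 2) / 2 with hν
  have hj0 : (0 : ℝ) ≤ j := Nat.cast_nonneg j
  have hk0 : (0 : ℝ) ≤ k := Nat.cast_nonneg k
  have hν1 : 1 ≤ ν := by rw [hν]; linarith
  have hp := poch_pos hν1 k
  have hp' := poch_succ ν k
  have hp'' := poch_succ ν (k + 1)
  have h := Bs_contiguous (μ := ν + k) (by linarith) (s ^ 2 / 4)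
  have e1 : jb j (k + 1) s = (s / 2) ^ (k + 1) / (poch ν k * (ν + k)) *
      Bs (ν + k + 1) (s ^ 2 / 4) := by
    unfold jb
    rw [← hν, hp']
    push_cast
    rw [← add_assoc]
  have e2 : jb j k s = (s / 2) ^ k / poch ν k * Bs (ν + k) (s ^ 2 / 4) := rfl
  have e3 : jb j (k + 2) s = (s / 2) ^ (k + 2) / (poch ν k * (ν + k) * (ν + k + 1)) *
      Bs (ν + k + 2) (s ^ 2 / 4) := by
    unfold jb
    rw [← hν, hp'', hp']
    push_cast
    rw [← add_assoc, ← add_assoc]
  rw [e1, e2, e3, ← h]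
  have h5 : 0 < ν + k := by linarith
  have h6 : (2 * (k : ℝ) + j + 2) = 2 * (ν + k) := by rw [hν]; ring
  rw [h6]
  field_simp
  ring

lemma jb_abs (j k : ℕ) (s : ℝ) : |jb j k s| ≤ (|s| / 2) ^ k * Real.exp (s ^ 2 / 4) := by
  unfold jb
  have hj0 : (0 : ℝ) ≤ j := Nat.cast_nonneg j
  have hk0 : (0 : ℝ) ≤ k := Nat.cast_nonneg k
  have hν1 : 1 ≤ ((j : ℝ) + 2) / 2 := by linarith
  have h1 := one_le_poch hν1 k
  have h2 := Bs_abs (μ := ((j : ℝ) + 2) / 2 + k) (by linarith) (s ^ 2 / 4)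
  rw [abs_of_nonneg (by positivity : 0 ≤ s ^ 2 / 4)] at h2
  rw [abs_mul, abs_div, abs_pow, abs_div, abs_of_pos (zero_lt_two' ℝ),
    abs_of_pos (lt_of_lt_of_le one_pos h1)]
  gcongr
  exact div_le_self (by positivity) h1

end Pool.Agent.MP_6cbfb8_an.Sparse
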