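import Pool.Agent.MP_6cbfb8_an.Sparse.BesLp

/-!
`L^p` norms of the hyperspherical Bessel functions.
-/

namespace Pool.Agent.MP_6cbfb8_an.Sparse

open Set Filter Topology MeasureTheory
open scoped Real ENNReal

lemma jb_pow (j k : ℕ) {p s : ℝ} (hs : 0 < s) :
    |jb j k s| ^ p * s ^ ((j : ℝ) + 1) = |Wk j k s| ^ p * s ^ (-(((j : ℝ) + 1) * (p / 2 - 1))) := by
  unfold Wk
  rw [abs_mul, abs_of_nonneg (Real.rpow_nonneg hs.le _),
    Real.mul_rpow (Real.rpow_nonneg hs.le _) (abs_nonneg _), ← Real.rpow_mul hs.le]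
  have h : s ^ (ee j * p) * s ^ (-(((j : ℝ) + 1) * (p / 2 - 1))) = s ^ ((j : ℝ) + 1) := by
    rw [← Real.rpow_add hs]
    congr 1
    unfold ee
    ring
  rw [← h]
  ring

lemma bb_lower (j k : ℕ) (hj : 1 ≤ j) (hk : 1 ≤ k) : ((k : ℝ) + 1) / 2 ≤ bb (kap j k) := by
  have hκ := two_le_kap j k hj hk
  have h1 := bb_sq hκ
  have h2 := bb_pos hκ
  have h3 : kap j k - 1 ≤ bb (kap j k) := by nlinarith
  have h4 : (k : ℝ) ≤ kap j k - 1 := by
    unfold kap ee
    have h1 : (1 : ℝ) ≤ j := by exact_mod_cast hj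
    linarith
  have h5 : (1 : ℝ) ≤ k := by exact_mod_cast hk
  linarith

/-- the case `k = 0`: finiteness -/
lemma jb_zero_Lp (j : ℕ) (hj : 1 ≤ j) {p : ℝ} (hp2 : 2 < p)
    (hγ1 : 1 < ((j : ℝ) + 1) * (p / 2 - 1)) :
    ∫⁻ s in Ioi (0 : ℝ), ENNReal.ofReal (|jb j 0 s| ^ p * s ^ ((j : ℝ) + 1)) < ∞ := by
  obtain ⟨a, ha⟩ := exists_limit j hj
  have ha0 := ha 0
  have hκ := one_le_kap j 0 hj
  set κ := kap j 0 with hκd
  have hsub : Ioi (0 : ℝ) ⊆ Ioc 0 (2 * κ) ∪ Ioi (2 * κ) := by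
    intro s hs
    rcases le_or_gt s (2 * κ) with h1 | h1
    · exact Or.inl ⟨hs, h1⟩
    · exact Or.inr h1
  refine lt_of_le_of_lt (lintegral_mono_set hsub) (lt_of_le_of_lt (lintegral_union_le _ _ _) ?_)
  rw [ENNReal.add_lt_top]
  constructor
  · have hb : ∀ s ∈ Ioc (0 : ℝ) (2 * κ), ENNReal.ofReal (|jb j 0 s| ^ p * s ^ ((j : ℝ) + 1)) ≤
        ENNReal.ofReal (Real.exp (κ ^ 2) ^ p * (2 * κ) ^ ((j : ℝ) + 1)) := by
      intro s hs
      apply ENNReal.ofReal_le_ofReal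
      have hs0 := hs.1
      have h1 := jb_abs j 0 s
      rw [pow_zero, one_mul] at h1
      have h2 : Real.exp (s ^ 2 / 4) ≤ Real.exp (κ ^ 2) := by
        apply Real.exp_le_exp.2
        have := hs.2
        nlinarith
      have h3 : (0 : ℝ) ≤ (j : ℝ) + 1 := by positivity
      have h4 := hs.2
      have h5 : |jb j 0 s| ≤ Real.exp (κ ^ 2) := h1.trans h2
      gcongr
    refine lt_of_le_of_lt (setLIntegral_mono' measurableSet_Ioc hb) ?_
    rw [lintegral_const, Measure.restrict_apply_univ, Real.volume_Ioc]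
    exact ENNReal.mul_lt_top ENNReal.ofReal_lt_top ENNReal.ofReal_lt_top
  · have hb : ∀ s ∈ Ioi (2 * κ), ENNReal.ofReal (|jb j 0 s| ^ p * s ^ ((j : ℝ) + 1)) ≤
        ENNReal.ofReal ((2 * a) ^ (p / 2)) *
          ENNReal.ofReal (s ^ (-(((j : ℝ) + 1) * (p / 2 - 1)))) := by
      intro s hs
      have hs1 : 2 * κ < s := hs
      have hs0 : 0 < s := by linarith
      rw [jb_pow j 0 hs0, ENNReal.ofReal_mul (by positivity)]
      have hT := (sys j 0).T_le hκ ha0 hs0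
      have hq : 1 / 2 ≤ 1 - κ * (κ - 1) / s ^ 2 := by
        have : κ * (κ - 1) / s ^ 2 ≤ 1 / 2 := by
          rw [div_le_iff₀ (by positivity)]
          nlinarith
        linarith
      unfold T at hT
      have h1 : Wk j 0 s ^ 2 ≤ 2 * a := by
        nlinarith [sq_nonneg (Wp (kap j 0) (Wk j 0) (Wk j (0 + 1)) s), sq_nonneg (Wk j 0 s)]
      have e1 : |Wk j 0 s| ^ p = (Wk j 0 s ^ 2) ^ (p / 2) := by
        have h2 : |Wk j 0 s| = (Wk j 0 s ^ 2) ^ ((1 : ℝ) / 2) := by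
          rw [← Real.sqrt_eq_rpow, Real.sqrt_sq_eq_abs]
        rw [h2, ← Real.rpow_mul (sq_nonneg _)]
        congr 1
        ring
      rw [e1]
      gcongr
    refine lt_of_le_of_lt (setLIntegral_mono' measurableSet_Ioi hb) ?_
    rw [lintegral_const_mul' _ _ ENNReal.ofReal_ne_top, lintegral_far (by positivity) hγ1]
    exact ENNReal.mul_lt_top ENNReal.ofReal_lt_top ENNReal.ofReal_lt_top

theorem bessel_Lp (j : ℕ) (hj : 1 ≤ j) {p : ℝ} (hp2 : 2 < p) (hp4 : p < 4)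
    (hγ1 : 1 < ((j : ℝ) + 1) * (p / 2 - 1)) (hγ3 : ((j : ℝ) + 1) * (p / 2 - 1) ≤ 3) :
    ∃ C : ℝ, 0 ≤ C ∧ ∀ k : ℕ,
      ∫⁻ s in Ioi (0 : ℝ), ENNReal.ofReal (|jb j k s| ^ p * s ^ ((j : ℝ) + 1)) ≤
        ENNReal.ofReal (C * ((k : ℝ) + 1) ^ (1 - ((j : ℝ) + 1) * (p / 2 - 1))) := by
  obtain ⟨a, ha⟩ := exists_limit j hj
  set γ : ℝ := ((j : ℝ) + 1) * (p / 2 - 1) with hγ
  have ha0 : 0 ≤ a := by
    have hκ := two_le_kap j 1 hj le_rfl
    have h0 : 0 ≤ T (kap j 1) (Wk j 1) (Wk j 2) (ss (kap j 1)) := by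
      unfold T
      have hs0 := ss_pos hκ
      have hbs := bb_sq hκ
      have hbl := bb_lt_ss hκ
      have hb := bb_pos hκ
      have : 0 ≤ 1 - kap j 1 * (kap j 1 - 1) / ss (kap j 1) ^ 2 := by
        rw [sub_nonneg, div_le_one (by positivity)]
        nlinarith
      have := sq_nonneg (Wk j 1 (ss (kap j 1)))
      have := sq_nonneg (Wp (kap j 1) (Wk j 1) (Wk j 2) (ss (kap j 1)))
      positivity
    exact h0.trans ((sys j 1).T_le (by linarith) (ha 1) (ss_pos hκ))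
  have h4 : 0 < 1 - p / 4 := by linarith
  have h3 : 0 < γ - 1 := by linarith
  set C1 : ℝ := (24 * a) ^ (p / 2 - 1) * 16 * a + (4 * a) ^ (p / 2) *
    (2 / (1 - p / 4) + 2 / (γ - 1)) with hC1
  have hC10 : 0 ≤ C1 := by positivity
  set I0 : ℝ := (∫⁻ s in Ioi (0 : ℝ),
    ENNReal.ofReal (|jb j 0 s| ^ p * s ^ ((j : ℝ) + 1))).toReal with hI0
  have hI0' : 0 ≤ I0 := ENNReal.toReal_nonneg
  refine ⟨I0 + 4 * C1, by positivity, fun k => ?_⟩
  rcases Nat.eq_zero_or_pos k with rfl | hk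
  · have hfin := jb_zero_Lp j hj hp2 hγ1
    rw [← ENNReal.ofReal_toReal hfin.ne, ← hI0]
    apply ENNReal.ofReal_le_ofReal
    simp only [Nat.cast_zero, zero_add, Real.one_rpow, mul_one]
    linarith
  · have hκ := two_le_kap j k hj hk
    have hlow := (sys j k).Lp_low hκ (ha k) (tendsto_T_zero j k hj hk) (tendsto_D_zero j k hj)
      hp2.le hp4.le hγ3 hγ1.le
    have hhigh := (sys j k).Lp_high hκ (ha k) ha0 hp2.le hp4 hγ1
    have hb := bb_pos hκ
    have hs0 := ss_pos hκ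
    have hsub : Ioi (0 : ℝ) ⊆ Ioo 0 (ss (kap j k)) ∪ Ici (ss (kap j k)) := by
      intro s hs
      rcases lt_or_ge s (ss (kap j k)) with h1 | h1
      · exact Or.inl ⟨hs, h1⟩
      · exact Or.inr h1
    have e1 : ∫⁻ s in Ioi (0 : ℝ), ENNReal.ofReal (|jb j k s| ^ p * s ^ ((j : ℝ) + 1)) =
        ∫⁻ s in Ioi (0 : ℝ), ENNReal.ofReal (|Wk j k s| ^ p * s ^ (-γ)) := by
      refine setLIntegral_congr_fun measurableSet_Ioi fun s hs => ?_
      rw [jb_pow j k hs]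
    rw [e1]
    calc ∫⁻ s in Ioi (0 : ℝ), ENNReal.ofReal (|Wk j k s| ^ p * s ^ (-γ))
        ≤ ∫⁻ s in Ioo 0 (ss (kap j k)) ∪ Ici (ss (kap j k)),
            ENNReal.ofReal (|Wk j k s| ^ p * s ^ (-γ)) := lintegral_mono_set hsub
      _ ≤ (∫⁻ s in Ioo 0 (ss (kap j k)), ENNReal.ofReal (|Wk j k s| ^ p * s ^ (-γ))) +
            ∫⁻ s in Ici (ss (kap j k)), ENNReal.ofReal (|Wk j k s| ^ p * s ^ (-γ)) :=
          lintegral_union_le _ _ _
      _ ≤ _ := add_le_add hlow hhigh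
      _ = ENNReal.ofReal (C1 * bb (kap j k) ^ (1 - γ)) := by
          rw [← ENNReal.ofReal_add (by positivity) (by positivity)]
          congr 1
          rw [hC1]
          ring
      _ ≤ _ := by
          apply ENNReal.ofReal_le_ofReal
          have h5 := bb_lower j k hj hk
          have h6 : bb (kap j k) ^ (1 - γ) ≤ 4 * ((k : ℝ) + 1) ^ (1 - γ) := by
            calc bb (kap j k) ^ (1 - γ) ≤ (((k : ℝ) + 1) / 2) ^ (1 - γ) :=
                  Real.rpow_le_rpow_of_nonpos (by positivity) h5 (by linarith)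
              _ = ((k : ℝ) + 1) ^ (1 - γ) / 2 ^ (1 - γ) := by
                  rw [Real.div_rpow (by positivity) (by norm_num)]
              _ = 2 ^ (γ - 1) * ((k : ℝ) + 1) ^ (1 - γ) := by
                  rw [div_eq_mul_inv, ← Real.rpow_neg (by norm_num), neg_sub]
                  ring
              _ ≤ 2 ^ (2 : ℝ) * ((k : ℝ) + 1) ^ (1 - γ) := by
                  gcongr
                  · norm_num
                  · linarith
              _ = 4 * ((k : ℝ) + 1) ^ (1 - γ) := by norm_num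
          have h7 : 0 ≤ ((k : ℝ) + 1) ^ (1 - γ) := by positivity
          calc C1 * bb (kap j k) ^ (1 - γ) ≤ C1 * (4 * ((k : ℝ) + 1) ^ (1 - γ)) := by gcongr
            _ ≤ _ := by nlinarith

end Pool.Agent.MP_6cbfb8_an.Sparse
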