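import Pool.Agent.MP_6cbfb8_an.Sparse.BesSys

/-!
The sharp `L^p` estimate for the hyperspherical Bessel functions, uniform in the order.
-/

namespace Pool.Agent.MP_6cbfb8_an.Sparse

open Set Filter Topology MeasureTheory
open scoped Real ENNReal

variable {κ : ℝ} {W V : ℝ → ℝ}

/-- region `(0, s₀)` -/
lemma Sys.Lp_low (h : Sys κ W V) (hκ : 2 ≤ κ) {a : ℝ}
    (ha : Tendsto (T κ W V) atTop (𝓝 a))
    (hT0 : Tendsto (T κ W V) (𝓝[>] 0) (𝓝 0))
    (hD : Tendsto (fun s => W s * Wp κ W V s) (𝓝[>] 0) (𝓝 0))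
    {p γ : ℝ} (hp2 : 2 ≤ p) (hp4 : p ≤ 4) (hγ : γ ≤ 3) (hγ1 : 1 ≤ γ) :
    ∫⁻ s in Ioo 0 (ss κ), ENNReal.ofReal (|W s| ^ p * s ^ (-γ)) ≤
      ENNReal.ofReal ((24 * a) ^ (p / 2 - 1) * 16 * a * bb κ ^ (1 - γ)) := by
  have hbs := bb_sq hκ
  have hb := bb_pos hκ
  have hb1 := one_le_bb hκ
  have hs0 := ss_pos hκ
  have hc := cc_pos hκ
  have hβ := beta_ge hκ
  have hsb := ss_le hκ
  have hbl := bb_lt_ss hκ
  have hc3 := cc_cube hκ
  have ha0 : 0 ≤ a := by
    have h0 : 0 ≤ T κ W V (ss κ) := by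
      unfold T
      have : 0 ≤ 1 - κ * (κ - 1) / ss κ ^ 2 := by
        rw [sub_nonneg, div_le_one (by positivity)]
        nlinarith
      have := sq_nonneg (W (ss κ))
      have := sq_nonneg (Wp κ W V (ss κ))
      positivity
    exact h0.trans (h.T_le (by linarith) ha hs0)
  set Sg : ℝ := 24 * a * (bb κ / cc κ) with hSg
  have hSg0 : 0 ≤ Sg := by positivity
  have hpt : ∀ s ∈ Ioo 0 (ss κ), ENNReal.ofReal (|W s| ^ p * s ^ (-γ)) ≤
      ENNReal.ofReal (Sg ^ (p / 2 - 1) * ss κ ^ (3 - γ)) * ENNReal.ofReal (W s ^ 2 / s ^ 3) := by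
    intro s hs
    rw [← ENNReal.ofReal_mul (by positivity)]
    apply ENNReal.ofReal_le_ofReal
    have hs' := hs.1
    have e1 : |W s| ^ p = (W s ^ 2) ^ (p / 2 - 1) * W s ^ 2 := by
      rcases eq_or_ne (W s) 0 with h0 | h0
      · rw [h0, abs_zero, Real.zero_rpow (by linarith)]
        simp
      · have h1 : 0 < W s ^ 2 := by positivity
        have h2 : |W s| = (W s ^ 2) ^ ((1 : ℝ) / 2) := by
          rw [← Real.sqrt_eq_rpow, Real.sqrt_sq_eq_abs]
        rw [h2, ← Real.rpow_mul h1.le]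
        conv_rhs => rw [← Real.rpow_one (W s ^ 2), ← Real.rpow_mul h1.le, ← Real.rpow_add h1]
        congr 1
        ring
    have e2 : s ^ (-γ) = s ^ (3 - γ) * (1 / s ^ 3) := by
      have : (3 - γ) = -γ + (3 : ℕ) := by push_cast; ring
      rw [this, Real.rpow_add_natCast hs'.ne']
      field_simp
    rw [e1, e2]
    have h1 := h.W_sq_le_low hκ ha hD hs.1 hs.2.le
    have h2 : (W s ^ 2) ^ (p / 2 - 1) ≤ Sg ^ (p / 2 - 1) :=
      Real.rpow_le_rpow (sq_nonneg _) h1 (by linarith)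
    have h3 : s ^ (3 - γ) ≤ ss κ ^ (3 - γ) := Real.rpow_le_rpow hs'.le hs.2.le (by linarith)
    calc (W s ^ 2) ^ (p / 2 - 1) * W s ^ 2 * (s ^ (3 - γ) * (1 / s ^ 3))
        = ((W s ^ 2) ^ (p / 2 - 1) * s ^ (3 - γ)) * (W s ^ 2 / s ^ 3) := by ring
      _ ≤ (Sg ^ (p / 2 - 1) * ss κ ^ (3 - γ)) * (W s ^ 2 / s ^ 3) := by
          gcongr
  calc ∫⁻ s in Ioo 0 (ss κ), ENNReal.ofReal (|W s| ^ p * s ^ (-γ))
      ≤ ∫⁻ s in Ioo 0 (ss κ), ENNReal.ofReal (Sg ^ (p / 2 - 1) * ss κ ^ (3 - γ)) *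
          ENNReal.ofReal (W s ^ 2 / s ^ 3) := setLIntegral_mono' measurableSet_Ioo hpt
    _ = ENNReal.ofReal (Sg ^ (p / 2 - 1) * ss κ ^ (3 - γ)) *
          ∫⁻ s in Ioo 0 (ss κ), ENNReal.ofReal (W s ^ 2 / s ^ 3) :=
        lintegral_const_mul' _ _ ENNReal.ofReal_ne_top
    _ ≤ ENNReal.ofReal (Sg ^ (p / 2 - 1) * ss κ ^ (3 - γ)) *
          ENNReal.ofReal (2 * a * (cc κ / (ss κ * bb κ ^ 2))) := by
        gcongr
        exact h.L2_low hκ ha hT0
    _ = ENNReal.ofReal (Sg ^ (p / 2 - 1) * ss κ ^ (3 - γ) *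
          (2 * a * (cc κ / (ss κ * bb κ ^ 2)))) :=
        (ENNReal.ofReal_mul (by positivity)).symm
    _ ≤ _ := by
        apply ENNReal.ofReal_le_ofReal
        have e1 : Sg ^ (p / 2 - 1) = (24 * a) ^ (p / 2 - 1) * (bb κ / cc κ) ^ (p / 2 - 1) := by
          rw [hSg, Real.mul_rpow (by positivity) (by positivity)]
        have h1 : ss κ ^ (3 - γ) ≤ 4 * bb κ ^ (3 - γ) := by
          calc ss κ ^ (3 - γ) ≤ (2 * bb κ) ^ (3 - γ) :=
                Real.rpow_le_rpow hs0.le hsb (by linarith)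
            _ = 2 ^ (3 - γ) * bb κ ^ (3 - γ) := Real.mul_rpow (by norm_num) hb.le
            _ ≤ 2 ^ (2 : ℝ) * bb κ ^ (3 - γ) := by
                gcongr
                · norm_num
                · linarith
            _ = 4 * bb κ ^ (3 - γ) := by norm_num
        have h2 : cc κ / (ss κ * bb κ ^ 2) ≤ cc κ / bb κ ^ 3 := by
          have : bb κ ^ 3 ≤ ss κ * bb κ ^ 2 := by nlinarith [sq_nonneg (bb κ)]
          gcongr
        have h3 : (bb κ / cc κ) ^ (p / 2 - 1) * (cc κ / bb κ) ≤ 2 := by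
          have h4 : (bb κ / cc κ) ^ (p / 2 - 1) * (cc κ / bb κ) =
              (cc κ / bb κ) ^ (2 - p / 2) := by
            have hpos : 0 < cc κ / bb κ := by positivity
            have : bb κ / cc κ = (cc κ / bb κ)⁻¹ := by rw [inv_div]
            rw [this, Real.inv_rpow hpos.le, ← Real.rpow_neg hpos.le]
            conv_lhs => rw [← Real.rpow_one (cc κ / bb κ), ← Real.rpow_mul hpos.le, one_mul,
              ← Real.rpow_add hpos]
            congr 1
            ring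
          rw [h4]
          have h5 : cc κ / bb κ ≤ 2 := by
            rw [div_le_iff₀ hb]
            linarith [cc_le hκ]
          calc (cc κ / bb κ) ^ (2 - p / 2) ≤ 2 ^ (2 - p / 2) :=
                Real.rpow_le_rpow (by positivity) h5 (by linarith)
            _ ≤ 2 ^ (1 : ℝ) := by
                gcongr
                · norm_num
                · linarith
            _ = 2 := by norm_num
        have h6 : bb κ ^ (3 - γ) / bb κ ^ 2 = bb κ ^ (1 - γ) := by
          have : (3 - γ) = (1 - γ) + (2 : ℕ) := by push_cast; ring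
          rw [this, Real.rpow_add_natCast hb.ne']
          field_simp
        have h7 : 0 ≤ (24 * a) ^ (p / 2 - 1) := by positivity
        have h8 : 0 ≤ (bb κ / cc κ) ^ (p / 2 - 1) := by positivity
        calc Sg ^ (p / 2 - 1) * ss κ ^ (3 - γ) * (2 * a * (cc κ / (ss κ * bb κ ^ 2)))
            ≤ ((24 * a) ^ (p / 2 - 1) * (bb κ / cc κ) ^ (p / 2 - 1)) * (4 * bb κ ^ (3 - γ)) *
              (2 * a * (cc κ / bb κ ^ 3)) := by
              rw [e1]
              gcongr
          _ = (24 * a) ^ (p / 2 - 1) * ((bb κ / cc κ) ^ (p / 2 - 1) * (cc κ / bb κ)) * (8 * a) *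
              (bb κ ^ (3 - γ) / bb κ ^ 2) := by
              field_simp
              ring
          _ ≤ (24 * a) ^ (p / 2 - 1) * 2 * (8 * a) * (bb κ ^ (3 - γ) / bb κ ^ 2) := by
              gcongr
          _ = _ := by
              rw [h6]
              ring

/-- one-dimensional integral near the turning point -/
lemma lintegral_near {b q : ℝ} (hb : 0 < b) (hq : q < 1) :
    ∫⁻ s in Ioo b (2 * b), ENNReal.ofReal ((s - b) ^ (-q)) =
      ENNReal.ofReal (b ^ (1 - q) / (1 - q)) := by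
  have h1 : IntervalIntegrable (fun x : ℝ => x ^ (-q)) volume 0 b :=
    intervalIntegral.intervalIntegrable_rpow' (by linarith)
  have h2 : IntervalIntegrable (fun s : ℝ => (s - b) ^ (-q)) volume (0 + b) (b + b) :=
    h1.comp_sub_right b
  rw [zero_add, ← two_mul] at h2
  have hle : b ≤ 2 * b := by linarith
  have h3 : IntegrableOn (fun s : ℝ => (s - b) ^ (-q)) (Ioo b (2 * b)) :=
    ((intervalIntegrable_iff_integrableOn_Ioc_of_le hle).1 h2).mono_set Ioo_subset_Ioc_self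
  rw [← ofReal_integral_eq_lintegral_ofReal h3]
  · congr 1
    rw [← integral_Ioc_eq_integral_Ioo, ← intervalIntegral.integral_of_le hle,
      intervalIntegral.integral_comp_sub_right (fun x : ℝ => x ^ (-q)) b, sub_self,
      integral_rpow (Or.inl (by linarith))]
    have e : 2 * b - b = b := by ring
    rw [e, Real.zero_rpow (by linarith), sub_zero]
    have e2 : -q + 1 = 1 - q := by ring
    rw [e2]
  · refine (ae_restrict_iff' measurableSet_Ioo).2 (Eventually.of_forall fun s hs => ?_)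
    exact Real.rpow_nonneg (by linarith [hs.1]) _

lemma lintegral_far {b γ : ℝ} (hb : 0 < b) (hγ : 1 < γ) :
    ∫⁻ s in Ioi b, ENNReal.ofReal (s ^ (-γ)) = ENNReal.ofReal (b ^ (1 - γ) / (γ - 1)) := by
  have h3 : IntegrableOn (fun s : ℝ => s ^ (-γ)) (Ioi b) :=
    integrableOn_Ioi_rpow_of_lt (by linarith) hb
  rw [← ofReal_integral_eq_lintegral_ofReal h3]
  · congr 1
    rw [integral_Ioi_rpow_of_lt (by linarith) hb]
    have e2 : -γ + 1 = 1 - γ := by ring
    rw [e2, ← neg_sub γ 1, div_neg, neg_div, neg_neg]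
  · refine (ae_restrict_iff' measurableSet_Ioi).2 (Eventually.of_forall fun s hs => ?_)
    exact Real.rpow_nonneg (hb.le.trans (le_of_lt hs)) _

/-- region `[s₀, ∞)` -/
lemma Sys.Lp_high (h : Sys κ W V) (hκ : 2 ≤ κ) {a : ℝ}
    (ha : Tendsto (T κ W V) atTop (𝓝 a)) (ha0 : 0 ≤ a)
    {p γ : ℝ} (hp2 : 2 ≤ p) (hp4 : p < 4) (hγ1 : 1 < γ) :
    ∫⁻ s in Ici (ss κ), ENNReal.ofReal (|W s| ^ p * s ^ (-γ)) ≤
      ENNReal.ofReal ((4 * a) ^ (p / 2) * (2 / (1 - p / 4) + 2 / (γ - 1)) *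
        bb κ ^ (1 - γ)) := by
  have hbs := bb_sq hκ
  have hb := bb_pos hκ
  have hs0 := ss_pos hκ
  have hbl := bb_lt_ss hκ
  have hβ := beta_ge hκ
  -- pointwise bound
  have hW : ∀ s, ss κ ≤ s → |W s| ^ p ≤ (4 * a) ^ (p / 2) * (s / rr κ s) ^ (p / 2) := by
    intro s hs
    have h1 := h.W_sq_le hκ ha hs
    have hs' : 0 < s := hs0.trans_le hs
    have e1 : |W s| ^ p = (W s ^ 2) ^ (p / 2) := by
      have h2 : |W s| = (W s ^ 2) ^ ((1 : ℝ) / 2) := by
        rw [← Real.sqrt_eq_rpow, Real.sqrt_sq_eq_abs]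
      rw [h2, ← Real.rpow_mul (sq_nonneg _)]
      congr 1
      ring
    have hr : 0 ≤ s / rr κ s := div_nonneg hs'.le (Real.sqrt_nonneg _)
    rw [e1, ← Real.mul_rpow (by positivity) hr]
    exact Real.rpow_le_rpow (sq_nonneg _) h1 (by linarith)
  have hrr : ∀ s, bb κ < s → rr κ s ^ 2 = (s - bb κ) * (s + bb κ) ∧ 0 < rr κ s := by
    intro s hs
    have h1 : κ * (κ - 1) < s ^ 2 := by rw [← hbs]; nlinarith
    refine ⟨?_, Real.sqrt_pos.2 (by linarith)⟩
    rw [rr_sq h1.le, ← hbs]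
    ring
  have hsub : Ici (ss κ) ⊆ Ioo (bb κ) (2 * bb κ) ∪ Ici (2 * bb κ) := by
    intro s hs
    rcases lt_or_ge s (2 * bb κ) with h1 | h1
    · exact Or.inl ⟨hbl.trans_le hs, h1⟩
    · exact Or.inr h1
  set G : ℝ → ℝ≥0∞ := fun s => ENNReal.ofReal ((4 * a) ^ (p / 2) * (s / rr κ s) ^ (p / 2) *
    s ^ (-γ)) with hG
  have step1 : ∫⁻ s in Ici (ss κ), ENNReal.ofReal (|W s| ^ p * s ^ (-γ)) ≤
      ∫⁻ s in Ici (ss κ), G s := by
    refine setLIntegral_mono' measurableSet_Ici fun s hs => ?_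
    apply ENNReal.ofReal_le_ofReal
    have hs' : 0 < s := hs0.trans_le hs
    have := hW s hs
    gcongr
  have near : ∫⁻ s in Ioo (bb κ) (2 * bb κ), G s ≤
      ENNReal.ofReal ((4 * a) ^ (p / 2) * (2 / (1 - p / 4)) * bb κ ^ (1 - γ)) := by
    have hpt : ∀ s ∈ Ioo (bb κ) (2 * bb κ), G s ≤
        ENNReal.ofReal ((4 * a) ^ (p / 2) * (2 * bb κ) ^ (p / 4) * bb κ ^ (-γ)) *
        ENNReal.ofReal ((s - bb κ) ^ (-(p / 4))) := by
      intro s hs
      simp only [hG]
      rw [← ENNReal.ofReal_mul (by positivity)]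
      apply ENNReal.ofReal_le_ofReal
      obtain ⟨h1, h2⟩ := hrr s hs.1
      have hs1 : 0 < s - bb κ := by linarith [hs.1]
      have hs' : 0 < s := hb.trans hs.1
      have h3 : (s / rr κ s) ^ (p / 2) ≤ ((2 * bb κ) * (s - bb κ)⁻¹) ^ (p / 4) := by
        have e1 : (s / rr κ s) ^ (p / 2) = ((s / rr κ s) ^ 2) ^ (p / 4) := by
          rw [← Real.rpow_natCast, ← Real.rpow_mul (by positivity)]
          congr 1
          push_cast
          ring
        rw [e1]
        apply Real.rpow_le_rpow (by positivity) _ (by linarith)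
        rw [div_pow, h1, ← div_eq_mul_inv, div_le_div_iff₀ (by nlinarith) hs1]
        have := hs.2
        have h5 : s ^ 2 ≤ 2 * bb κ * (s + bb κ) := by nlinarith
        nlinarith
      have h4 : s ^ (-γ) ≤ bb κ ^ (-γ) := by
        apply Real.rpow_le_rpow_of_nonpos hb hs.1.le (by linarith)
      have e2 : ((2 * bb κ) * (s - bb κ)⁻¹) ^ (p / 4) =
          (2 * bb κ) ^ (p / 4) * (s - bb κ) ^ (-(p / 4)) := by
        rw [Real.mul_rpow (by positivity) (by positivity), Real.inv_rpow hs1.le,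
          ← Real.rpow_neg hs1.le]
      rw [e2] at h3
      calc (4 * a) ^ (p / 2) * (s / rr κ s) ^ (p / 2) * s ^ (-γ)
          ≤ (4 * a) ^ (p / 2) * ((2 * bb κ) ^ (p / 4) * (s - bb κ) ^ (-(p / 4))) *
            bb κ ^ (-γ) := by gcongr
        _ = _ := by ring
    calc ∫⁻ s in Ioo (bb κ) (2 * bb κ), G s
        ≤ ∫⁻ s in Ioo (bb κ) (2 * bb κ),
            ENNReal.ofReal ((4 * a) ^ (p / 2) * (2 * bb κ) ^ (p / 4) * bb κ ^ (-γ)) *
            ENNReal.ofReal ((s - bb κ) ^ (-(p / 4))) := setLIntegral_mono' measurableSet_Ioo hpt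
      _ = ENNReal.ofReal ((4 * a) ^ (p / 2) * (2 * bb κ) ^ (p / 4) * bb κ ^ (-γ)) *
            ENNReal.ofReal (bb κ ^ (1 - p / 4) / (1 - p / 4)) := by
          rw [lintegral_const_mul' _ _ ENNReal.ofReal_ne_top, lintegral_near hb (by linarith)]
      _ = ENNReal.ofReal ((4 * a) ^ (p / 2) * (2 * bb κ) ^ (p / 4) * bb κ ^ (-γ) *
            (bb κ ^ (1 - p / 4) / (1 - p / 4))) :=
          (ENNReal.ofReal_mul (by positivity)).symm
      _ ≤ _ := by
          apply ENNReal.ofReal_le_ofReal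
          have h1 : (2 * bb κ) ^ (p / 4) ≤ 2 * bb κ ^ (p / 4) := by
            rw [Real.mul_rpow (by norm_num) hb.le]
            have : (2 : ℝ) ^ (p / 4) ≤ 2 ^ (1 : ℝ) := by
              gcongr
              · norm_num
              · linarith
            rw [Real.rpow_one] at this
            gcongr
          have h2 : bb κ ^ (p / 4) * bb κ ^ (-γ) * bb κ ^ (1 - p / 4) = bb κ ^ (1 - γ) := by
            rw [← Real.rpow_add hb, ← Real.rpow_add hb]
            congr 1
            ring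
          have h3 : 0 < 1 - p / 4 := by linarith
          calc (4 * a) ^ (p / 2) * (2 * bb κ) ^ (p / 4) * bb κ ^ (-γ) *
                (bb κ ^ (1 - p / 4) / (1 - p / 4))
              ≤ (4 * a) ^ (p / 2) * (2 * bb κ ^ (p / 4)) * bb κ ^ (-γ) *
                (bb κ ^ (1 - p / 4) / (1 - p / 4)) := by gcongr
            _ = (4 * a) ^ (p / 2) * (2 / (1 - p / 4)) *
                (bb κ ^ (p / 4) * bb κ ^ (-γ) * bb κ ^ (1 - p / 4)) := by ring
            _ = _ := by rw [h2]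
  have far : ∫⁻ s in Ici (2 * bb κ), G s ≤
      ENNReal.ofReal ((4 * a) ^ (p / 2) * (2 / (γ - 1)) * bb κ ^ (1 - γ)) := by
    have hpt : ∀ s ∈ Ioi (2 * bb κ), G s ≤
        ENNReal.ofReal ((4 * a) ^ (p / 2) * 2) * ENNReal.ofReal (s ^ (-γ)) := by
      intro s hs
      simp only [hG]
      rw [← ENNReal.ofReal_mul (by positivity)]
      apply ENNReal.ofReal_le_ofReal
      have hs2 : 2 * bb κ < s := hs
      obtain ⟨h1, h2⟩ := hrr s (by linarith)
      have hs' : 0 < s := by linarith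
      have h3 : (s / rr κ s) ^ (p / 2) ≤ 2 := by
        have e1 : (s / rr κ s) ^ (p / 2) = ((s / rr κ s) ^ 2) ^ (p / 4) := by
          rw [← Real.rpow_natCast, ← Real.rpow_mul (by positivity)]
          congr 1
          push_cast
          ring
        rw [e1]
        have h4 : (s / rr κ s) ^ 2 ≤ 2 := by
          rw [div_pow, h1, div_le_iff₀ (by nlinarith)]
          nlinarith
        calc ((s / rr κ s) ^ 2) ^ (p / 4) ≤ 2 ^ (p / 4) :=
              Real.rpow_le_rpow (by positivity) h4 (by linarith)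
          _ ≤ 2 ^ (1 : ℝ) := by
              gcongr
              · norm_num
              · linarith
          _ = 2 := by norm_num
      gcongr
    calc ∫⁻ s in Ici (2 * bb κ), G s = ∫⁻ s in Ioi (2 * bb κ), G s := by
          rw [restrict_Ioi_eq_restrict_Ici]
      _ ≤ ∫⁻ s in Ioi (2 * bb κ), ENNReal.ofReal ((4 * a) ^ (p / 2) * 2) *
            ENNReal.ofReal (s ^ (-γ)) := setLIntegral_mono' measurableSet_Ioi hpt
      _ = ENNReal.ofReal ((4 * a) ^ (p / 2) * 2) *
            ENNReal.ofReal ((2 * bb κ) ^ (1 - γ) / (γ - 1)) := by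
          rw [lintegral_const_mul' _ _ ENNReal.ofReal_ne_top, lintegral_far (by positivity) hγ1]
      _ = ENNReal.ofReal ((4 * a) ^ (p / 2) * 2 * ((2 * bb κ) ^ (1 - γ) / (γ - 1))) :=
          (ENNReal.ofReal_mul (by positivity)).symm
      _ ≤ _ := by
          apply ENNReal.ofReal_le_ofReal
          have h1 : (2 * bb κ) ^ (1 - γ) ≤ bb κ ^ (1 - γ) :=
            Real.rpow_le_rpow_of_nonpos hb (by linarith) (by linarith)
          have h3 : 0 < γ - 1 := by linarith
          calc (4 * a) ^ (p / 2) * 2 * ((2 * bb κ) ^ (1 - γ) / (γ - 1))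
              ≤ (4 * a) ^ (p / 2) * 2 * (bb κ ^ (1 - γ) / (γ - 1)) := by gcongr
            _ = _ := by ring
  calc ∫⁻ s in Ici (ss κ), ENNReal.ofReal (|W s| ^ p * s ^ (-γ)) ≤ ∫⁻ s in Ici (ss κ), G s := step1
    _ ≤ ∫⁻ s in Ioo (bb κ) (2 * bb κ) ∪ Ici (2 * bb κ), G s := lintegral_mono_set hsub
    _ ≤ (∫⁻ s in Ioo (bb κ) (2 * bb κ), G s) + ∫⁻ s in Ici (2 * bb κ), G s :=
        lintegral_union_le _ _ _
    _ ≤ _ := add_le_add near far
    _ = _ := by
        have h3 : 0 < γ - 1 := by linarith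
        have h4 : 0 < 1 - p / 4 := by linarith
        rw [← ENNReal.ofReal_add (by positivity) (by positivity)]
        congr 1
        ring

end Pool.Agent.MP_6cbfb8_an.Sparse
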