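import Pool.Agent.MP_6cbfb8_an.Sparse.Region
import Pool.Agent.MP_6cbfb8_an.Sparse.Bes

/-!
The functions `s^((j+1)/2) j_k(s)` solve the system of `ODE.lean`.
-/

namespace Pool.Agent.MP_6cbfb8_an.Sparse

open Set Filter Topology MeasureTheory
open scoped Real ENNReal

/-- exponent `(j+1)/2` -/
noncomputable def ee (j : ℕ) : ℝ := ((j : ℝ) + 1) / 2

noncomputable def kap (j k : ℕ) : ℝ := (k : ℝ) + ee j

noncomputable def Wk (j k : ℕ) (s : ℝ) : ℝ := s ^ ee j * jb j k s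

lemma hasDerivAt_Wk (j k : ℕ) {s : ℝ} (hs : 0 < s) :
    HasDerivAt (Wk j k) (kap j k / s * Wk j k s - Wk j (k + 1) s) s := by
  have h1 := Real.hasDerivAt_rpow_const (x := s) (p := ee j) (Or.inl hs.ne')
  have h2 := h1.fun_mul (hasDerivAt_jb j k hs.ne')
  refine HasDerivAt.congr_deriv (f := Wk j k) h2 ?_
  unfold Wk kap
  rw [Real.rpow_sub_one hs.ne']
  field_simp
  ring

lemma Wk_contiguous (j k : ℕ) {s : ℝ} (hs : 0 < s) :
    Wk j k s + Wk j (k + 2) s = (2 * kap j k + 1) / s * Wk j (k + 1) s := by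
  have h := jb_contiguous j k hs.ne'
  unfold Wk
  rw [← mul_add, h]
  unfold kap ee
  field_simp
  ring

lemma sys (j k : ℕ) : Sys (kap j k) (Wk j k) (Wk j (k + 1)) where
  hW := fun s hs => hasDerivAt_Wk j k hs
  hV := fun s hs => by
    refine (hasDerivAt_Wk j (k + 1) hs).congr_deriv ?_
    have h := Wk_contiguous j k hs
    have h1 : Wk j (k + 1 + 1) s = (2 * kap j k + 1) / s * Wk j (k + 1) s - Wk j k s := by
      rw [show k + 1 + 1 = k + 2 from rfl]
      linarith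
    rw [h1]
    have h2 : kap j (k + 1) = kap j k + 1 := by unfold kap; push_cast; ring
    rw [h2]
    field_simp
    ring

lemma one_le_kap (j k : ℕ) (hj : 1 ≤ j) : 1 ≤ kap j k := by
  unfold kap ee
  have h1 : (1 : ℝ) ≤ j := by exact_mod_cast hj
  have h2 : (0 : ℝ) ≤ k := Nat.cast_nonneg k
  linarith

lemma two_le_kap (j k : ℕ) (hj : 1 ≤ j) (hk : 1 ≤ k) : 2 ≤ kap j k := by
  unfold kap ee
  have h1 : (1 : ℝ) ≤ j := by exact_mod_cast hj
  have h2 : (1 : ℝ) ≤ k := by exact_mod_cast hk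
  linarith

lemma exists_limit (j : ℕ) (hj : 1 ≤ j) : ∃ a : ℝ, ∀ k : ℕ,
    Tendsto (T (kap j k) (Wk j k) (Wk j (k + 1))) atTop (𝓝 a) := by
  obtain ⟨a, ha⟩ := (sys j 0).exists_tendsto (one_le_kap j 0 hj)
  refine ⟨a, fun k => ?_⟩
  induction k with
  | zero => exact ha
  | succ k ih =>
    have h := tendsto_next (sys j k) (one_le_kap j k hj) ih
      (U := Wk j (k + 2)) (fun s hs => Wk_contiguous j k hs)
    have h2 : kap j (k + 1) = kap j k + 1 := by unfold kap; push_cast; ring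
    rw [h2]
    exact h

lemma Wk_small (j k : ℕ) (hj : 1 ≤ j) {s : ℝ} (hs : 0 < s) (hs1 : s ≤ 1) :
    |Wk j k s| ≤ 2 * s ^ (k + 1) := by
  unfold Wk
  have h1 := jb_abs j k s
  rw [abs_of_pos hs] at h1
  rw [abs_mul, abs_of_nonneg (Real.rpow_nonneg hs.le _)]
  have h2 : s ^ ee j ≤ s := by
    have : (1 : ℝ) ≤ ee j := by
      unfold ee
      have h1 : (1 : ℝ) ≤ j := by exact_mod_cast hj
      linarith
    calc s ^ ee j ≤ s ^ (1 : ℝ) := Real.rpow_le_rpow_of_exponent_ge hs hs1 this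
      _ = s := Real.rpow_one s
  have h3 : (s / 2) ^ k ≤ s ^ k := pow_le_pow_left₀ (by positivity) (by linarith) _
  have h4 : Real.exp (s ^ 2 / 4) ≤ 2 := by
    have : s ^ 2 / 4 ≤ 1 / 4 := by nlinarith
    calc Real.exp (s ^ 2 / 4) ≤ Real.exp (1 / 4) := Real.exp_le_exp.2 this
      _ ≤ 2 := by
        have h5 := Real.exp_bound_div_one_sub_of_interval (x := 1 / 4) (by norm_num) (by norm_num)
        refine h5.trans (by norm_num)
  calc s ^ ee j * |jb j k s| ≤ s * (s ^ k * 2) := by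
        gcongr
        exact h1.trans (by gcongr)
    _ = 2 * s ^ (k + 1) := by ring

lemma Wp_small (j k : ℕ) (hj : 1 ≤ j) {s : ℝ} (hs : 0 < s) (hs1 : s ≤ 1) :
    |Wp (kap j k) (Wk j k) (Wk j (k + 1)) s| ≤ (2 * kap j k + 2) * s ^ k := by
  have h1 := Wk_small j k hj hs hs1
  have h2 := Wk_small j (k + 1) hj hs hs1
  have hκ := one_le_kap j k hj
  unfold Wp
  have h3 : |kap j k / s * Wk j k s| ≤ 2 * kap j k * s ^ k := by
    rw [abs_mul, abs_div, abs_of_pos hs, abs_of_nonneg (by linarith : 0 ≤ kap j k)]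
    calc kap j k / s * |Wk j k s| ≤ kap j k / s * (2 * s ^ (k + 1)) := by gcongr
      _ = 2 * kap j k * s ^ k := by
        rw [pow_succ]
        field_simp
  have h4 : |Wk j (k + 1) s| ≤ 2 * s ^ k := by
    refine h2.trans ?_
    have : s ^ (k + 1 + 1) ≤ s ^ k := pow_le_pow_of_le_one hs.le hs1 (by omega)
    linarith
  calc |kap j k / s * Wk j k s - Wk j (k + 1) s| ≤ |kap j k / s * Wk j k s| + |Wk j (k + 1) s| :=
        abs_sub _ _
    _ ≤ _ := by linarith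

lemma tendsto_D_zero (j k : ℕ) (hj : 1 ≤ j) :
    Tendsto (fun s => Wk j k s * Wp (kap j k) (Wk j k) (Wk j (k + 1)) s) (𝓝[>] 0) (𝓝 0) := by
  have hκ := one_le_kap j k hj
  have h0 : Tendsto (fun s : ℝ => 2 * (2 * kap j k + 2) * s) (𝓝[>] 0) (𝓝 0) := by
    have : Tendsto (fun s : ℝ => 2 * (2 * kap j k + 2) * s) (𝓝 0) (𝓝 (2 * (2 * kap j k + 2) * 0)) :=
      (continuous_const.mul continuous_id).tendsto 0
    rw [mul_zero] at this
    exact this.mono_left nhdsWithin_le_nhds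
  apply squeeze_zero_norm' _ h0
  filter_upwards [Ioc_mem_nhdsGT (zero_lt_one' ℝ)] with s hs
  rw [Real.norm_eq_abs, abs_mul]
  have h1 := Wk_small j k hj hs.1 hs.2
  have h2 := Wp_small j k hj hs.1 hs.2
  have h3 : s ^ k ≤ 1 := pow_le_one₀ hs.1.le hs.2
  have h4 : s ^ (k + 1) ≤ s := by
    calc s ^ (k + 1) ≤ s ^ 1 := pow_le_pow_of_le_one hs.1.le hs.2 (by omega)
      _ = s := pow_one s
  have h5 := hs.1
  calc |Wk j k s| * |Wp (kap j k) (Wk j k) (Wk j (k + 1)) s|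
      ≤ (2 * s) * ((2 * kap j k + 2) * 1) := by
        gcongr
        · exact h1.trans (by gcongr)
        · exact h2.trans (by gcongr)
    _ = _ := by ring

lemma tendsto_T_zero (j k : ℕ) (hj : 1 ≤ j) (hk : 1 ≤ k) :
    Tendsto (T (kap j k) (Wk j k) (Wk j (k + 1))) (𝓝[>] 0) (𝓝 0) := by
  have hκ := one_le_kap j k hj
  set K : ℝ := (1 + kap j k * (kap j k - 1)) * 4 + (2 * kap j k + 2) ^ 2 with hK
  have h0 : Tendsto (fun s : ℝ => K * s ^ 2) (𝓝[>] 0) (𝓝 0) := by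
    have : Tendsto (fun s : ℝ => K * s ^ 2) (𝓝 0) (𝓝 (K * 0 ^ 2)) :=
      (continuous_const.mul (continuous_id.pow 2)).tendsto 0
    rw [zero_pow (by norm_num), mul_zero] at this
    exact this.mono_left nhdsWithin_le_nhds
  apply squeeze_zero_norm' _ h0
  filter_upwards [Ioc_mem_nhdsGT (zero_lt_one' ℝ)] with s hs
  have hs0 := hs.1
  have h1 := Wk_small j k hj hs.1 hs.2
  have h2 := Wp_small j k hj hs.1 hs.2
  have h3 : s ^ k ≤ s := by
    calc s ^ k ≤ s ^ 1 := pow_le_pow_of_le_one hs.1.le hs.2 (by omega)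
      _ = s := pow_one s
  have h4 : s ^ (k + 1) ≤ s ^ 2 := pow_le_pow_of_le_one hs.1.le hs.2 (by omega)
  have h5 : |Wk j k s| ≤ 2 * s ^ 2 := h1.trans (by gcongr)
  have h6 : |Wp (kap j k) (Wk j k) (Wk j (k + 1)) s| ≤ (2 * kap j k + 2) * s := by
    refine h2.trans ?_
    have : 0 ≤ 2 * kap j k + 2 := by linarith
    gcongr
  have hβ : 0 ≤ kap j k * (kap j k - 1) := mul_nonneg (by linarith) (by linarith)
  unfold T
  rw [Real.norm_eq_abs]
  have h7 : |(1 - kap j k * (kap j k - 1) / s ^ 2) * Wk j k s ^ 2| ≤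
      (1 + kap j k * (kap j k - 1)) * 4 * s ^ 2 := by
    rw [abs_mul, abs_pow]
    have h8 : |1 - kap j k * (kap j k - 1) / s ^ 2| ≤ 1 + kap j k * (kap j k - 1) / s ^ 2 := by
      have := abs_sub (1 : ℝ) (kap j k * (kap j k - 1) / s ^ 2)
      rwa [abs_one, abs_of_nonneg (by positivity : 0 ≤ kap j k * (kap j k - 1) / s ^ 2)] at this
    calc |1 - kap j k * (kap j k - 1) / s ^ 2| * |Wk j k s| ^ 2
        ≤ (1 + kap j k * (kap j k - 1) / s ^ 2) * (2 * s ^ 2) ^ 2 := by gcongr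
      _ = 4 * s ^ 4 + 4 * (kap j k * (kap j k - 1)) * s ^ 2 := by
          field_simp
          norm_num
      _ ≤ 4 * s ^ 2 + 4 * (kap j k * (kap j k - 1)) * s ^ 2 := by
          have : s ^ 4 ≤ s ^ 2 := pow_le_pow_of_le_one hs.1.le hs.2 (by omega)
          linarith
      _ = _ := by ring
  have h9 : |Wp (kap j k) (Wk j k) (Wk j (k + 1)) s ^ 2| ≤ (2 * kap j k + 2) ^ 2 * s ^ 2 := by
    rw [abs_pow, ← mul_pow]
    gcongr
  calc |(1 - kap j k * (kap j k - 1) / s ^ 2) * Wk j k s ^ 2 +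
        Wp (kap j k) (Wk j k) (Wk j (k + 1)) s ^ 2|
      ≤ _ := abs_add_le _ _
    _ ≤ (1 + kap j k * (kap j k - 1)) * 4 * s ^ 2 + (2 * kap j k + 2) ^ 2 * s ^ 2 :=
        add_le_add h7 h9
    _ = K * s ^ 2 := by rw [hK]; ring

end Pool.Agent.MP_6cbfb8_an.Sparse
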