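import Pool.Agent.MP_6cbfb8_an.Sparse.OneDim

/-!
Powers of the Fejer kernel as polynomials in `cos θ`.
-/

namespace Pool.Agent.MP_6cbfb8_an.Sparse

open Polynomial MeasureTheory Set
open scoped Real

/-- the Fejer kernel, normalised to be `1` at `θ = 0` -/
noncomputable def Fj (M : ℕ) : ℝ[X] :=
  ∑ a ∈ Finset.range M, ∑ b ∈ Finset.range M, C (1 / (M : ℝ) ^ 2) *
    Polynomial.Chebyshev.T ℝ ((a : ℤ) - b)

lemma Fj_natDegree (M : ℕ) : (Fj M).natDegree ≤ M - 1 := by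
  unfold Fj
  refine (natDegree_sum_le_of_forall_le _ _ fun a ha => ?_)
  refine (natDegree_sum_le_of_forall_le _ _ fun b hb => ?_)
  refine (natDegree_C_mul_le _ _).trans ?_
  rw [Polynomial.Chebyshev.natDegree_T]
  rw [Finset.mem_range] at ha hb
  omega

lemma Fj_cos (M : ℕ) (θ : ℝ) : (Fj M).eval (Real.cos θ) = (1 / (M : ℝ) ^ 2) *
    ((∑ a ∈ Finset.range M, Real.cos (a * θ)) ^ 2 +
      (∑ a ∈ Finset.range M, Real.sin (a * θ)) ^ 2) := by
  unfold Fj
  rw [eval_finsetSum, sq (∑ a ∈ Finset.range M, Real.cos (a * θ)),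
    sq (∑ a ∈ Finset.range M, Real.sin (a * θ)), Finset.sum_mul_sum, Finset.sum_mul_sum,
    ← Finset.sum_add_distrib, Finset.mul_sum]
  refine Finset.sum_congr rfl fun a _ => ?_
  rw [eval_finsetSum, ← Finset.sum_add_distrib, Finset.mul_sum]
  refine Finset.sum_congr rfl fun b _ => ?_
  rw [eval_mul, eval_C, Polynomial.Chebyshev.T_real_cos]
  push_cast
  rw [sub_mul, Real.cos_sub]

lemma Fj_nonneg (M : ℕ) (θ : ℝ) : 0 ≤ (Fj M).eval (Real.cos θ) := by
  rw [Fj_cos]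
  positivity

lemma Fj_le_one (M : ℕ) (hM : 1 ≤ M) (θ : ℝ) : (Fj M).eval (Real.cos θ) ≤ 1 := by
  unfold Fj
  rw [eval_finsetSum]
  have hM' : (0 : ℝ) < M := by exact_mod_cast hM
  have h : ∀ a ∈ Finset.range M, eval (Real.cos θ) (∑ b ∈ Finset.range M, C (1 / (M : ℝ) ^ 2) *
      Polynomial.Chebyshev.T ℝ ((a : ℤ) - b)) ≤ 1 / M := by
    intro a _
    rw [eval_finsetSum]
    have h1 : ∀ b ∈ Finset.range M, eval (Real.cos θ) (C (1 / (M : ℝ) ^ 2) *
      Polynomial.Chebyshev.T ℝ ((a : ℤ) - b)) ≤ 1 / (M : ℝ) ^ 2 := by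
      intro b _
      rw [eval_mul, eval_C, Polynomial.Chebyshev.T_real_cos]
      have := Real.cos_le_one (((a : ℤ) - (b : ℤ) : ℤ) * θ)
      have h2 : 0 ≤ 1 / (M : ℝ) ^ 2 := by positivity
      nlinarith
    refine (Finset.sum_le_sum h1).trans ?_
    rw [Finset.sum_const, Finset.card_range, nsmul_eq_mul]
    apply le_of_eq
    field_simp
  refine (Finset.sum_le_sum h).trans ?_
  rw [Finset.sum_const, Finset.card_range, nsmul_eq_mul]
  apply le_of_eq
  field_simp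

lemma Fj_lower (M : ℕ) (hM : 1 ≤ M) {θ : ℝ} (h0 : 0 ≤ θ) (h1 : θ ≤ 1 / M) :
    1 / 2 ≤ (Fj M).eval (Real.cos θ) := by
  unfold Fj
  rw [eval_finsetSum]
  have hM' : (0 : ℝ) < M := by exact_mod_cast hM
  have hMθ : θ * M ≤ 1 := by
    rwa [le_div_iff₀ hM'] at h1
  have h : ∀ a ∈ Finset.range M, 1 / (2 * M) ≤
      eval (Real.cos θ) (∑ b ∈ Finset.range M, C (1 / (M : ℝ) ^ 2) *
      Polynomial.Chebyshev.T ℝ ((a : ℤ) - b)) := by
    intro a ha
    rw [eval_finsetSum]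
    have h1 : ∀ b ∈ Finset.range M, 1 / (2 * (M : ℝ) ^ 2) ≤
        eval (Real.cos θ) (C (1 / (M : ℝ) ^ 2) *
      Polynomial.Chebyshev.T ℝ ((a : ℤ) - b)) := by
      intro b hb
      rw [eval_mul, eval_C, Polynomial.Chebyshev.T_real_cos]
      push_cast
      have h3 := Real.one_sub_sq_div_two_le_cos (x := ((a : ℝ) - b) * θ)
      have h4 : |((a : ℝ) - b) * θ| ≤ 1 := by
        rw [abs_mul, abs_of_nonneg h0]
        have ha' : (a : ℝ) ≤ M := by
          exact_mod_cast (Finset.mem_range.1 ha).le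
        have hb' : (b : ℝ) ≤ M := by
          exact_mod_cast (Finset.mem_range.1 hb).le
        have ha0 : (0 : ℝ) ≤ a := Nat.cast_nonneg a
        have hb0 : (0 : ℝ) ≤ b := Nat.cast_nonneg b
        have h5 : |(a : ℝ) - b| ≤ M := by
          rw [abs_le]
          constructor <;> linarith
        calc |(a : ℝ) - b| * θ ≤ M * θ := by gcongr
          _ ≤ 1 := by linarith
      have h5 : (((a : ℝ) - b) * θ) ^ 2 ≤ 1 := (sq_le_one_iff_abs_le_one _).2 h4
      have h6 : 1 / 2 ≤ Real.cos (((a : ℝ) - b) * θ) := by linarith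
      have e : 1 / (2 * (M : ℝ) ^ 2) = 1 / (M : ℝ) ^ 2 * (1 / 2) := by ring
      rw [e]
      gcongr
    refine le_trans ?_ (Finset.sum_le_sum h1)
    rw [Finset.sum_const, Finset.card_range, nsmul_eq_mul]
    apply le_of_eq
    field_simp
  refine le_trans ?_ (Finset.sum_le_sum h)
  rw [Finset.sum_const, Finset.card_range, nsmul_eq_mul]
  apply le_of_eq
  field_simp

/-- decay of the Fejer kernel -/
lemma Fj_decay (M : ℕ) (hM : 1 ≤ M) {θ : ℝ} (h0 : 0 < θ) (h1 : θ ≤ π) :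
    (Fj M).eval (Real.cos θ) ≤ (π / (M * θ)) ^ 2 := by
  have hM' : (0 : ℝ) < M := by exact_mod_cast hM
  rw [Fj_cos]
  set z : ℂ := Complex.exp ((θ : ℂ) * Complex.I) with hz
  have e1 : ∀ a : ℕ, z ^ a = (Real.cos (a * θ) : ℂ) + (Real.sin (a * θ) : ℂ) * Complex.I := by
    intro a
    rw [hz, ← Complex.exp_nat_mul, ← mul_assoc]
    have : ((a : ℂ) * (θ : ℂ)) = (((a : ℝ) * θ : ℝ) : ℂ) := by push_cast; rfl
    rw [this, Complex.exp_mul_I, Complex.ofReal_cos, Complex.ofReal_sin]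
  have e2 : ∑ a ∈ Finset.range M, z ^ a = ((∑ a ∈ Finset.range M, Real.cos (a * θ) : ℝ) : ℂ) +
      ((∑ a ∈ Finset.range M, Real.sin (a * θ) : ℝ) : ℂ) * Complex.I := by
    push_cast
    rw [Finset.sum_mul, ← Finset.sum_add_distrib]
    refine Finset.sum_congr rfl fun a _ => ?_
    rw [e1]
    push_cast
    rfl
  have e3 : ‖∑ a ∈ Finset.range M, z ^ a‖ ^ 2 = (∑ a ∈ Finset.range M, Real.cos (a * θ)) ^ 2 +
      (∑ a ∈ Finset.range M, Real.sin (a * θ)) ^ 2 := by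
    rw [e2, ← Complex.normSq_eq_norm_sq, Complex.normSq_add_mul_I]
  have hz1 : ‖z‖ = 1 := Complex.norm_exp_ofReal_mul_I θ
  have e4 : ‖z - 1‖ = 2 * Real.sin (θ / 2) := by
    have h := Complex.norm_exp_I_mul_ofReal_sub_one θ
    rw [hz, mul_comm, h, Real.norm_eq_abs, abs_of_nonneg]
    have : 0 ≤ Real.sin (θ / 2) := Real.sin_nonneg_of_nonneg_of_le_pi (by linarith) (by linarith)
    positivity
  have e5 : (∑ a ∈ Finset.range M, z ^ a) * (z - 1) = z ^ M - 1 := geom_sum_mul z M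
  have e6 : ‖z ^ M - 1‖ ≤ 2 := by
    calc ‖z ^ M - 1‖ ≤ ‖z ^ M‖ + ‖(1 : ℂ)‖ := norm_sub_le _ _
      _ = 2 := by rw [norm_pow, hz1]; norm_num
  have e7 : θ / π ≤ Real.sin (θ / 2) := by
    have := Real.mul_le_sin (x := θ / 2) (by linarith) (by linarith)
    calc θ / π = 2 / π * (θ / 2) := by ring
      _ ≤ _ := this
  have e8 : ‖∑ a ∈ Finset.range M, z ^ a‖ * (2 * (θ / π)) ≤ 2 := by
    calc ‖∑ a ∈ Finset.range M, z ^ a‖ * (2 * (θ / π))
        ≤ ‖∑ a ∈ Finset.range M, z ^ a‖ * (2 * Real.sin (θ / 2)) := by gcongr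
      _ = ‖(∑ a ∈ Finset.range M, z ^ a) * (z - 1)‖ := by rw [norm_mul, e4]
      _ ≤ 2 := by rw [e5]; exact e6
  have e9 : ‖∑ a ∈ Finset.range M, z ^ a‖ ≤ π / θ := by
    rw [le_div_iff₀ h0]
    have hpi := Real.pi_pos
    have : ‖∑ a ∈ Finset.range M, z ^ a‖ * (2 * (θ / π)) =
      2 * (‖∑ a ∈ Finset.range M, z ^ a‖ * θ) / π := by ring
    rw [this, div_le_iff₀ hpi] at e8
    linarith
  rw [← e3]
  calc 1 / (M : ℝ) ^ 2 * ‖∑ a ∈ Finset.range M, z ^ a‖ ^ 2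
      ≤ 1 / (M : ℝ) ^ 2 * (π / θ) ^ 2 := by gcongr
    _ = (π / (M * θ)) ^ 2 := by
      field_simp

/-- the localising polynomial -/
noncomputable def Jp (j M : ℕ) : ℝ[X] := Fj M ^ (j + 2)

lemma Jp_natDegree (j M : ℕ) : (Jp j M).natDegree ≤ (j + 2) * (M - 1) := by
  unfold Jp
  refine natDegree_pow_le.trans ?_
  exact Nat.mul_le_mul_left _ (Fj_natDegree M)

lemma Jp_nonneg (j M : ℕ) (θ : ℝ) : 0 ≤ (Jp j M).eval (Real.cos θ) := by
  unfold Jp
  rw [eval_pow]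
  exact pow_nonneg (Fj_nonneg M θ) _

lemma Jp_upper (j : ℕ) : ∃ C : ℝ, 0 < C ∧ ∀ M : ℕ, 1 ≤ M →
    zint j (Jp j M) ≤ C * (1 / (M : ℝ)) ^ (j + 1) := by
  refine ⟨2 ^ (j + 2) * π ^ (j + 1) * π, by positivity, fun M hM => ?_⟩
  have hM' : (0 : ℝ) < M := by exact_mod_cast hM
  have hpi := Real.pi_pos
  set g : ℝ → ℝ := fun x => (1 + x ^ 2)⁻¹ with hg
  have hint : Integrable fun θ : ℝ => 2 ^ (j + 2) * (π / M) ^ j * g ((M / π) * θ) := by
    apply Integrable.const_mul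
    exact integrable_inv_one_add_sq.comp_mul_left' (by positivity)
  have hpt : ∀ θ ∈ Ioc (0 : ℝ) π, (Jp j M).eval (Real.cos θ) * Real.sin θ ^ j ≤
      2 ^ (j + 2) * (π / M) ^ j * g ((M / π) * θ) := by
    intro θ hθ
    set x : ℝ := M / π * θ with hx
    have hx0 : 0 < x := by have := hθ.1; positivity
    have h1 : (Fj M).eval (Real.cos θ) ≤ 2 / (1 + x ^ 2) := by
      rw [le_div_iff₀ (by positivity)]
      have ha := Fj_le_one M hM θ
      have hb := Fj_decay M hM hθ.1 hθ.2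
      have hc : (π / (M * θ)) ^ 2 * x ^ 2 = 1 := by
        have := hθ.1
        rw [hx]
        field_simp
      have h0 := Fj_nonneg M θ
      calc (Fj M).eval (Real.cos θ) * (1 + x ^ 2) = (Fj M).eval (Real.cos θ) +
          (Fj M).eval (Real.cos θ) * x ^ 2 := by ring
        _ ≤ 1 + (π / (M * θ)) ^ 2 * x ^ 2 := by gcongr
        _ = 2 := by rw [hc]; norm_num
    have h2 : (Jp j M).eval (Real.cos θ) ≤ (2 / (1 + x ^ 2)) ^ (j + 2) := by
      unfold Jp
      rw [eval_pow]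
      exact pow_le_pow_left₀ (Fj_nonneg M θ) h1 _
    have hs0 : 0 ≤ Real.sin θ := Real.sin_nonneg_of_nonneg_of_le_pi hθ.1.le hθ.2
    have h3 : Real.sin θ ^ j ≤ (π / M) ^ j * x ^ j := by
      rw [← mul_pow]
      apply pow_le_pow_left₀ hs0
      have e : π / M * x = θ := by rw [hx]; field_simp
      rw [e]
      exact Real.sin_le hθ.1.le
    have h4 : x ^ j ≤ (1 + x ^ 2) ^ (j + 1) := by
      have h5 : x ≤ 1 + x ^ 2 := by nlinarith [sq_nonneg (x - 1)]
      calc x ^ j ≤ (1 + x ^ 2) ^ j := pow_le_pow_left₀ hx0.le h5 _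
        _ ≤ (1 + x ^ 2) ^ (j + 1) := pow_le_pow_right₀ (by nlinarith [sq_nonneg x]) (by omega)
    calc (Jp j M).eval (Real.cos θ) * Real.sin θ ^ j
        ≤ (2 / (1 + x ^ 2)) ^ (j + 2) * ((π / M) ^ j * (1 + x ^ 2) ^ (j + 1)) := by
          gcongr
          exact h3.trans (by gcongr)
      _ = 2 ^ (j + 2) * (π / M) ^ j * g x := by
          rw [hg]
          have : (1 + x ^ 2) ≠ 0 := by positivity
          rw [div_pow]
          field_simp
          ring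

  have hgi : ∫ θ : ℝ, 2 ^ (j + 2) * (π / M) ^ j * g ((M / π) * θ) =
      2 ^ (j + 2) * (π / M) ^ j * ((π / M) * π) := by
    rw [integral_const_mul, Measure.integral_comp_mul_left, hg, integral_univ_inv_one_add_sq,
      smul_eq_mul, abs_of_pos (by positivity), inv_div]
  calc zint j (Jp j M) = ∫ θ in Ioc 0 π, (Jp j M).eval (Real.cos θ) * Real.sin θ ^ j := by
        unfold zint
        rw [intervalIntegral.integral_of_le hpi.le]
    _ ≤ ∫ θ in Ioc 0 π, 2 ^ (j + 2) * (π / M) ^ j * g ((M / π) * θ) := by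
        apply setIntegral_mono_on _ hint.integrableOn measurableSet_Ioc hpt
        exact ((zint_continuous j (Jp j M)).integrableOn_Icc).mono_set Ioc_subset_Icc_self
    _ ≤ ∫ θ : ℝ, 2 ^ (j + 2) * (π / M) ^ j * g ((M / π) * θ) := by
        apply setIntegral_le_integral hint
        refine Filter.Eventually.of_forall fun θ => ?_
        simp only [hg, Pi.zero_apply]
        positivity
    _ = 2 ^ (j + 2) * (π / M) ^ j * ((π / M) * π) := hgi
    _ = 2 ^ (j + 2) * π ^ (j + 1) * π * (1 / (M : ℝ)) ^ (j + 1) := by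
        rw [div_pow, div_pow]
        field_simp
        ring

lemma Jp_lower (j : ℕ) (hj : 1 ≤ j) : ∃ c : ℝ, 0 < c ∧ ∀ M k : ℕ, 1 ≤ M → M ≤ k + j →
    c * (1 / ((k : ℝ) + j)) ^ (j + 1) ≤ zint j (Jp j M * Q (j + 2) k * Q (j + 2) k) := by
  refine ⟨(1 / 2) ^ (j + 2) * (1 / 2) ^ 2 * (2 / π) ^ j * ((1 / 2) ^ (j + 1) / (j + 1)),
    by have := Real.pi_pos; positivity, fun M k hM hMk => ?_⟩
  have hj' : (1 : ℝ) ≤ j := by exact_mod_cast hj
  have hk0 : (0 : ℝ) ≤ k := Nat.cast_nonneg k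
  have hd : (2 : ℝ) < (j : ℝ) + 2 := by linarith
  have hM' : (0 : ℝ) < M := by exact_mod_cast hM
  have hkj : (0 : ℝ) < (k : ℝ) + j := by linarith
  have hpi := Real.pi_pos
  set δ : ℝ := 1 / 2 * (1 / ((k : ℝ) + j)) with hδ
  have hδ0 : 0 < δ := by positivity
  have hδ1 : δ ≤ 1 / 2 := by
    rw [hδ]
    have : 1 / ((k : ℝ) + j) ≤ 1 := by
      rw [div_le_one hkj]
      linarith
    linarith
  have hδpi : δ ≤ π := by linarith [Real.pi_gt_three]
  have hcont := zint_continuous j (Jp j M * Q (j + 2) k * Q (j + 2) k)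
  have hnn : ∀ θ ∈ Icc (0 : ℝ) π, 0 ≤ (Jp j M * Q (j + 2) k * Q (j + 2) k).eval (Real.cos θ) *
      Real.sin θ ^ j := by
    intro θ hθ
    have hs0 : 0 ≤ Real.sin θ := Real.sin_nonneg_of_nonneg_of_le_pi hθ.1 hθ.2
    rw [mul_assoc, eval_mul, eval_mul]
    have := Jp_nonneg j M θ
    have h2 := mul_self_nonneg ((Q (j + 2) k).eval (Real.cos θ))
    positivity
  have hlow : ∀ θ ∈ Icc (0 : ℝ) δ, (1 / 2) ^ (j + 2) * (1 / 2) ^ 2 * (2 / π) ^ j * θ ^ j ≤
      (Jp j M * Q (j + 2) k * Q (j + 2) k).eval (Real.cos θ) * Real.sin θ ^ j := by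
    intro θ hθ
    have h1 : θ ≤ 1 / M := by
      refine hθ.2.trans ?_
      have h2 : (M : ℝ) ≤ k + j := by exact_mod_cast hMk
      have h3 : 1 / ((k : ℝ) + j) ≤ 1 / M := one_div_le_one_div_of_le hM' h2
      have h4 : 0 < 1 / ((k : ℝ) + j) := by positivity
      rw [hδ]
      linarith
    have h2 := Fj_lower M hM hθ.1 h1
    have h3 : (1 / 2) ^ (j + 2) ≤ (Jp j M).eval (Real.cos θ) := by
      unfold Jp
      rw [eval_pow]
      exact pow_le_pow_left₀ (by norm_num) h2 _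
    have h4 : 1 / 2 ≤ (Q (j + 2) k).eval (Real.cos θ) := by
      refine le_trans ?_ (lower hd k hθ.1)
      have h5 : Real.sqrt ((k : ℝ) * (k + ((j : ℝ) + 2) - 2)) ≤ k + j := by
        apply Real.sqrt_le_iff.2
        refine ⟨hkj.le, ?_⟩
        nlinarith
      have h6 : Real.sqrt ((k : ℝ) * (k + ((j : ℝ) + 2) - 2)) * θ ≤ (k + j) * δ := by
        have := hθ.1
        have := hθ.2
        gcongr
      have h7 : ((k : ℝ) + j) * δ = 1 / 2 := by
        rw [hδ]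
        field_simp
      linarith
    have h5 : 2 / π * θ ≤ Real.sin θ := Real.mul_le_sin hθ.1 (by linarith [hθ.2, Real.pi_gt_three])
    have h6 : (2 / π) ^ j * θ ^ j ≤ Real.sin θ ^ j := by
      rw [← mul_pow]
      have := hθ.1
      exact pow_le_pow_left₀ (by positivity) h5 _
    have h7 : (1 / 2 : ℝ) ^ 2 ≤ (Q (j + 2) k).eval (Real.cos θ) * (Q (j + 2) k).eval (Real.cos θ) := by
      rw [← sq]
      exact pow_le_pow_left₀ (by norm_num) h4 _
    have h0 := hθ.1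
    have hJ0 := Jp_nonneg j M θ
    rw [mul_assoc (Jp j M), eval_mul, eval_mul]
    calc (1 / 2) ^ (j + 2) * (1 / 2) ^ 2 * (2 / π) ^ j * θ ^ j
        = (1 / 2) ^ (j + 2) * (1 / 2) ^ 2 * ((2 / π) ^ j * θ ^ j) := by ring
      _ ≤ (Jp j M).eval (Real.cos θ) * ((Q (j + 2) k).eval (Real.cos θ) *
          (Q (j + 2) k).eval (Real.cos θ)) * Real.sin θ ^ j := by
          gcongr
  have hI1 : ∫ θ in (0:ℝ)..δ, (1 / 2) ^ (j + 2) * (1 / 2) ^ 2 * (2 / π) ^ j * θ ^ j =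
      (1 / 2) ^ (j + 2) * (1 / 2) ^ 2 * (2 / π) ^ j * (δ ^ (j + 1) / (j + 1)) := by
    rw [intervalIntegral.integral_const_mul, integral_pow]
    simp
  have hI2 : ∫ θ in (0:ℝ)..δ, (1 / 2) ^ (j + 2) * (1 / 2) ^ 2 * (2 / π) ^ j * θ ^ j ≤
      ∫ θ in (0:ℝ)..δ, (Jp j M * Q (j + 2) k * Q (j + 2) k).eval (Real.cos θ) *
        Real.sin θ ^ j := by
    apply intervalIntegral.integral_mono_on hδ0.le _ (hcont.intervalIntegrable _ _) hlow
    exact (by fun_prop : Continuous fun θ : ℝ =>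
      (1 / 2) ^ (j + 2) * (1 / 2) ^ 2 * (2 / π) ^ j * θ ^ j).intervalIntegrable _ _
  have hI3 : ∫ θ in (0:ℝ)..δ, (Jp j M * Q (j + 2) k * Q (j + 2) k).eval (Real.cos θ) *
        Real.sin θ ^ j ≤ zint j (Jp j M * Q (j + 2) k * Q (j + 2) k) := by
    unfold zint
    rw [← intervalIntegral.integral_add_adjacent_intervals (a := 0) (b := δ) (c := π)
      (hcont.intervalIntegrable _ _) (hcont.intervalIntegrable _ _)]
    have : 0 ≤ ∫ θ in δ..π, (Jp j M * Q (j + 2) k * Q (j + 2) k).eval (Real.cos θ) *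
        Real.sin θ ^ j := by
      apply intervalIntegral.integral_nonneg hδpi
      intro θ hθ
      exact hnn θ ⟨hδ0.le.trans hθ.1, hθ.2⟩
    linarith
  refine le_trans (le_of_eq ?_) ((hI1 ▸ hI2).trans hI3)
  rw [hδ, mul_pow (1 / 2 : ℝ)]
  ring

end Pool.Agent.MP_6cbfb8_an.Sparse
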