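import Pool.Agent.MP_6cbfb8_an.Sparse.Rep

/-!
Densities with sparse spectrum: the bound in dimension `j + 2`.
-/

namespace Pool.Agent.MP_6cbfb8_an.Sparse

open MeasureTheory Set Filter Topology
open scoped ENNReal Real RealInnerProductSpace

/-- the antipodal map -/
noncomputable def anti (j : ℕ) (x : S (j + 2)) : S (j + 2) :=
  ⟨(LinearIsometryEquiv.neg ℝ : E (j + 2) ≃ₗᵢ[ℝ] E (j + 2)) x, by simp⟩

lemma measurePreserving_anti (j : ℕ) : MeasurePreserving (anti j) (sm (j + 2)) (sm (j + 2)) :=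
  measurePreserving_isometry _

/-- even or odd part -/
noncomputable def parity (j k : ℕ) (g : S (j + 2) → ℂ) (x : S (j + 2)) : ℂ :=
  (g x + (-1) ^ k * g (anti j x)) / 2

lemma parity_measurable (j k : ℕ) {g : S (j + 2) → ℂ} (hg : Measurable g) :
    Measurable (parity j k g) :=
  (hg.add ((hg.comp (measurePreserving_anti j).measurable).const_mul _)).div_const _

lemma parity_bound (j k : ℕ) {g : S (j + 2) → ℂ} {B : ℝ} (hB : ∀ x, ‖g x‖ ≤ B)
    (x : S (j + 2)) : ‖parity j k g x‖ ≤ B := by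
  unfold parity
  rw [norm_div, Complex.norm_ofNat, div_le_iff₀ (by norm_num)]
  calc ‖g x + (-1) ^ k * g (anti j x)‖ ≤ ‖g x‖ + ‖(-1) ^ k * g (anti j x)‖ := norm_add_le _ _
    _ = ‖g x‖ + ‖g (anti j x)‖ := by simp
    _ ≤ B * 2 := by linarith [hB x, hB (anti j x)]

lemma Lf_parity (j : ℕ) (hj : 1 ≤ j) (k l : ℕ) {g : S (j + 2) → ℂ} (hg : Measurable g) {B : ℝ}
    (hB : ∀ x, ‖g x‖ ≤ B) (ω : S (j + 2)) :
    Lf j (parity j k g) ω (Q ((j : ℝ) + 2) l) =
      (1 + (-1) ^ (k + l)) / 2 * Lf j g ω (Q ((j : ℝ) + 2) l) := by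
  have hj' : (1 : ℝ) ≤ j := by exact_mod_cast hj
  have hd : (2 : ℝ) < (j : ℝ) + 2 := by linarith
  have h1 : Lf j (fun x => g (anti j x)) ω (Q ((j : ℝ) + 2) l) =
      (-1) ^ l * Lf j g ω (Q ((j : ℝ) + 2) l) := by
    unfold Lf
    rw [← integral_const_mul]
    have hmp := measurePreserving_anti j
    have hm : AEStronglyMeasurable (fun x : S (j + 2) => (-1 : ℂ) ^ l * (g x *
        (((Q ((j : ℝ) + 2) l).eval ⟪(ω : E (j + 2)), (x : E (j + 2))⟫ : ℝ) : ℂ)))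
        (Measure.map (anti j) (sm (j + 2))) := by
      rw [hmp.map_eq]
      exact ((integrable_Lf j hg hB ω _).const_mul _).aestronglyMeasurable
    conv_rhs => rw [← hmp.map_eq]
    rw [integral_map hmp.measurable.aemeasurable hm]
    refine integral_congr_ae (Eventually.of_forall fun x => ?_)
    simp only
    have h2 : ⟪(ω : E (j + 2)), (anti j x : E (j + 2))⟫ = -⟪(ω : E (j + 2)), (x : E (j + 2))⟫ := by
      unfold anti
      simp
    rw [h2, (eval_neg hd l _).1]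
    push_cast
    have h3 : ((-1 : ℂ) ^ l) * (-1) ^ l = 1 := by
      rw [← mul_pow]
      norm_num
    linear_combination (-(g (anti j x) * (((Q ((j : ℝ) + 2) l).eval
      ⟪(ω : E (j + 2)), (x : E (j + 2))⟫ : ℝ) : ℂ))) * h3
  have h2 : Lf j (parity j k g) ω (Q ((j : ℝ) + 2) l) = (1 / 2) * (Lf j g ω (Q ((j : ℝ) + 2) l) +
      (-1) ^ k * Lf j (fun x => g (anti j x)) ω (Q ((j : ℝ) + 2) l)) := by
    have hi1 := integrable_Lf j hg hB ω (Q ((j : ℝ) + 2) l)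
    have hi2 : Integrable (fun x : S (j + 2) => (fun x => g (anti j x)) x *
        (((Q ((j : ℝ) + 2) l).eval ⟪(ω : E (j + 2)), (x : E (j + 2))⟫ : ℝ) : ℂ)) (sm (j + 2)) :=
      integrable_Lf j (g := fun x => g (anti j x))
        (hg.comp (measurePreserving_anti j).measurable) (fun x => hB (anti j x)) ω _
    unfold Lf
    rw [← integral_const_mul, ← integral_add hi1 (hi2.const_mul _), ← integral_const_mul]
    refine integral_congr_ae (Eventually.of_forall fun x => ?_)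
    simp only [parity]
    ring
  rw [h2, h1, pow_add]
  ring

/-- bound of the components -/
lemma component_bound (j : ℕ) (hj : 1 ≤ j) {θ c : ℝ} (hθ1 : θ ≤ 1) (hc : 0 < c) (hc1 : c ≤ 1)
    {Λ : Set ℕ} (hΛ : ∀ k ∈ Λ, ∀ l ∈ Λ, k < l → k % 2 = l % 2 →
      c * (1 + (l : ℝ)) ^ θ ≤ (l : ℝ) - k ∧ c * (1 + (k : ℝ)) ^ θ ≤ (l : ℝ) - k) :
    ∃ C : ℝ, 0 < C ∧ ∀ (g : S (j + 2) → ℂ), Measurable g → ∀ B : ℝ, (∀ x, ‖g x‖ ≤ B) →
      (∀ l, l ∉ Λ → ∀ ω, Lf j g ω (Q ((j : ℝ) + 2) l) = 0) → ∀ (ω : S (j + 2)), ∀ k ∈ Λ,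
      ‖(dd j k : ℂ) * Lf j g ω (Q ((j : ℝ) + 2) k)‖ ≤
        B * (C * (1 + (k : ℝ)) ^ ((1 - θ) * (j + 1))) := by
  obtain ⟨C, hC0, hC⟩ := separation j hj
  have hj' : (1 : ℝ) ≤ j := by exact_mod_cast hj
  refine ⟨C * (((1 + (j : ℝ)) * (j + 2) / c) ^ (j + 1)), by positivity,
    fun g hg B hB hz ω k hk => ?_⟩
  have hk0 : (0 : ℝ) ≤ k := Nat.cast_nonneg k
  have hB0 : 0 ≤ B := (norm_nonneg _).trans (hB ω)
  set u : ℝ := c * (1 + (k : ℝ)) ^ θ / (j + 2) with hu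
  have hu0 : 0 < u := by positivity
  have hkθ : (1 + (k : ℝ)) ^ θ ≤ 1 + k := by
    calc (1 + (k : ℝ)) ^ θ ≤ (1 + (k : ℝ)) ^ (1 : ℝ) :=
          Real.rpow_le_rpow_of_exponent_le (by linarith) hθ1
      _ = 1 + k := Real.rpow_one _
  set M : ℕ := ⌈u⌉₊ with hM
  have hM1 : 1 ≤ M := Nat.one_le_iff_ne_zero.2 (by
    rw [hM]
    exact (Nat.ceil_pos.2 hu0).ne')
  have huM : u ≤ M := Nat.le_ceil u
  have hMu : (M : ℝ) < u + 1 := Nat.ceil_lt_add_one hu0.le
  have hMk : M ≤ k + j := by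
    rw [hM, Nat.ceil_le, hu, div_le_iff₀ (by positivity)]
    push_cast
    have h1 : c * (1 + (k : ℝ)) ^ θ ≤ 1 * (1 + k) := by gcongr
    nlinarith
  have hwin : ((j : ℝ) + 2) * ((M : ℝ) - 1) < c * (1 + (k : ℝ)) ^ θ := by
    have h1 : ((M : ℝ) - 1) < u := by linarith
    calc ((j : ℝ) + 2) * ((M : ℝ) - 1) < ((j : ℝ) + 2) * u := by gcongr
      _ = c * (1 + (k : ℝ)) ^ θ := by
        rw [hu]
        field_simp
  have hcast : (((j + 2) * (M - 1) : ℕ) : ℝ) = ((j : ℝ) + 2) * ((M : ℝ) - 1) := by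
    rw [Nat.cast_mul, Nat.cast_sub hM1]
    push_cast
    ring
  have hsep := hC (parity j k g) (parity_measurable j k hg) B (parity_bound j k hB) ω k M hM1 hMk
    (fun l hlk h1 h2 => by
      rw [Lf_parity j hj k l hg hB ω]
      by_cases hpar : k % 2 = l % 2
      · by_cases hl : l ∈ Λ
        · exfalso
          have h1' : (k : ℝ) ≤ l + (((j + 2) * (M - 1) : ℕ) : ℝ) := by exact_mod_cast h1
          have h2' : (l : ℝ) ≤ k + (((j + 2) * (M - 1) : ℕ) : ℝ) := by exact_mod_cast h2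
          rw [hcast] at h1' h2'
          rcases lt_or_gt_of_ne hlk with h | h
          · have := (hΛ l hl k hk h hpar.symm).1
            linarith
          · have := (hΛ k hk l hl h hpar).2
            linarith
        · rw [hz l hl ω, mul_zero]
      · have hodd : Odd (k + l) := by
          rw [Nat.odd_iff]
          omega
        rw [hodd.neg_one_pow]
        simp)
  rw [Lf_parity j hj k k hg hB ω, (show Even (k + k) from ⟨k, rfl⟩).neg_one_pow] at hsep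
  have e1 : ((1 : ℂ) + 1) / 2 * Lf j g ω (Q ((j : ℝ) + 2) k) = Lf j g ω (Q ((j : ℝ) + 2) k) := by
    ring
  rw [e1] at hsep
  refine hsep.trans ?_
  have h3 : ((k : ℝ) + j) / M ≤ ((1 + (j : ℝ)) * (j + 2) / c) * (1 + (k : ℝ)) ^ (1 - θ) := by
    have h4 : ((k : ℝ) + j) / M ≤ ((k : ℝ) + j) / u := by gcongr
    refine h4.trans ?_
    have h5 : (k : ℝ) + j ≤ (1 + j) * (1 + k) := by nlinarith
    have h6 : (1 + (k : ℝ)) ^ (1 - θ) = (1 + k) / (1 + (k : ℝ)) ^ θ := by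
      rw [Real.rpow_sub (by linarith), Real.rpow_one]
    rw [h6]
    calc ((k : ℝ) + j) / u ≤ ((1 + j) * (1 + k)) / u := by gcongr
      _ = _ := by
        rw [hu]
        field_simp
  have hpos : 0 ≤ ((k : ℝ) + j) / M := by positivity
  calc C * B * (((k : ℝ) + j) / M) ^ (j + 1)
      ≤ C * B * (((1 + (j : ℝ)) * (j + 2) / c) * (1 + (k : ℝ)) ^ (1 - θ)) ^ (j + 1) := by gcongr
    _ = _ := by
      rw [mul_pow]
      have h7 : ((1 + (k : ℝ)) ^ (1 - θ)) ^ (j + 1) = (1 + (k : ℝ)) ^ ((1 - θ) * (j + 1)) := by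
        rw [← Real.rpow_natCast, ← Real.rpow_mul (by linarith)]
        push_cast
        rfl
      rw [h7]
      ring

end Pool.Agent.MP_6cbfb8_an.Sparse
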