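import Pool.Agent.MP_6cbfb8_an.Sparse.Leg

/-!
Zonal solid harmonics as polynomials.
-/

namespace Pool.Agent.MP_6cbfb8_an.Sparse

open MvPolynomial

variable {n : ℕ}

/-- the linear form -/
noncomputable def lf (w : Fin n → ℝ) : MvPolynomial (Fin n) ℝ := ∑ i, C (w i) * X i

/-- the square of the norm -/
noncomputable def r2 (n : ℕ) : MvPolynomial (Fin n) ℝ := ∑ i, X i ^ 2

/-- Laplace operator -/
noncomputable def lap (P : MvPolynomial (Fin n) ℝ) : MvPolynomial (Fin n) ℝ :=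
  ∑ i, pderiv i (pderiv i P)

/-- derivative in the direction `w` -/
noncomputable def dw (w : Fin n → ℝ) (P : MvPolynomial (Fin n) ℝ) : MvPolynomial (Fin n) ℝ :=
  ∑ i, C (w i) * pderiv i P

/-- zonal solid harmonics -/
noncomputable def HP (w : Fin n → ℝ) : ℕ → MvPolynomial (Fin n) ℝ
  | 0 => 1
  | 1 => lf w
  | (k + 2) => C (((k : ℝ) + n - 1)⁻¹) *
      (C (2 * (k : ℝ) + n) * (lf w * HP w (k + 1)) - C ((k : ℝ) + 1) * (r2 n * HP w k))

lemma pderiv_lf (w : Fin n → ℝ) (i : Fin n) : pderiv i (lf w) = C (w i) := by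
  unfold lf
  rw [map_sum]
  simp only [pderiv_mul, pderiv_C, zero_mul, zero_add]
  rw [Finset.sum_eq_single i]
  · simp
  · intro b _ hb
    rw [pderiv_X_of_ne hb, mul_zero]
  · simp

lemma pderiv_r2 (i : Fin n) : pderiv i (r2 n) = 2 * X i := by
  unfold r2
  rw [map_sum, Finset.sum_eq_single i]
  · rw [pderiv_pow]
    simp
  · intro b _ hb
    rw [pderiv_pow, pderiv_X_of_ne hb, mul_zero]
  · simp

lemma lap_lf_mul (w : Fin n → ℝ) (P : MvPolynomial (Fin n) ℝ) :
    lap (lf w * P) = lf w * lap P + 2 * dw w P := by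
  unfold lap dw
  rw [Finset.mul_sum, Finset.mul_sum, ← Finset.sum_add_distrib]
  refine Finset.sum_congr rfl fun i _ => ?_
  rw [pderiv_mul, map_add, pderiv_mul, pderiv_mul, pderiv_lf, pderiv_C]
  ring

lemma lap_r2_mul {k : ℕ} {P : MvPolynomial (Fin n) ℝ} (hP : P.IsHomogeneous k) :
    lap (r2 n * P) = r2 n * lap P + (4 * (k : MvPolynomial (Fin n) ℝ) + 2 * (n : MvPolynomial (Fin n) ℝ)) * P := by
  have hE := hP.sum_X_mul_pderiv
  unfold lap
  have h1 : ∀ i, pderiv i (pderiv i (r2 n * P)) = r2 n * pderiv i (pderiv i P) +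
      4 * (X i * pderiv i P) + 2 * P := by
    intro i
    have h2 : pderiv i (2 * X i : MvPolynomial (Fin n) ℝ) = 2 := by
      rw [pderiv_mul, pderiv_X_self]
      have : pderiv i (2 : MvPolynomial (Fin n) ℝ) = 0 := by
        rw [← map_ofNat (C : ℝ →+* MvPolynomial (Fin n) ℝ) 2]
        exact pderiv_C
      rw [this]
      ring
    rw [pderiv_mul, map_add, pderiv_mul, pderiv_mul, pderiv_r2, h2]
    ring
  simp only [h1]
  rw [Finset.sum_add_distrib, Finset.sum_add_distrib, ← Finset.mul_sum, ← Finset.mul_sum, hE]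
  simp only [Finset.sum_const, Finset.card_univ, Fintype.card_fin, nsmul_eq_mul]
  ring

lemma dw_mul (w : Fin n → ℝ) (P R : MvPolynomial (Fin n) ℝ) :
    dw w (P * R) = dw w P * R + P * dw w R := by
  unfold dw
  rw [Finset.sum_mul, Finset.mul_sum, ← Finset.sum_add_distrib]
  refine Finset.sum_congr rfl fun i _ => ?_
  rw [pderiv_mul]
  ring

lemma dw_lf {w : Fin n → ℝ} (hw : ∑ i, w i ^ 2 = 1) : dw w (lf w) = 1 := by
  unfold dw
  simp only [pderiv_lf]
  rw [← C_1, ← hw, map_sum]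
  refine Finset.sum_congr rfl fun i _ => ?_
  rw [pow_two, C_mul]

lemma dw_r2 (w : Fin n → ℝ) : dw w (r2 n) = 2 * lf w := by
  unfold dw lf
  simp only [pderiv_r2]
  rw [Finset.mul_sum]
  refine Finset.sum_congr rfl fun i _ => ?_
  ring

lemma dw_sub (w : Fin n → ℝ) (P R : MvPolynomial (Fin n) ℝ) :
    dw w (P - R) = dw w P - dw w R := by
  unfold dw
  rw [← Finset.sum_sub_distrib]
  refine Finset.sum_congr rfl fun i _ => ?_
  rw [map_sub]
  ring

lemma dw_C_mul (w : Fin n → ℝ) (a : ℝ) (P : MvPolynomial (Fin n) ℝ) :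
    dw w (C a * P) = C a * dw w P := by
  unfold dw
  rw [Finset.mul_sum]
  refine Finset.sum_congr rfl fun i _ => ?_
  rw [pderiv_C_mul]
  ring

lemma lap_sub (P R : MvPolynomial (Fin n) ℝ) : lap (P - R) = lap P - lap R := by
  unfold lap
  rw [← Finset.sum_sub_distrib]
  refine Finset.sum_congr rfl fun i _ => ?_
  rw [map_sub, map_sub]

lemma lap_C_mul (a : ℝ) (P : MvPolynomial (Fin n) ℝ) : lap (C a * P) = C a * lap P := by
  unfold lap
  rw [Finset.mul_sum]
  refine Finset.sum_congr rfl fun i _ => ?_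
  rw [pderiv_C_mul, pderiv_C_mul]

lemma HP_succ (hn : 2 ≤ n) (w : Fin n → ℝ) (k : ℕ) :
    C ((k : ℝ) + n - 1) * HP w (k + 2) =
      C (2 * (k : ℝ) + n) * (lf w * HP w (k + 1)) - C ((k : ℝ) + 1) * (r2 n * HP w k) := by
  have h : ((k : ℝ) + n - 1) ≠ 0 := by
    have h1 : (0 : ℝ) ≤ k := Nat.cast_nonneg k
    have h2 : (2 : ℝ) ≤ n := by exact_mod_cast hn
    intro h
    linarith
  rw [HP, ← mul_assoc, ← C_mul, mul_inv_cancel₀ h, C_1, one_mul]

lemma HP_homogeneous (w : Fin n → ℝ) (k : ℕ) :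
    (HP w k).IsHomogeneous k ∧ (HP w (k + 1)).IsHomogeneous (k + 1) := by
  have hl : (lf w).IsHomogeneous 1 := by
    unfold lf
    refine IsHomogeneous.sum _ _ _ fun i _ => ?_
    have := (isHomogeneous_C (Fin n) (w i)).mul (isHomogeneous_X ℝ i)
    simpa using this
  have hr : (r2 n).IsHomogeneous 2 := by
    unfold r2
    refine IsHomogeneous.sum _ _ _ fun i _ => ?_
    have := (isHomogeneous_X ℝ i).pow 2
    simpa using this
  induction k with
  | zero => exact ⟨isHomogeneous_one _ _, hl⟩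
  | succ k ih =>
    refine ⟨ih.2, ?_⟩
    rw [HP]
    have h1 := (isHomogeneous_C (Fin n) (2 * (k : ℝ) + n)).mul (hl.mul ih.2)
    have h2 := (isHomogeneous_C (Fin n) ((k : ℝ) + 1)).mul (hr.mul ih.1)
    have e1 : 0 + (1 + (k + 1)) = k + 1 + 1 := by ring
    have e2 : 0 + (2 + k) = k + 1 + 1 := by ring
    rw [e1] at h1
    rw [e2] at h2
    have h3 := (isHomogeneous_C (Fin n) (((k : ℝ) + n - 1)⁻¹)).mul (h1.sub h2)
    simpa using h3

lemma HP_inv (hn : 2 ≤ n) {w : Fin n → ℝ} (hw : ∑ i, w i ^ 2 = 1) (k : ℕ) :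
    C ((k : ℝ) + n - 2) * HP w (k + 1) =
      C (2 * (k : ℝ) + n - 2) * (lf w * HP w k) - r2 n * dw w (HP w k) ∧
    dw w (HP w (k + 1)) = C ((k : ℝ) + 1) * HP w k := by
  induction k with
  | zero =>
    constructor
    · have : dw w (1 : MvPolynomial (Fin n) ℝ) = 0 := by
        unfold dw
        simp
      simp [HP, this]
    · simp [HP, dw_lf hw]
  | succ k ih =>
    obtain ⟨h1, h2⟩ := ih
    have hr := HP_succ hn w k
    have hI1 : C (((k + 1 : ℕ) : ℝ) + n - 2) * HP w (k + 1 + 1) =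
      C (2 * ((k + 1 : ℕ) : ℝ) + n - 2) * (lf w * HP w (k + 1)) - r2 n * dw w (HP w (k + 1)) := by
      rw [h2]
      have e1 : ((k + 1 : ℕ) : ℝ) + n - 2 = (k : ℝ) + n - 1 := by push_cast; ring
      have e2 : 2 * ((k + 1 : ℕ) : ℝ) + n - 2 = 2 * (k : ℝ) + n := by push_cast; ring
      rw [e1, e2, show k + 1 + 1 = k + 2 from rfl, hr]
      ring
    refine ⟨hI1, ?_⟩
    have h : ((k : ℝ) + n - 1) ≠ 0 := by
      have h1 : (0 : ℝ) ≤ k := Nat.cast_nonneg k
      have h2 : (2 : ℝ) ≤ n := by exact_mod_cast hn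
      intro h
      linarith
    have hne : (C ((k : ℝ) + n - 1) : MvPolynomial (Fin n) ℝ) ≠ 0 := by
      rw [Ne, C_eq_zero]
      exact h
    apply mul_left_cancel₀ hne
    have h3 := congrArg (dw w) hr
    rw [dw_C_mul, dw_sub, dw_C_mul, dw_C_mul, dw_mul, dw_mul, dw_lf hw, dw_r2, h2] at h3
    rw [show k + 1 + 1 = k + 2 from rfl, h3]
    push_cast
    simp only [C_add, C_sub, C_mul, C_1, map_ofNat] at *
    linear_combination (-(C (k : ℝ) + 1)) * h1

lemma HP_harmonic (hn : 2 ≤ n) {w : Fin n → ℝ} (hw : ∑ i, w i ^ 2 = 1) (k : ℕ) :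
    lap (HP w k) = 0 ∧ lap (HP w (k + 1)) = 0 := by
  induction k with
  | zero =>
    constructor
    · unfold lap
      simp [HP]
    · unfold lap
      simp [HP, pderiv_lf]
  | succ k ih =>
    refine ⟨ih.2, ?_⟩
    have hr := HP_succ hn w k
    have h : ((k : ℝ) + n - 1) ≠ 0 := by
      have h1 : (0 : ℝ) ≤ k := Nat.cast_nonneg k
      have h2 : (2 : ℝ) ≤ n := by exact_mod_cast hn
      intro h
      linarith
    have hne : (C ((k : ℝ) + n - 1) : MvPolynomial (Fin n) ℝ) ≠ 0 := by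
      rw [Ne, C_eq_zero]
      exact h
    apply mul_left_cancel₀ hne
    rw [mul_zero]
    have h3 := congrArg lap hr
    rw [lap_C_mul, lap_sub, lap_C_mul, lap_C_mul, lap_lf_mul,
      lap_r2_mul (HP_homogeneous w k).1, ih.1, ih.2, (HP_inv hn hw k).2] at h3
    rw [show k + 1 + 1 = k + 2 from rfl, h3]
    simp only [C_add, C_mul, C_1, map_ofNat, map_natCast]
    ring

/-- restriction to the sphere -/
lemma eval_HP (w x : Fin n → ℝ) (hx : ∑ i, x i ^ 2 = 1) (k : ℕ) :
    eval x (HP w k) = (Q (n : ℝ) k).eval (∑ i, w i * x i) ∧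
    eval x (HP w (k + 1)) = (Q (n : ℝ) (k + 1)).eval (∑ i, w i * x i) := by
  have hl : eval x (lf w) = ∑ i, w i * x i := by
    unfold lf
    simp
  have hr : eval x (r2 n) = 1 := by
    unfold r2
    simp [hx]
  induction k with
  | zero =>
    constructor
    · simp [HP, Q_zero]
    · rw [zero_add, Q_one, Polynomial.eval_X]
      exact hl
  | succ k ih =>
    refine ⟨ih.2, ?_⟩
    rw [show k + 1 + 1 = k + 2 from rfl, HP, Q]
    simp only [map_mul, map_sub, eval_C, hl, hr, ih.1, ih.2, Polynomial.eval_mul,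
      Polynomial.eval_sub, Polynomial.eval_C, Polynomial.eval_X]
    ring

end Pool.Agent.MP_6cbfb8_an.Sparse
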