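import Mathlib

/-!
Legendre polynomials of dimension `d` (normalised Gegenbauer polynomials): recursion, first
order relations, differential equation, bounds on `[-1, 1]`, spectral localisation.
-/

namespace Pool.Agent.MP_6cbfb8_an.Sparse

open Polynomial

/-- Legendre polynomials of dimension `d`. -/
noncomputable def Q (d : ℝ) : ℕ → ℝ[X]
  | 0 => 1
  | 1 => X
  | (k + 2) => C (((k : ℝ) + d - 1)⁻¹) *
      (C (2 * (k : ℝ) + d) * X * Q d (k + 1) - C ((k : ℝ) + 1) * Q d k)

variable {d : ℝ}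

lemma Q_zero : Q d 0 = 1 := rfl
lemma Q_one : Q d 1 = X := rfl

lemma Q_succ (hd : 2 < d) (k : ℕ) : C ((k : ℝ) + d - 1) * Q d (k + 2) =
    C (2 * (k : ℝ) + d) * X * Q d (k + 1) - C ((k : ℝ) + 1) * Q d k := by
  have h : ((k : ℝ) + d - 1) ≠ 0 := by
    have : (0 : ℝ) ≤ k := Nat.cast_nonneg k
    intro h
    linarith
  rw [Q, ← mul_assoc, ← C_mul, mul_inv_cancel₀ h, C_1, one_mul]

/-- first order relations -/
lemma R12 (hd : 2 < d) (k : ℕ) :
    (1 - X ^ 2) * derivative (Q d (k + 1)) = C ((k : ℝ) + 1) * (Q d k - X * Q d (k + 1)) ∧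
    (1 - X ^ 2) * derivative (Q d k) = C ((k : ℝ) + d - 2) * (X * Q d k - Q d (k + 1)) := by
  induction k with
  | zero =>
    constructor
    · simp [Q_zero, Q_one]
      ring
    · simp [Q_zero, Q_one]
  | succ k ih =>
    obtain ⟨h1, h2⟩ := ih
    have hr := Q_succ hd k
    have hne : (C ((k : ℝ) + d - 1) : ℝ[X]) ≠ 0 := by
      rw [Ne, C_eq_zero]
      have : (0 : ℝ) ≤ k := Nat.cast_nonneg k
      intro h
      linarith
    have hr' := congrArg derivative hr
    simp only [derivative_mul, derivative_C, derivative_sub, derivative_X, zero_mul, zero_add,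
      mul_one] at hr'
    constructor
    · apply mul_left_cancel₀ hne
      have e : C ((k : ℝ) + d - 1) * ((1 - X ^ 2) * derivative (Q d (k + 1 + 1))) =
          (1 - X ^ 2) * (C ((k : ℝ) + d - 1) * derivative (Q d (k + 2))) := by ring
      rw [e, hr']
      push_cast at *
      simp only [C_add, C_sub, C_mul, C_1, map_ofNat] at *
      linear_combination (C (k:ℝ) + 2) * X * hr + (2 * C (k:ℝ) + C d) * X * h1 -
        (C (k:ℝ) + 1) * h2
    · rw [h1]
      push_cast at *
      simp only [C_add, C_sub, C_mul, C_1, map_ofNat] at *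
      linear_combination hr

/-- the differential equation -/
lemma ode (hd : 2 < d) (k : ℕ) :
    (1 - X ^ 2) * derivative (derivative (Q d k)) - C (d - 1) * X * derivative (Q d k) +
      C ((k : ℝ) * (k + d - 2)) * Q d k = 0 := by
  rcases k with _ | k
  · simp [Q_zero]
  · have h1 := (R12 hd k).1
    have h2 := (R12 hd k).2
    have h3 := congrArg derivative h1
    simp only [derivative_mul, derivative_C, derivative_sub, derivative_X, zero_mul, zero_add,
      derivative_one, derivative_X_pow, zero_sub] at h3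
    have hne : (1 - X ^ 2 : ℝ[X]) ≠ 0 := by
      intro h
      have := congrArg (eval 0) h
      simp at this
    apply mul_left_cancel₀ hne
    push_cast at *
    simp only [C_add, C_sub, C_mul, C_1, map_ofNat] at *
    linear_combination (1 - X ^ 2) * h3 - (C (k:ℝ) + 1) * h2 * (-1) -
        (C d + C (k : ℝ) - 2) * X * h1

lemma eval_one (hd : 2 < d) (k : ℕ) : (Q d k).eval 1 = 1 ∧ (Q d (k + 1)).eval 1 = 1 := by
  induction k with
  | zero => simp [Q_zero, Q_one]
  | succ k ih =>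
    refine ⟨ih.2, ?_⟩
    have hr := congrArg (eval 1) (Q_succ hd k)
    simp only [eval_mul, eval_sub, eval_C, eval_X, ih.1, ih.2, mul_one] at hr
    have hne : ((k : ℝ) + d - 1) ≠ 0 := by
      have : (0 : ℝ) ≤ k := Nat.cast_nonneg k
      intro h
      linarith
    have : ((k : ℝ) + d - 1) * (Q d (k + 1 + 1)).eval 1 = ((k : ℝ) + d - 1) * 1 := by
      rw [show k + 1 + 1 = k + 2 from rfl, hr]
      ring
    exact mul_left_cancel₀ hne this

lemma eval_neg (hd : 2 < d) (k : ℕ) (t : ℝ) : (Q d k).eval (-t) = (-1) ^ k * (Q d k).eval t ∧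
    (Q d (k + 1)).eval (-t) = (-1) ^ (k + 1) * (Q d (k + 1)).eval t := by
  induction k with
  | zero => simp [Q_zero, Q_one]
  | succ k ih =>
    refine ⟨ih.2, ?_⟩
    have hr := congrArg (eval (-t)) (Q_succ hd k)
    have hr' := congrArg (eval t) (Q_succ hd k)
    simp only [eval_mul, eval_sub, eval_C, eval_X, ih.1, ih.2] at hr hr'
    have hne : ((k : ℝ) + d - 1) ≠ 0 := by
      have : (0 : ℝ) ≤ k := Nat.cast_nonneg k
      intro h
      linarith
    have : ((k : ℝ) + d - 1) * (Q d (k + 1 + 1)).eval (-t) =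
        ((k : ℝ) + d - 1) * ((-1) ^ (k + 1 + 1) * (Q d (k + 1 + 1)).eval t) := by
      rw [show k + 1 + 1 = k + 2 from rfl, hr]
      have e : ((k : ℝ) + d - 1) * ((-1) ^ (k + 2) * (Q d (k + 2)).eval t) =
        (-1) ^ (k + 2) * (((k : ℝ) + d - 1) * (Q d (k + 2)).eval t) := by ring
      rw [e, hr']
      ring
    exact mul_left_cancel₀ hne this

/-- the energy -/
noncomputable def En (d : ℝ) (k : ℕ) : ℝ[X] :=
  C ((k : ℝ) * (k + d - 2)) * Q d k ^ 2 + (1 - X ^ 2) * derivative (Q d k) ^ 2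

lemma deriv_En (hd : 2 < d) (k : ℕ) :
    derivative (En d k) = C (2 * (d - 2)) * X * derivative (Q d k) ^ 2 := by
  have h := ode hd k
  simp only [En, sq, derivative_add, derivative_mul, derivative_C, derivative_sub, derivative_X,
    derivative_one, zero_mul, zero_add, zero_sub, one_mul, mul_one]
  simp only [C_add, C_sub, C_mul, C_1, map_ofNat] at *
  linear_combination (2 * derivative (Q d k)) * h

lemma energy (hd : 2 < d) (k : ℕ) {t : ℝ} (ht : t ∈ Set.Icc (-1 : ℝ) 1) :
    (k : ℝ) * (k + d - 2) * ((Q d k).eval t) ^ 2 + (1 - t ^ 2) * ((derivative (Q d k)).eval t) ^ 2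
      ≤ (k : ℝ) * (k + d - 2) := by
  have hmono : MonotoneOn (fun t : ℝ => (En d k).eval t) (Set.Ici 0) := by
    apply monotoneOn_of_deriv_nonneg (convex_Ici 0) (Polynomial.continuous _).continuousOn
      (Polynomial.differentiable _).differentiableOn
    intro x hx
    rw [interior_Ici] at hx
    rw [Polynomial.deriv, deriv_En hd]
    simp only [eval_mul, eval_C, eval_X, eval_pow]
    have hx0 : (0 : ℝ) < x := hx
    have : 0 < d - 2 := by linarith
    positivity
  have key : ∀ t ∈ Set.Icc (0 : ℝ) 1, (En d k).eval t ≤ (k : ℝ) * (k + d - 2) := by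
    intro t ht
    have h := hmono (Set.mem_Ici.2 ht.1) (Set.mem_Ici.2 zero_le_one) ht.2
    refine h.trans ?_
    simp [En, (eval_one hd k).1]
  have e : ∀ t : ℝ, (En d k).eval t = (k : ℝ) * (k + d - 2) * ((Q d k).eval t) ^ 2 +
      (1 - t ^ 2) * ((derivative (Q d k)).eval t) ^ 2 := by
    intro t
    simp [En]
  have hder : ∀ t : ℝ, (derivative (Q d k)).eval (-t) ^ 2 = (derivative (Q d k)).eval t ^ 2 := by
    intro t
    have h1 : (fun t : ℝ => (Q d k).eval (-t)) = fun t => (-1) ^ k * (Q d k).eval t := by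
      funext t
      exact (eval_neg hd k t).1
    have h2 : HasDerivAt (fun t : ℝ => (Q d k).eval (-t)) (-(derivative (Q d k)).eval (-t)) t := by
      have := (Polynomial.hasDerivAt (Q d k) (-t)).comp t (hasDerivAt_neg t)
      rw [mul_neg_one] at this
      exact this
    have h3 : HasDerivAt (fun t : ℝ => (-1 : ℝ) ^ k * (Q d k).eval t)
        ((-1) ^ k * (derivative (Q d k)).eval t) t :=
      (Polynomial.hasDerivAt (Q d k) t).const_mul _
    rw [h1] at h2
    have h4 := h2.unique h3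
    have h5 : (derivative (Q d k)).eval (-t) ^ 2 = (-(derivative (Q d k)).eval (-t)) ^ 2 := by ring
    rw [h5, h4, mul_pow, ← pow_mul, mul_comm k 2, pow_mul]
    simp
  rcases le_total 0 t with h0 | h0
  · rw [← e]
    exact key t ⟨h0, ht.2⟩
  · have h1 := key (-t) ⟨by linarith, by linarith [ht.1]⟩
    rw [e, (eval_neg hd k t).1, hder] at h1
    have : ((-1 : ℝ) ^ k * (Q d k).eval t) ^ 2 = (Q d k).eval t ^ 2 := by
      rw [mul_pow, ← pow_mul, mul_comm k 2, pow_mul]
      simp
    rw [this] at h1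
    have h2 : (-t) ^ 2 = t ^ 2 := by ring
    rwa [h2] at h1

lemma abs_le_one (hd : 2 < d) (k : ℕ) {t : ℝ} (ht : t ∈ Set.Icc (-1 : ℝ) 1) :
    |(Q d k).eval t| ≤ 1 := by
  rcases k with _ | k
  · simp [Q_zero]
  · have h := energy hd (k + 1) ht
    have hμ : 0 < (((k + 1 : ℕ) : ℝ)) * (((k + 1 : ℕ) : ℝ) + d - 2) := by
      have : (0 : ℝ) ≤ k := Nat.cast_nonneg k
      push_cast
      have h1 : 0 < (k : ℝ) + 1 := by positivity
      have h2 : 0 < (k : ℝ) + 1 + d - 2 := by linarith
      positivity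
    have h1 : 0 ≤ (1 - t ^ 2) * ((derivative (Q d (k + 1))).eval t) ^ 2 := by
      have : 0 ≤ 1 - t ^ 2 := by nlinarith [ht.1, ht.2]
      positivity
    have h2 : ((Q d (k + 1)).eval t) ^ 2 ≤ 1 := by
      by_contra hc
      push Not at hc
      nlinarith
    exact (sq_le_one_iff_abs_le_one _).1 h2

lemma lower (hd : 2 < d) (k : ℕ) {θ : ℝ} (hθ : 0 ≤ θ) :
    1 - Real.sqrt ((k : ℝ) * (k + d - 2)) * θ ≤ (Q d k).eval (Real.cos θ) := by
  set μ : ℝ := (k : ℝ) * (k + d - 2) with hμ
  have hμ0 : 0 ≤ μ := by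
    have h1 : (0 : ℝ) ≤ k := Nat.cast_nonneg k
    have h2 : 0 ≤ (k : ℝ) + d - 2 := by linarith
    positivity
  have hder : ∀ x : ℝ, HasDerivAt (fun x : ℝ => (Q d k).eval (Real.cos x))
      ((derivative (Q d k)).eval (Real.cos x) * (-Real.sin x)) x := by
    intro x
    exact (Polynomial.hasDerivAt (Q d k) (Real.cos x)).comp x (Real.hasDerivAt_cos x)
  have hb : ∀ x : ℝ, ‖(derivative (Q d k)).eval (Real.cos x) * (-Real.sin x)‖ ≤ Real.sqrt μ := by
    intro x
    apply Real.le_sqrt_of_sq_le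
    rw [Real.norm_eq_abs, sq_abs]
    have h := energy hd k (t := Real.cos x) ⟨Real.neg_one_le_cos x, Real.cos_le_one x⟩
    have h1 : 1 - Real.cos x ^ 2 = Real.sin x ^ 2 := by
      linarith [Real.sin_sq_add_cos_sq x]
    rw [h1] at h
    have h2 : 0 ≤ μ * ((Q d k).eval (Real.cos x)) ^ 2 := by positivity
    nlinarith
  have h := Convex.norm_image_sub_le_of_norm_hasDerivWithin_le (f := fun x : ℝ =>
    (Q d k).eval (Real.cos x)) (s := Set.univ) (x := 0) (y := θ) (C := Real.sqrt μ)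
    (fun x _ => (hder x).hasDerivWithinAt) (fun x _ => hb x) convex_univ (Set.mem_univ _)
    (Set.mem_univ _)
  simp only [Real.cos_zero, (eval_one hd k).1, sub_zero, Real.norm_eq_abs, abs_of_nonneg hθ] at h
  have := neg_le_of_abs_le h
  linarith

/-! ### Localisation of the spectrum -/

/-- span of the Legendre polynomials of degree within `m` of `k` -/
noncomputable def W (d : ℝ) (k m : ℕ) : Submodule ℝ ℝ[X] :=
  Submodule.span ℝ {P | ∃ l, k ≤ l + m ∧ l ≤ k + m ∧ P = Q d l}

lemma Q_mem_W {k l m : ℕ} (h1 : k ≤ l + m) (h2 : l ≤ k + m) : Q d l ∈ W d k m :=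
  Submodule.subset_span ⟨l, h1, h2, rfl⟩

lemma W_mono (k : ℕ) {m m' : ℕ} (h : m ≤ m') : W d k m ≤ W d k m' := by
  apply Submodule.span_mono
  rintro P ⟨l, h1, h2, rfl⟩
  exact ⟨l, by omega, by omega, rfl⟩

lemma X_mul_Q (hd : 2 < d) (l : ℕ) : X * Q d (l + 1) =
    (((l : ℝ) + d - 1) / (2 * l + d)) • Q d (l + 2) + (((l : ℝ) + 1) / (2 * l + d)) • Q d l := by
  have h := Q_succ hd l
  have hne : (2 * (l : ℝ) + d) ≠ 0 := by
    have : (0 : ℝ) ≤ l := Nat.cast_nonneg l
    intro h
    linarith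
  have hne' : (C (2 * (l : ℝ) + d) : ℝ[X]) ≠ 0 := by rwa [Ne, C_eq_zero]
  apply mul_left_cancel₀ hne'
  rw [smul_eq_C_mul, smul_eq_C_mul, mul_add, ← mul_assoc, ← mul_assoc, ← mul_assoc, ← C_mul,
    ← C_mul, mul_div_cancel₀ _ hne, mul_div_cancel₀ _ hne]
  linear_combination -h

lemma X_mul_mem (hd : 2 < d) {k m : ℕ} {P : ℝ[X]} (hP : P ∈ W d k m) : X * P ∈ W d k (m + 1) := by
  unfold W at hP
  induction hP using Submodule.span_induction with
  | mem P hP =>
    obtain ⟨l, h1, h2, rfl⟩ := hP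
    rcases l with _ | l
    · rw [Q_zero, mul_one, ← Q_one (d := d)]
      exact Q_mem_W (by omega) (by omega)
    · rw [X_mul_Q hd]
      exact Submodule.add_mem _ (Submodule.smul_mem _ _ (Q_mem_W (by omega) (by omega)))
        (Submodule.smul_mem _ _ (Q_mem_W (by omega) (by omega)))
  | zero => simp
  | add x y _ _ hx hy =>
    rw [mul_add]
    exact Submodule.add_mem _ hx hy
  | smul a x _ hx =>
    rw [mul_smul_comm]
    exact Submodule.smul_mem _ _ hx

lemma X_pow_mul_mem (hd : 2 < d) (k i : ℕ) : X ^ i * Q d k ∈ W d k i := by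
  induction i with
  | zero =>
    rw [pow_zero, one_mul]
    exact Q_mem_W (by omega) (by omega)
  | succ i ih =>
    rw [pow_succ', mul_assoc]
    exact X_mul_mem hd ih

lemma mul_mem (hd : 2 < d) (k m : ℕ) (J : ℝ[X]) (hJ : J.natDegree ≤ m) :
    J * Q d k ∈ W d k m := by
  rw [J.as_sum_range' (m + 1) (by omega), Finset.sum_mul]
  refine Submodule.sum_mem _ fun i hi => ?_
  rw [← C_mul_X_pow_eq_monomial, mul_assoc, ← smul_eq_C_mul]
  exact Submodule.smul_mem _ _ (W_mono k (by simpa [Nat.lt_succ_iff] using hi)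
    (X_pow_mul_mem hd k i))

lemma transfer (hd : 2 < d) (k m : ℕ) (J : ℝ[X]) (hJ : J.natDegree ≤ m)
    (L : ℝ[X] →ₗ[ℝ] ℂ) (B : ℝ[X] →ₗ[ℝ] ℝ)
    (hL : ∀ l, l ≠ k → k ≤ l + m → l ≤ k + m → L (Q d l) = 0)
    (hB : ∀ l, l ≠ k → B (Q d l) = 0) :
    L (J * Q d k) * (B (Q d k) : ℂ) = L (Q d k) * (B (J * Q d k) : ℂ) := by
  have h := mul_mem hd k m J hJ
  generalize J * Q d k = P at h
  unfold W at h
  induction h using Submodule.span_induction with
  | mem P hP =>
    obtain ⟨l, h1, h2, rfl⟩ := hP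
    by_cases hl : l = k
    · rw [hl]
    · rw [hL l hl h1 h2, hB l hl]
      simp
  | zero => simp
  | add x y _ _ hx hy =>
    rw [map_add, map_add, add_mul, hx, hy, Complex.ofReal_add, mul_add]
  | smul a x _ hx =>
    rw [map_smul, map_smul, smul_mul_assoc, hx]
    simp only [smul_eq_mul, Complex.ofReal_mul, Complex.real_smul]
    ring

end Pool.Agent.MP_6cbfb8_an.Sparse
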