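import Pool.Agent.MP_6cbfb8_an.Sparse.Final

/-!
Densities with sparse spectrum: assembly.
-/

namespace Pool.Agent.MP_6cbfb8_an.Sparse

open MeasureTheory Set Filter Topology
open scoped ENNReal Real RealInnerProductSpace

/-- the gap condition, seen from the larger element -/
lemma gap_symm {θ c k l : ℝ} (hθ0 : 0 ≤ θ) (hθ1 : θ ≤ 1) (hc : 0 < c) (hc1 : c ≤ 1) (hk : 0 ≤ k)
    (hkl : k < l) (h : c * (1 + k) ^ θ ≤ l - k) : c / 2 * (1 + l) ^ θ ≤ l - k := by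
  rcases le_or_gt l (2 * k + 1) with h1 | h1
  · have h2 : (1 + l) ^ θ ≤ 2 * (1 + k) ^ θ := by
      calc (1 + l) ^ θ ≤ (2 * (1 + k)) ^ θ :=
            Real.rpow_le_rpow (by linarith) (by linarith) hθ0
        _ = 2 ^ θ * (1 + k) ^ θ := Real.mul_rpow (by norm_num) (by linarith)
        _ ≤ 2 ^ (1 : ℝ) * (1 + k) ^ θ := by
            gcongr
            norm_num
        _ = 2 * (1 + k) ^ θ := by rw [Real.rpow_one]
    calc c / 2 * (1 + l) ^ θ ≤ c / 2 * (2 * (1 + k) ^ θ) := by gcongr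
      _ = c * (1 + k) ^ θ := by ring
      _ ≤ l - k := h
  · have h2 : (1 + l) ^ θ ≤ 1 + l := by
      calc (1 + l) ^ θ ≤ (1 + l) ^ (1 : ℝ) :=
            Real.rpow_le_rpow_of_exponent_le (by linarith) hθ1
        _ = 1 + l := Real.rpow_one _
    have h3 : 0 ≤ (1 + l) ^ θ := Real.rpow_nonneg (by linarith) _
    calc c / 2 * (1 + l) ^ θ ≤ 1 / 2 * (1 + l) := by gcongr
      _ ≤ l - k := by linarith

lemma sum_finite {Λ : Set ℕ} {c θ η : ℝ} (hc : 0 < c) (hθ : θ ≤ 1) (hη : 1 < η + θ)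
    (hΛ : ∀ k ∈ Λ, ∀ l ∈ Λ, k < l → k % 2 = l % 2 → c * (1 + (k : ℝ)) ^ θ ≤ (l : ℝ) - k) :
    ∑' k : Λ, ENNReal.ofReal ((1 + ((k : ℕ) : ℝ)) ^ (-η)) < ∞ := by
  set f : ℕ → ℝ≥0∞ := fun k => ENNReal.ofReal ((1 + (k : ℝ)) ^ (-η)) with hf
  have h0 : ∀ r : ℕ, ∑' k : (Λ ∩ {k | k % 2 = r} : Set ℕ), f k < ∞ := by
    intro r
    refine sparse_sum hc hθ hη fun k hk l hl hkl => ?_
    exact hΛ k hk.1 l hl.1 hkl (hk.2.trans hl.2.symm)
  have h1 : Λ = (Λ ∩ {k | k % 2 = 0}) ∪ (Λ ∩ {k | k % 2 = 1}) := by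
    ext k
    simp only [mem_union, mem_inter_iff, mem_ofPred_eq]
    have := Nat.mod_two_eq_zero_or_one k
    tauto
  have h2 : ∑' k : Λ, f k ≤ ∑' k : (Λ ∩ {k | k % 2 = 0} : Set ℕ), f k +
      ∑' k : (Λ ∩ {k | k % 2 = 1} : Set ℕ), f k := by
    conv_lhs => rw [h1]
    exact ENNReal.tsum_union_le f _ _
  exact lt_of_le_of_lt h2 (ENNReal.add_lt_top.2 ⟨h0 0, h0 1⟩)

/-- the result for exponents near the critical one -/
theorem main_aux (j : ℕ) (hj : 1 ≤ j) {p θ c : ℝ} (hp2 : 2 < p) (hp4 : p < 4)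
    (hγ1 : 1 < ((j : ℝ) + 1) * (p / 2 - 1)) (hγ3 : ((j : ℝ) + 1) * (p / 2 - 1) ≤ 3)
    (hθ0 : 0 ≤ θ) (hθ1 : θ ≤ 1) (hc : 0 < c) (hc1 : c ≤ 1)
    (hθ : (1 - θ) * (j + 2) < (((j : ℝ) + 1) * (p / 2 - 1) - 1) / p)
    {Λ : Set ℕ} (hΛ : ∀ k ∈ Λ, ∀ l ∈ Λ, k < l → k % 2 = l % 2 →
      c * (1 + (k : ℝ)) ^ θ ≤ (l : ℝ) - k) :
    ∃ Φ : ℝ → ℝ≥0∞, Measurable Φ ∧ ∫⁻ ξ : E (j + 2), Φ ‖ξ‖ ^ p < ∞ ∧
      ∀ (g : S (j + 2) → ℂ) (B : ℝ), Measurable g → (∀ x, ‖g x‖ ≤ B) →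
      (∀ l, l ∉ Λ → ∀ ω, Lf j g ω (Q ((j : ℝ) + 2) l) = 0) → ∀ ξ : E (j + 2),
      ‖∫ x : S (j + 2), g x * Complex.exp (((-(2 * π * ⟪(x : E (j + 2)), ξ⟫) : ℝ) : ℂ) *
        Complex.I) ∂(sm (j + 2))‖ₑ ≤ ENNReal.ofReal B * Φ ‖ξ‖ := by
  classical
  have hΛ' : ∀ k ∈ Λ, ∀ l ∈ Λ, k < l → k % 2 = l % 2 →
      c / 2 * (1 + (l : ℝ)) ^ θ ≤ (l : ℝ) - k ∧ c / 2 * (1 + (k : ℝ)) ^ θ ≤ (l : ℝ) - k := by
    intro k hk l hl hkl hpar
    have h := hΛ k hk l hl hkl hpar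
    have hkl' : (k : ℝ) < l := by exact_mod_cast hkl
    refine ⟨gap_symm hθ0 hθ1 hc hc1 (Nat.cast_nonneg k) hkl' h, le_trans ?_ h⟩
    have : (0 : ℝ) ≤ (1 + (k : ℝ)) ^ θ := by positivity
    nlinarith
  obtain ⟨C1, hC1, h1⟩ := component_bound j hj hθ1 (half_pos hc) (by linarith) hΛ'
  obtain ⟨C2, hC2, h2⟩ := radial_Lp j hj hp2 hp4 hγ1 hγ3
  set a : ℕ → ℝ≥0∞ := fun k => if k ∈ Λ then
    ENNReal.ofReal (C1 * (1 + (k : ℝ)) ^ ((1 - θ) * (j + 1))) else 0 with ha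
  set F : ℕ → ℝ → ℝ≥0∞ := fun k r => a k * ENNReal.ofReal |jb j k (2 * π * r)| with hF
  have hFm : ∀ k, Measurable (F k) := by
    intro k
    have := (continuous_jb j k).comp (continuous_const.mul continuous_id : Continuous
      fun r : ℝ => 2 * π * r)
    exact (ENNReal.measurable_ofReal.comp this.abs.measurable).const_mul _
  have hp0 : 0 < p := by linarith
  refine ⟨fun r => ∑' k, F k r, Measurable.tsum hFm, ?_, ?_⟩
  · have hmink := minkowski (μ := (volume : Measure (E (j + 2)))) (f := fun k ξ => F k ‖ξ‖)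
      (fun k => (hFm k).comp measurable_norm) (p := p) (by linarith)
    have hterm : ∀ k, (∫⁻ ξ : E (j + 2), F k ‖ξ‖ ^ p) ^ (1 / p) ≤
        if k ∈ Λ then ENNReal.ofReal (C1 * C2) * ENNReal.ofReal ((1 + (k : ℝ)) ^
          (-((((j : ℝ) + 1) * (p / 2 - 1) - 1) / p - (1 - θ) * (j + 1)))) else 0 := by
      intro k
      have e1 : ∀ ξ : E (j + 2), F k ‖ξ‖ ^ p =
          a k ^ p * ENNReal.ofReal |jb j k (2 * π * ‖ξ‖)| ^ p := fun ξ => by
        simp only [hF]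
        rw [ENNReal.mul_rpow_of_nonneg _ _ hp0.le]
      simp only [e1]
      have hane : a k ^ p ≠ ∞ := by
        simp only [ha]
        split_ifs
        · exact ENNReal.rpow_ne_top_of_nonneg hp0.le ENNReal.ofReal_ne_top
        · simp [ENNReal.zero_rpow_of_pos hp0]
      rw [lintegral_const_mul' _ _ hane, ENNReal.mul_rpow_of_nonneg _ _ (by positivity),
        ← ENNReal.rpow_mul, mul_one_div_cancel hp0.ne', ENNReal.rpow_one]
      simp only [ha]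
      split_ifs with hk
      · have hk0 : (0 : ℝ) < 1 + (k : ℝ) := by positivity
        calc ENNReal.ofReal (C1 * (1 + (k : ℝ)) ^ ((1 - θ) * (j + 1))) *
              (∫⁻ ξ : E (j + 2), ENNReal.ofReal |jb j k (2 * π * ‖ξ‖)| ^ p) ^ (1 / p)
            ≤ ENNReal.ofReal (C1 * (1 + (k : ℝ)) ^ ((1 - θ) * (j + 1))) *
              ENNReal.ofReal (C2 * ((k : ℝ) + 1) ^ ((1 - ((j : ℝ) + 1) * (p / 2 - 1)) / p)) := by
              gcongr
              exact h2 k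
          _ = _ := by
              rw [← ENNReal.ofReal_mul (by positivity), ← ENNReal.ofReal_mul (by positivity)]
              congr 1
              have e2 : -((((j : ℝ) + 1) * (p / 2 - 1) - 1) / p - (1 - θ) * (j + 1)) =
                  (1 - θ) * (j + 1) + (1 - ((j : ℝ) + 1) * (p / 2 - 1)) / p := by ring
              rw [e2, Real.rpow_add hk0, add_comm (k : ℝ) 1]
              ring
      · simp
    have hsum : ∑' k : ℕ, (if k ∈ Λ then ENNReal.ofReal (C1 * C2) *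
        ENNReal.ofReal ((1 + (k : ℝ)) ^
          (-((((j : ℝ) + 1) * (p / 2 - 1) - 1) / p - (1 - θ) * (j + 1)))) else 0) < ∞ := by
      have e3 : ∀ k : ℕ, (if k ∈ Λ then ENNReal.ofReal (C1 * C2) *
          ENNReal.ofReal ((1 + (k : ℝ)) ^
            (-((((j : ℝ) + 1) * (p / 2 - 1) - 1) / p - (1 - θ) * (j + 1)))) else 0) =
          ENNReal.ofReal (C1 * C2) * Λ.indicator (fun k : ℕ => ENNReal.ofReal ((1 + (k : ℝ)) ^
            (-((((j : ℝ) + 1) * (p / 2 - 1) - 1) / p - (1 - θ) * (j + 1))))) k := by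
        intro k
        by_cases hk : k ∈ Λ
        · rw [if_pos hk, indicator_of_mem hk]
        · rw [if_neg hk, indicator_of_notMem hk, mul_zero]
      simp only [e3]
      rw [ENNReal.tsum_mul_left, ← tsum_subtype]
      refine ENNReal.mul_lt_top ENNReal.ofReal_lt_top (sum_finite hc hθ1 ?_ hΛ)
      linarith
    have hfin := lt_of_le_of_lt (hmink.trans (ENNReal.tsum_le_tsum hterm)) hsum
    by_contra hcon
    rw [not_lt, top_le_iff] at hcon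
    rw [hcon, ENNReal.top_rpow_of_pos (by positivity)] at hfin
    exact absurd hfin (lt_irrefl _)
  · intro g B hg hB hz ξ
    refine ext_bound j hj hg hB a (fun k ω => ?_) ξ
    have hB0 : 0 ≤ B := (norm_nonneg _).trans (hB ω)
    by_cases hk : k ∈ Λ
    · simp only [ha]
      rw [if_pos hk, ← ENNReal.ofReal_mul hB0]
      exact ENNReal.ofReal_le_ofReal (h1 g hg B hB hz ω k hk)
    · rw [hz k hk ω]
      simp

end Pool.Agent.MP_6cbfb8_an.Sparse
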