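import Mathlib

/-!
The differential system `W' = (κ/s) W - V`, `V' = W - (κ/s) V` on `(0, ∞)`.
-/

namespace Pool.Agent.MP_6cbfb8_an.Sparse

open Set Filter Topology
open scoped Real

/-- the system -/
structure Sys (κ : ℝ) (W V : ℝ → ℝ) : Prop where
  hW : ∀ s, 0 < s → HasDerivAt W (κ / s * W s - V s) s
  hV : ∀ s, 0 < s → HasDerivAt V (W s - κ / s * V s) s

/-- derivative of `W` -/
noncomputable def Wp (κ : ℝ) (W V : ℝ → ℝ) (s : ℝ) : ℝ := κ / s * W s - V s

/-- energy -/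
noncomputable def T (κ : ℝ) (W V : ℝ → ℝ) (s : ℝ) : ℝ :=
  (1 - κ * (κ - 1) / s ^ 2) * W s ^ 2 + Wp κ W V s ^ 2

variable {κ : ℝ} {W V : ℝ → ℝ}

lemma Sys.hasDerivAt_Wp (h : Sys κ W V) {s : ℝ} (hs : 0 < s) :
    HasDerivAt (Wp κ W V) ((κ * (κ - 1) / s ^ 2 - 1) * W s) s := by
  have h1 : HasDerivAt (fun s : ℝ => κ / s) (-κ / s ^ 2) s := by
    have := (hasDerivAt_inv hs.ne').const_mul κ
    refine (this.congr_deriv ?_).congr_of_eventuallyEq ?_
    · field_simp
    · exact Eventually.of_forall fun x => div_eq_mul_inv _ _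
  have h2 := (h1.fun_mul (h.hW s hs)).fun_sub (h.hV s hs)
  refine h2.congr_deriv ?_
  field_simp
  ring

lemma Sys.hasDerivAt_T (h : Sys κ W V) {s : ℝ} (hs : 0 < s) :
    HasDerivAt (T κ W V) (2 * (κ * (κ - 1)) / s ^ 3 * W s ^ 2) s := by
  have h1 : HasDerivAt (fun s : ℝ => 1 - κ * (κ - 1) / s ^ 2) (2 * (κ * (κ - 1)) / s ^ 3) s := by
    have := (((hasDerivAt_pow 2 s).inv (pow_ne_zero 2 hs.ne')).const_mul (κ * (κ - 1))).const_sub 1
    refine (this.congr_deriv ?_).congr_of_eventuallyEq ?_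
    · push_cast
      field_simp
    · exact Eventually.of_forall fun x => by
        simp [div_eq_mul_inv]
  have h2 := (h1.fun_mul ((h.hW s hs).fun_pow 2)).fun_add ((h.hasDerivAt_Wp hs).fun_pow 2)
  refine h2.congr_deriv ?_
  simp only [Wp]
  push_cast
  field_simp
  ring

lemma Sys.T_mono (h : Sys κ W V) (hκ : 1 ≤ κ) : MonotoneOn (T κ W V) (Ioi 0) := by
  apply monotoneOn_of_deriv_nonneg (convex_Ioi 0)
  · intro s hs
    exact (h.hasDerivAt_T hs).continuousAt.continuousWithinAt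
  · intro s hs
    rw [interior_Ioi] at hs
    exact (h.hasDerivAt_T hs).differentiableAt.differentiableWithinAt
  · intro s hs
    rw [interior_Ioi] at hs
    rw [(h.hasDerivAt_T hs).deriv]
    have : 0 ≤ κ - 1 := by linarith
    have hs' : 0 < s := hs
    positivity

lemma Sys.T_le (h : Sys κ W V) (hκ : 1 ≤ κ) {a : ℝ} (ha : Tendsto (T κ W V) atTop (𝓝 a)) {s : ℝ}
    (hs : 0 < s) : T κ W V s ≤ a := by
  apply ge_of_tendsto ha
  filter_upwards [eventually_ge_atTop s] with u hu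
  exact h.T_mono hκ hs (lt_of_lt_of_le hs hu) hu

/-- `T / q` is decreasing beyond the turning point -/
lemma Sys.Tq_anti (h : Sys κ W V) (hκ : 1 ≤ κ) {s₁ : ℝ} (hs₁ : 0 < s₁)
    (hq : κ * (κ - 1) < s₁ ^ 2) :
    AntitoneOn (fun s => T κ W V s / (1 - κ * (κ - 1) / s ^ 2)) (Ici s₁) := by
  have hpos : ∀ s, s₁ ≤ s → 0 < 1 - κ * (κ - 1) / s ^ 2 := by
    intro s hs
    have hs0 : 0 < s := hs₁.trans_le hs
    rw [sub_pos, div_lt_one (by positivity)]
    nlinarith
  have hβ : 0 ≤ κ * (κ - 1) := mul_nonneg (by linarith) (by linarith)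
  have hder : ∀ s, s₁ ≤ s → HasDerivAt (fun s => T κ W V s / (1 - κ * (κ - 1) / s ^ 2))
      (-(2 * (κ * (κ - 1)) / s ^ 3 * Wp κ W V s ^ 2 / (1 - κ * (κ - 1) / s ^ 2) ^ 2)) s := by
    intro s hs
    have hs0 : 0 < s := hs₁.trans_le hs
    have h1 : HasDerivAt (fun s : ℝ => 1 - κ * (κ - 1) / s ^ 2) (2 * (κ * (κ - 1)) / s ^ 3) s := by
      have := (((hasDerivAt_pow 2 s).inv (pow_ne_zero 2 hs0.ne')).const_mul
        (κ * (κ - 1))).const_sub 1
      refine (this.congr_deriv ?_).congr_of_eventuallyEq ?_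
      · push_cast
        field_simp
      · exact Eventually.of_forall fun x => by
          simp [div_eq_mul_inv]
    have h2 := (h.hasDerivAt_T hs0).fun_div h1 (hpos s hs).ne'
    refine h2.congr_deriv ?_
    have h3 := (hpos s hs).ne'
    set q := 1 - κ * (κ - 1) / s ^ 2 with hqdef
    have hT : T κ W V s = q * W s ^ 2 + Wp κ W V s ^ 2 := rfl
    rw [hT]
    field_simp
    ring
  apply antitoneOn_of_deriv_nonpos (convex_Ici s₁)
  · intro s hs
    exact (hder s hs).continuousAt.continuousWithinAt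
  · intro s hs
    rw [interior_Ici] at hs
    exact (hder s hs.le).differentiableAt.differentiableWithinAt
  · intro s hs
    rw [interior_Ici] at hs
    rw [(hder s hs.le).deriv]
    have hs0 : 0 < s := hs₁.trans hs
    have := hpos s hs.le
    rw [neg_nonpos]
    positivity

/-- the energy converges at infinity -/
lemma Sys.exists_tendsto (h : Sys κ W V) (hκ : 1 ≤ κ) :
    ∃ a : ℝ, Tendsto (T κ W V) atTop (𝓝 a) := by
  have hβ : 0 ≤ κ * (κ - 1) := mul_nonneg (by linarith) (by linarith)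
  set s₁ : ℝ := κ * (κ - 1) + 1 with hs1
  have hs₁ : 0 < s₁ := by linarith
  have hq : κ * (κ - 1) < s₁ ^ 2 := by nlinarith
  have hanti := h.Tq_anti hκ hs₁ hq
  have hmono := h.T_mono hκ
  have hpos : ∀ s, s₁ ≤ s → 0 < 1 - κ * (κ - 1) / s ^ 2 := by
    intro s hs
    have hs0 : 0 < s := hs₁.trans_le hs
    rw [sub_pos, div_lt_one (by positivity)]
    nlinarith
  set f : ℝ → ℝ := fun s => T κ W V (max s s₁) with hf
  have hfm : Monotone f := by
    intro x y hxy
    exact hmono (lt_of_lt_of_le hs₁ (le_max_right _ _)) (lt_of_lt_of_le hs₁ (le_max_right _ _))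
      (max_le_max_right _ hxy)
  have hfb : BddAbove (range f) := by
    refine ⟨T κ W V s₁ / (1 - κ * (κ - 1) / s₁ ^ 2), ?_⟩
    rintro _ ⟨x, rfl⟩
    have hx : s₁ ≤ max x s₁ := le_max_right _ _
    have h1 := hanti (mem_Ici.2 le_rfl) (mem_Ici.2 hx) hx
    simp only at h1
    refine le_trans ?_ h1
    have h2 := hpos _ hx
    have hx0 : 0 < max x s₁ := hs₁.trans_le hx
    have h3 : 1 - κ * (κ - 1) / (max x s₁) ^ 2 ≤ 1 := by
      have : 0 ≤ κ * (κ - 1) / (max x s₁) ^ 2 := by positivity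
      linarith
    have hT0 : 0 ≤ T κ W V (max x s₁) := by
      unfold T
      have := sq_nonneg (W (max x s₁))
      have := sq_nonneg (Wp κ W V (max x s₁))
      positivity
    rw [hf, le_div_iff₀ h2]
    exact mul_le_of_le_one_right hT0 h3
  refine ⟨_, (tendsto_atTop_ciSup hfm hfb).congr' ?_⟩
  filter_upwards [eventually_ge_atTop s₁] with s hs
  simp [hf, hs]

/-- consecutive systems have the same limit energy -/
lemma tendsto_next {U : ℝ → ℝ} (h : Sys κ W V) (hκ : 1 ≤ κ) {a : ℝ}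
    (ha : Tendsto (T κ W V) atTop (𝓝 a))
    (hU : ∀ s, 0 < s → W s + U s = (2 * κ + 1) / s * V s) :
    Tendsto (T (κ + 1) V U) atTop (𝓝 a) := by
  have hβ : 0 ≤ κ * (κ - 1) := mul_nonneg (by linarith) (by linarith)
  have hκ0 : 0 < κ := by linarith
  have e : ∀ s, 0 < s → T (κ + 1) V U s = T κ W V s - κ / s ^ 2 * (W s ^ 2 + V s ^ 2) := by
    intro s hs
    have hU' : U s = (2 * κ + 1) / s * V s - W s := by linarith [hU s hs]
    unfold T Wp
    rw [hU']
    field_simp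
    ring
  have ha0 : 0 ≤ a := by
    have h1 := h.T_le hκ ha (s := κ * (κ - 1) + 1) (by linarith)
    refine le_trans ?_ h1
    unfold T
    have : 0 ≤ 1 - κ * (κ - 1) / (κ * (κ - 1) + 1) ^ 2 := by
      rw [sub_nonneg, div_le_one (by positivity)]
      nlinarith
    have h2 := sq_nonneg (W (κ * (κ - 1) + 1))
    have h3 := sq_nonneg (Wp κ W V (κ * (κ - 1) + 1))
    positivity
  -- bounds
  have hb : ∀ s, 2 * (κ * (κ - 1)) + 1 ≤ s → W s ^ 2 + V s ^ 2 ≤ (2 + 4 * κ ^ 2 + 2) * a := by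
    intro s hs
    have hs1 : 1 ≤ s := by linarith
    have hs0 : 0 < s := by linarith
    have hT := h.T_le hκ ha hs0
    have hq : 1 / 2 ≤ 1 - κ * (κ - 1) / s ^ 2 := by
      have : κ * (κ - 1) / s ^ 2 ≤ 1 / 2 := by
        rw [div_le_iff₀ (by positivity)]
        nlinarith
      linarith
    unfold T at hT
    have h1 : W s ^ 2 ≤ 2 * a := by nlinarith [sq_nonneg (Wp κ W V s), sq_nonneg (W s)]
    have h2 : Wp κ W V s ^ 2 ≤ a := by nlinarith [sq_nonneg (W s)]
    have h3 : V s = κ / s * W s - Wp κ W V s := by unfold Wp; ring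
    have h4 : V s ^ 2 ≤ 2 * (κ / s * W s) ^ 2 + 2 * Wp κ W V s ^ 2 := by
      rw [h3]
      nlinarith [sq_nonneg (κ / s * W s + Wp κ W V s)]
    have h5 : (κ / s * W s) ^ 2 ≤ κ ^ 2 * W s ^ 2 := by
      rw [mul_pow, div_pow]
      have : κ ^ 2 / s ^ 2 ≤ κ ^ 2 := div_le_self (by positivity) (by nlinarith)
      have := sq_nonneg (W s)
      gcongr
    have h6 : κ ^ 2 * W s ^ 2 ≤ κ ^ 2 * (2 * a) := by gcongr
    nlinarith
  have hz : Tendsto (fun s => κ / s ^ 2 * (W s ^ 2 + V s ^ 2)) atTop (𝓝 0) := by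
    have h1 : Tendsto (fun s : ℝ => κ / s ^ 2 * ((2 + 4 * κ ^ 2 + 2) * a)) atTop (𝓝 0) := by
      have : Tendsto (fun s : ℝ => κ / s ^ 2) atTop (𝓝 0) :=
        tendsto_const_nhds.div_atTop (tendsto_pow_atTop (by norm_num))
      simpa using this.mul_const ((2 + 4 * κ ^ 2 + 2) * a)
    refine tendsto_of_tendsto_of_tendsto_of_le_of_le' tendsto_const_nhds h1 ?_ ?_
    · filter_upwards [eventually_gt_atTop 0] with s hs
      positivity
    · filter_upwards [eventually_ge_atTop (2 * (κ * (κ - 1)) + 1)] with s hs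
      have hs0 : 0 < s := by linarith
      have := hb s hs
      gcongr
  have := ha.sub hz
  rw [sub_zero] at this
  refine this.congr' ?_
  filter_upwards [eventually_gt_atTop 0] with s hs
  exact (e s hs).symm

end Pool.Agent.MP_6cbfb8_an.Sparse
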