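import Pool.Agent.MP_6cbfb8_an.Sparse.ODE

/-!
Sharp bounds near and beyond the turning point.
-/

namespace Pool.Agent.MP_6cbfb8_an.Sparse

open Set Filter Topology
open scoped Real

variable {κ : ℝ} {W V : ℝ → ℝ}

/-- `√(s² - β)` -/
noncomputable def rr (κ s : ℝ) : ℝ := Real.sqrt (s ^ 2 - κ * (κ - 1))

noncomputable def ph (κ s : ℝ) : ℝ := κ * (κ - 1) / rr κ s ^ 3

noncomputable def FF (κ : ℝ) (W V : ℝ → ℝ) (s : ℝ) : ℝ := T κ W V s * s / rr κ s

noncomputable def KK (κ : ℝ) (W V : ℝ → ℝ) (s : ℝ) : ℝ :=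
  (FF κ W V s + ph κ s * (W s * Wp κ W V s)) * (1 - ph κ s)

lemma rr_sq {s : ℝ} (h : κ * (κ - 1) ≤ s ^ 2) : rr κ s ^ 2 = s ^ 2 - κ * (κ - 1) :=
  Real.sq_sqrt (by linarith)

lemma hasDerivAt_rr {s : ℝ} (h : κ * (κ - 1) < s ^ 2) : HasDerivAt (rr κ) (s / rr κ s) s := by
  have h1 : HasDerivAt (fun s : ℝ => s ^ 2 - κ * (κ - 1)) (2 * s) s := by
    simpa using (hasDerivAt_pow 2 s).sub_const (κ * (κ - 1))
  have h2 := h1.sqrt (by linarith)
  refine h2.congr_deriv ?_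
  unfold rr
  rw [mul_div_mul_left _ _ (by norm_num : (2:ℝ) ≠ 0)]

lemma FF_eq {s : ℝ} (hs : 0 < s) (h : κ * (κ - 1) < s ^ 2) :
    FF κ W V s = rr κ s / s * W s ^ 2 + s / rr κ s * Wp κ W V s ^ 2 := by
  have hr : 0 < rr κ s := Real.sqrt_pos.2 (by linarith)
  have h2 := rr_sq h.le
  unfold FF T
  have : κ * (κ - 1) = s ^ 2 - rr κ s ^ 2 := by linarith
  rw [this]
  field_simp
  ring

lemma abs_D_le {s : ℝ} (hs : 0 < s) (h : κ * (κ - 1) < s ^ 2) :
    |W s * Wp κ W V s| ≤ FF κ W V s / 2 := by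
  have hr : 0 < rr κ s := Real.sqrt_pos.2 (by linarith)
  rw [FF_eq hs h, abs_le]
  have e1 : rr κ s / s * W s ^ 2 + s / rr κ s * Wp κ W V s ^ 2 - 2 * (W s * Wp κ W V s) =
      (rr κ s * W s - s * Wp κ W V s) ^ 2 / (s * rr κ s) := by
    field_simp
    ring
  have e2 : rr κ s / s * W s ^ 2 + s / rr κ s * Wp κ W V s ^ 2 + 2 * (W s * Wp κ W V s) =
      (rr κ s * W s + s * Wp κ W V s) ^ 2 / (s * rr κ s) := by
    field_simp
    ring
  have h1 : 0 ≤ (rr κ s * W s - s * Wp κ W V s) ^ 2 / (s * rr κ s) := by positivity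
  have h2 : 0 ≤ (rr κ s * W s + s * Wp κ W V s) ^ 2 / (s * rr κ s) := by positivity
  constructor <;> linarith

lemma Sys.hasDerivAt_KK (h : Sys κ W V) {s : ℝ} (hs : 0 < s) (hβ : κ * (κ - 1) < s ^ 2) :
    HasDerivAt (KK κ W V) (3 * (κ * (κ - 1)) * s / rr κ s ^ 5 *
      (FF κ W V s - (1 - 2 * ph κ s) * (W s * Wp κ W V s))) s := by
  have hr : 0 < rr κ s := Real.sqrt_pos.2 (by linarith)
  have h2 := rr_sq hβ.le
  have hrd := hasDerivAt_rr hβ
  have hphi : HasDerivAt (ph κ) (-(3 * (κ * (κ - 1)) * s / rr κ s ^ 5)) s := by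
    have h3 := (hasDerivAt_const s (κ * (κ - 1))).fun_div (hrd.fun_pow 3) (pow_ne_zero 3 hr.ne')
    refine HasDerivAt.congr_deriv (f := ph κ) h3 ?_
    push_cast
    field_simp
    ring
  have hF : HasDerivAt (FF κ W V) (κ * (κ - 1) / rr κ s ^ 3 *
      ((1 - κ * (κ - 1) / s ^ 2) * W s ^ 2 - Wp κ W V s ^ 2)) s := by
    have h3 := ((h.hasDerivAt_T hs).fun_mul (hasDerivAt_id' s)).fun_div hrd hr.ne'
    refine HasDerivAt.congr_deriv (f := FF κ W V) h3 ?_
    unfold T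
    have e : κ * (κ - 1) = s ^ 2 - rr κ s ^ 2 := by linarith
    rw [e]
    field_simp
    ring
  have hD := (h.hW s hs).fun_mul (h.hasDerivAt_Wp hs)
  have h3 := (hF.fun_add (hphi.fun_mul hD)).fun_mul (hphi.const_sub 1)
  refine HasDerivAt.congr_deriv (f := KK κ W V) h3 ?_
  have hWp : κ / s * W s - V s = Wp κ W V s := rfl
  rw [hWp]
  have hph : ph κ s = κ * (κ - 1) / rr κ s ^ 3 := rfl
  rw [hph]
  set F := FF κ W V s
  set P := Wp κ W V s
  field_simp
  ring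

lemma Sys.KK_mono (h : Sys κ W V) (hκ : 1 ≤ κ) {s₀ : ℝ} (hs₀ : 0 < s₀)
    (hβ : κ * (κ - 1) < s₀ ^ 2) (hph : 2 * (κ * (κ - 1)) ≤ rr κ s₀ ^ 3) :
    MonotoneOn (KK κ W V) (Ici s₀) := by
  have hβ0 : 0 ≤ κ * (κ - 1) := mul_nonneg (by linarith) (by linarith)
  have hlt : ∀ s, s₀ ≤ s → κ * (κ - 1) < s ^ 2 := by
    intro s hs
    nlinarith
  apply monotoneOn_of_deriv_nonneg (convex_Ici s₀)
  · intro s hs
    exact (h.hasDerivAt_KK (hs₀.trans_le hs) (hlt s hs)).continuousAt.continuousWithinAt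
  · intro s hs
    rw [interior_Ici] at hs
    exact (h.hasDerivAt_KK (hs₀.trans hs) (hlt s hs.le)).differentiableAt.differentiableWithinAt
  · intro s hs
    rw [interior_Ici] at hs
    have hs' : 0 < s := hs₀.trans hs
    have hb := hlt s hs.le
    rw [(h.hasDerivAt_KK hs' hb).deriv]
    have hr : 0 < rr κ s := Real.sqrt_pos.2 (by linarith)
    have h1 := abs_D_le (V := V) (W := W) hs' hb
    have hF0 : 0 ≤ FF κ W V s := by
      rw [FF_eq hs' hb]
      positivity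
    have hs1 : s₀ ≤ s := le_of_lt hs
    have hr0 : rr κ s₀ ≤ rr κ s := Real.sqrt_le_sqrt (by nlinarith)
    have hr00 : 0 ≤ rr κ s₀ := Real.sqrt_nonneg _
    have hp0 : 0 ≤ ph κ s := by unfold ph; positivity
    have hp1 : ph κ s ≤ 1 / 2 := by
      unfold ph
      rw [div_le_iff₀ (by positivity)]
      have : rr κ s₀ ^ 3 ≤ rr κ s ^ 3 := by gcongr
      linarith
    have h2 : (1 - 2 * ph κ s) * (W s * Wp κ W V s) ≤ FF κ W V s := by
      have h3 : |(1 - 2 * ph κ s) * (W s * Wp κ W V s)| ≤ 1 * (FF κ W V s / 2) := by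
        rw [abs_mul]
        have : |1 - 2 * ph κ s| ≤ 1 := by
          rw [abs_le]
          constructor <;> linarith
        gcongr
      have := (abs_le.1 h3).2
      linarith
    have h4 : 0 ≤ FF κ W V s - (1 - 2 * ph κ s) * (W s * Wp κ W V s) := by linarith
    positivity

/-- main bound beyond the turning point -/
lemma Sys.FF_le (h : Sys κ W V) (hκ : 1 ≤ κ) {a : ℝ} (ha : Tendsto (T κ W V) atTop (𝓝 a))
    {s₀ : ℝ} (hs₀ : 0 < s₀) (hβ : κ * (κ - 1) < s₀ ^ 2)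
    (hph : 2 * (κ * (κ - 1)) ≤ rr κ s₀ ^ 3) {s : ℝ} (hs : s₀ ≤ s) : FF κ W V s ≤ 4 * a := by
  have hβ0 : 0 ≤ κ * (κ - 1) := mul_nonneg (by linarith) (by linarith)
  have hlt : ∀ s, s₀ ≤ s → κ * (κ - 1) < s ^ 2 := by
    intro s hs
    nlinarith
  have hphs : ∀ s, s₀ ≤ s → 0 ≤ ph κ s ∧ ph κ s ≤ 1 / 2 := by
    intro s hs
    have hb := hlt s hs
    have hr : 0 < rr κ s := Real.sqrt_pos.2 (by linarith)
    have hr0 : rr κ s₀ ≤ rr κ s := Real.sqrt_le_sqrt (by nlinarith)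
    have hr00 : 0 ≤ rr κ s₀ := Real.sqrt_nonneg _
    constructor
    · unfold ph; positivity
    · unfold ph
      rw [div_le_iff₀ (by positivity)]
      have : rr κ s₀ ^ 3 ≤ rr κ s ^ 3 := by gcongr
      linarith
  -- comparison point
  set u : ℝ := max s (2 * κ) with hu
  have hus : s ≤ u := le_max_left _ _
  have hu2 : 2 * κ ≤ u := le_max_right _ _
  have hsu : s₀ ≤ u := hs.trans hus
  have hu0 : 0 < u := hs₀.trans_le hsu
  have hs0 : 0 < s := hs₀.trans_le hs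
  have hmono := h.KK_mono hκ hs₀ hβ hph (mem_Ici.2 hs) (mem_Ici.2 hsu) hus
  -- upper bound at u
  have hru : 0 < rr κ u := Real.sqrt_pos.2 (by linarith [hlt u hsu])
  have hru2 := rr_sq (hlt u hsu).le
  have hur : u / rr κ u ≤ 6 / 5 := by
    rw [div_le_iff₀ hru]
    have : u ^ 2 ≤ (6 / 5 * rr κ u) ^ 2 := by
      rw [mul_pow, hru2]
      nlinarith
    exact le_of_sq_le_sq this (by positivity) 
  have hT := h.T_le hκ ha hu0
  have hT0 : 0 ≤ T κ W V u := by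
    unfold T
    have h1 : 0 ≤ 1 - κ * (κ - 1) / u ^ 2 := by
      rw [sub_nonneg, div_le_one (by positivity)]
      exact (hlt u hsu).le
    have := sq_nonneg (W u)
    have := sq_nonneg (Wp κ W V u)
    positivity
  have ha0 : 0 ≤ a := hT0.trans hT
  have hFu : FF κ W V u ≤ 6 / 5 * a := by
    unfold FF
    rw [mul_div_assoc]
    calc T κ W V u * (u / rr κ u) ≤ a * (6 / 5) := by gcongr
      _ = _ := by ring
  have hFu0 : 0 ≤ FF κ W V u := by
    rw [FF_eq hu0 (hlt u hsu)]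
    positivity
  have hKu : KK κ W V u ≤ 3 / 2 * a := by
    have h1 := (abs_le.1 (abs_D_le (V := V) (W := W) hu0 (hlt u hsu))).2
    obtain ⟨h2, h3⟩ := hphs u hsu
    unfold KK
    have h4 : FF κ W V u + ph κ u * (W u * Wp κ W V u) ≤ 5 / 4 * FF κ W V u := by
      have : ph κ u * (W u * Wp κ W V u) ≤ ph κ u * (FF κ W V u / 2) := by gcongr
      nlinarith
    calc (FF κ W V u + ph κ u * (W u * Wp κ W V u)) * (1 - ph κ u)
        ≤ (5 / 4 * FF κ W V u) * (1 - ph κ u) := by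
          have : 0 ≤ 1 - ph κ u := by linarith
          gcongr
      _ ≤ 5 / 4 * FF κ W V u := by
          nlinarith
      _ ≤ 3 / 2 * a := by linarith
  -- lower bound at s
  have hFs0 : 0 ≤ FF κ W V s := by
    rw [FF_eq hs0 (hlt s hs)]
    have hr : 0 < rr κ s := Real.sqrt_pos.2 (by linarith [hlt s hs])
    positivity
  have hKs : 3 / 8 * FF κ W V s ≤ KK κ W V s := by
    have h1 := (abs_le.1 (abs_D_le (V := V) (W := W) hs0 (hlt s hs))).1
    obtain ⟨h2, h3⟩ := hphs s hs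
    unfold KK
    have h4 : 3 / 4 * FF κ W V s ≤ FF κ W V s + ph κ s * (W s * Wp κ W V s) := by
      have : ph κ s * (-(FF κ W V s / 2)) ≤ ph κ s * (W s * Wp κ W V s) := by gcongr
      nlinarith
    calc 3 / 8 * FF κ W V s = (3 / 4 * FF κ W V s) * (1 / 2) := by ring
      _ ≤ (FF κ W V s + ph κ s * (W s * Wp κ W V s)) * (1 - ph κ s) :=
          mul_le_mul h4 (by linarith) (by norm_num) (by linarith)
  linarith

end Pool.Agent.MP_6cbfb8_an.Sparse
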