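import Pool.Agent.MP_6cbfb8_an.Sparse.Leg

/-!
Orthogonality of the Legendre polynomials of dimension `j + 2` and their norms.
-/

namespace Pool.Agent.MP_6cbfb8_an.Sparse

open Polynomial MeasureTheory Set
open scoped Real

/-- the zonal integral of a polynomial -/
noncomputable def zint (j : ℕ) (P : ℝ[X]) : ℝ :=
  ∫ θ in (0:ℝ)..π, P.eval (Real.cos θ) * Real.sin θ ^ j

lemma zint_continuous (j : ℕ) (P : ℝ[X]) :
    Continuous fun θ : ℝ => P.eval (Real.cos θ) * Real.sin θ ^ j := by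
  have h1 : Continuous fun θ : ℝ => P.eval (Real.cos θ) := P.continuous.comp Real.continuous_cos
  exact h1.mul (Real.continuous_sin.pow j)

lemma zint_add (j : ℕ) (P R : ℝ[X]) : zint j (P + R) = zint j P + zint j R := by
  unfold zint
  rw [← intervalIntegral.integral_add ((zint_continuous j P).intervalIntegrable _ _)
    ((zint_continuous j R).intervalIntegrable _ _)]
  congr 1
  funext θ
  rw [eval_add, add_mul]

lemma zint_smul (j : ℕ) (a : ℝ) (P : ℝ[X]) : zint j (a • P) = a * zint j P := by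
  unfold zint
  rw [← intervalIntegral.integral_const_mul]
  congr 1
  funext θ
  rw [eval_smul, smul_eq_mul, mul_assoc]

/-- the zonal integral as a linear functional -/
noncomputable def zlin (j : ℕ) : ℝ[X] →ₗ[ℝ] ℝ where
  toFun := zint j
  map_add' := zint_add j
  map_smul' := fun a P => by simpa using zint_smul j a P

lemma wronskian (j k l : ℕ) (hj : 1 ≤ j) :
    ((l : ℝ) * (l + j) - (k : ℝ) * (k + j)) * zint j (Q (j + 2) l * Q (j + 2) k) = 0 := by
  have hd : (2 : ℝ) < (j : ℝ) + 2 := by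
    have : (1 : ℝ) ≤ j := by exact_mod_cast hj
    linarith
  set H : ℝ → ℝ := fun θ => Real.sin θ ^ (j + 1) *
    ((derivative (Q (j + 2) l)).eval (Real.cos θ) * (Q (j + 2) k).eval (Real.cos θ) -
      (Q (j + 2) l).eval (Real.cos θ) * (derivative (Q (j + 2) k)).eval (Real.cos θ)) with hH
  have hp : ∀ (P : ℝ[X]) (x : ℝ), HasDerivAt (fun x : ℝ => P.eval (Real.cos x))
      ((derivative P).eval (Real.cos x) * (-Real.sin x)) x := by
    intro P x
    exact (Polynomial.hasDerivAt P (Real.cos x)).comp x (Real.hasDerivAt_cos x)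
  have hd1 : ∀ θ : ℝ, HasDerivAt H (((l : ℝ) * (l + j) - (k : ℝ) * (k + j)) *
      ((Q (j + 2) l * Q (j + 2) k).eval (Real.cos θ) * Real.sin θ ^ j)) θ := by
    intro θ
    have h1 : HasDerivAt (fun θ : ℝ => Real.sin θ ^ (j + 1))
        (((j + 1 : ℕ) : ℝ) * Real.sin θ ^ j * Real.cos θ) θ := by
      simpa using (Real.hasDerivAt_sin θ).fun_pow (j + 1)
    have h2 := h1.mul (((hp (derivative (Q (j + 2) l)) θ).mul (hp (Q (j + 2) k) θ)).sub
      ((hp (Q (j + 2) l) θ).mul (hp (derivative (Q (j + 2) k)) θ)))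
    refine h2.congr_deriv ?_
    have ol := congrArg (eval (Real.cos θ)) (ode hd l)
    have ok := congrArg (eval (Real.cos θ)) (ode hd k)
    simp only [eval_add, eval_sub, eval_mul, eval_C, eval_X, eval_pow, Polynomial.eval_one,
      eval_zero] at ol ok
    have hs : Real.sin θ ^ 2 = 1 - Real.cos θ ^ 2 := by linarith [Real.sin_sq_add_cos_sq θ]
    simp only [eval_mul, Pi.mul_apply, Pi.sub_apply]
    rw [show Real.sin θ ^ (j + 1) = Real.sin θ ^ j * Real.sin θ from pow_succ _ _]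
    push_cast
    linear_combination (-(Real.sin θ ^ j) * (Q (j + 2) k).eval (Real.cos θ)) * ol +
      (Real.sin θ ^ j * (Q (j + 2) l).eval (Real.cos θ)) * ok -
      Real.sin θ ^ j * ((derivative (derivative (Q (j + 2) l))).eval (Real.cos θ) *
        (Q (j + 2) k).eval (Real.cos θ) - (Q (j + 2) l).eval (Real.cos θ) *
        (derivative (derivative (Q (j + 2) k))).eval (Real.cos θ)) * hs
  have h := intervalIntegral.integral_eq_sub_of_hasDerivAt (fun θ _ => hd1 θ)
    (((zint_continuous j (Q (j + 2) l * Q (j + 2) k)).const_mul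
      ((l : ℝ) * (l + j) - (k : ℝ) * (k + j))).intervalIntegrable 0 π)
  rw [intervalIntegral.integral_const_mul] at h
  unfold zint
  rw [h, hH]
  simp

lemma ortho (j : ℕ) (hj : 1 ≤ j) {k l : ℕ} (h : l ≠ k) :
    zint j (Q (j + 2) l * Q (j + 2) k) = 0 := by
  have h1 := wronskian j k l hj
  rcases mul_eq_zero.1 h1 with h2 | h2
  · exfalso
    have hj' : (1 : ℝ) ≤ j := by exact_mod_cast hj
    have e : ((l : ℝ) - k) * (l + k + j) = 0 := by linarith
    rcases mul_eq_zero.1 e with h3 | h3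
    · apply h
      have : (l : ℝ) = k := by linarith
      exact_mod_cast this
    · have h4 : (0 : ℝ) ≤ l := Nat.cast_nonneg l
      have h5 : (0 : ℝ) ≤ k := Nat.cast_nonneg k
      linarith
  · exact h2

/-- squared norms -/
noncomputable def hn (j k : ℕ) : ℝ := zint j (Q (j + 2) k * Q (j + 2) k)

/-- the (normalised) dimension of the space of spherical harmonics of degree `k` -/
noncomputable def dd (j : ℕ) : ℕ → ℝ
  | 0 => 1
  | (k + 1) => dd j k * ((2 * k + j + 2) * (k + j) / ((k + 1) * (2 * k + j)))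

lemma dd_pos (j k : ℕ) (hj : 1 ≤ j) : 0 < dd j k := by
  have hj' : (1 : ℝ) ≤ j := by exact_mod_cast hj
  induction k with
  | zero => simp [dd]
  | succ k ih =>
    have : (0 : ℝ) ≤ k := Nat.cast_nonneg k
    have h1 : 0 < (2 * (k : ℝ) + j + 2) := by linarith
    have h2 : 0 < ((k : ℝ) + j) := by linarith
    have h3 : 0 < (2 * (k : ℝ) + j) := by linarith
    have h4 : 0 < ((k : ℝ) + 1) := by linarith
    rw [dd]
    positivity

lemma X_mul_Q' (j k : ℕ) (hj : 1 ≤ j) : ∃ R : ℝ[X],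
    X * Q (j + 2) k = (((k : ℝ) + j) / (2 * k + j)) • Q (j + 2) (k + 1) + R ∧
      zint j (R * Q (j + 2) (k + 1)) = 0 := by
  have hj' : (1 : ℝ) ≤ j := by exact_mod_cast hj
  have hd : (2 : ℝ) < (j : ℝ) + 2 := by linarith
  rcases k with _ | k
  · refine ⟨0, ?_, ?_⟩
    · have : (j : ℝ) ≠ 0 := by linarith
      simp [Q_zero, Q_one, this]
    · simp [zint]
  · refine ⟨(((k : ℝ) + 1) / (2 * k + (j + 2))) • Q (j + 2) k, ?_, ?_⟩
    · rw [X_mul_Q hd k]
      congr 2
      push_cast
      rw [show (k : ℝ) + ((j : ℝ) + 2) - 1 = k + 1 + j by ring,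
        show 2 * (k : ℝ) + ((j : ℝ) + 2) = 2 * (k + 1) + j by ring]
    · rw [smul_mul_assoc, zint_smul, ortho j hj (by omega), mul_zero]

lemma hn_ratio (j k : ℕ) (hj : 1 ≤ j) :
    (((k : ℝ) + j) / (2 * k + j)) * hn j (k + 1) = (((k : ℝ) + 1) / (2 * k + j + 2)) * hn j k := by
  have hj' : (1 : ℝ) ≤ j := by exact_mod_cast hj
  have hd : (2 : ℝ) < (j : ℝ) + 2 := by linarith
  obtain ⟨R, h1, h2⟩ := X_mul_Q' j k hj
  have e1 : zint j (X * Q (j + 2) k * Q (j + 2) (k + 1)) =
      (((k : ℝ) + j) / (2 * k + j)) * hn j (k + 1) := by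
    rw [h1, add_mul, zint_add, h2, smul_mul_assoc, zint_smul, add_zero]
    rfl
  have e2 : zint j (X * Q (j + 2) k * Q (j + 2) (k + 1)) =
      (((k : ℝ) + 1) / (2 * k + j + 2)) * hn j k := by
    have : X * Q (j + 2) k * Q (j + 2) (k + 1) = X * Q (j + 2) (k + 1) * Q (j + 2) k := by ring
    rw [this, X_mul_Q hd k, add_mul, zint_add, smul_mul_assoc, zint_smul,
      ortho j hj (by omega), mul_zero, zero_add, smul_mul_assoc, zint_smul,
      show 2 * (k : ℝ) + ((j : ℝ) + 2) = 2 * k + j + 2 by ring]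
    rfl
  rw [← e1, e2]

lemma dd_mul_hn (j k : ℕ) (hj : 1 ≤ j) : dd j k * hn j k = hn j 0 := by
  induction k with
  | zero => simp [dd]
  | succ k ih =>
    have hj' : (1 : ℝ) ≤ j := by exact_mod_cast hj
    have : (0 : ℝ) ≤ k := Nat.cast_nonneg k
    have h1 : (2 * (k : ℝ) + j + 2) ≠ 0 := by linarith
    have h2 : ((k : ℝ) + j) ≠ 0 := by linarith
    have h3 : (2 * (k : ℝ) + j) ≠ 0 := by linarith
    have h4 : ((k : ℝ) + 1) ≠ 0 := by linarith
    have hr := hn_ratio j k hj
    rw [← ih, dd]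
    field_simp at hr ⊢
    linear_combination (dd j k) * hr

end Pool.Agent.MP_6cbfb8_an.Sparse
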