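import Pool.Agent.MP_6cbfb8_an.Sparse.OneDim
import Pool.Agent.MP_6cbfb8_an.Sparse.Bes

/-!
Expansion of monomials and of plane waves in Legendre polynomials.
-/

namespace Pool.Agent.MP_6cbfb8_an.Sparse

open Polynomial Set
open scoped Real

noncomputable def al (j k : ℕ) : ℝ := ((k : ℝ) + j) / (2 * k + j)
noncomputable def be (j k : ℕ) : ℝ := (k : ℝ) / (2 * k + j)

lemma al_nonneg (j k : ℕ) : 0 ≤ al j k := by unfold al; positivity
lemma be_nonneg (j k : ℕ) : 0 ≤ be j k := by unfold be; positivity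

lemma X_mul_Q_succ (j : ℕ) (hj : 1 ≤ j) (l : ℕ) : X * Q ((j : ℝ) + 2) (l + 1) =
    al j (l + 1) • Q ((j : ℝ) + 2) (l + 2) + be j (l + 1) • Q ((j : ℝ) + 2) l := by
  have hj' : (1 : ℝ) ≤ j := by exact_mod_cast hj
  have hd : (2 : ℝ) < (j : ℝ) + 2 := by linarith
  rw [X_mul_Q hd l]
  unfold al be
  push_cast
  congr 2
  · congr 1 <;> ring
  · congr 1
    ring

lemma X_mul_Q_zero (j : ℕ) (hj : 1 ≤ j) : X * Q ((j : ℝ) + 2) 0 =
    al j 0 • Q ((j : ℝ) + 2) 1 := by
  have hj' : (1 : ℝ) ≤ j := by exact_mod_cast hj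
  have : al j 0 = 1 := by
    unfold al
    simp only [Nat.cast_zero, zero_add, mul_zero]
    exact div_self (by linarith)
  rw [this, Q_zero, Q_one]
  simp

/-- multiplication by `X` on coefficients -/
noncomputable def step (j : ℕ) (f : ℕ → ℝ) : ℕ → ℝ
  | 0 => be j 1 * f 1
  | (k + 1) => al j k * f k + be j (k + 2) * f (k + 2)

lemma sum_step (j : ℕ) (hj : 1 ≤ j) (f : ℕ → ℝ) (n : ℕ) :
    ∑ k ∈ Finset.range (n + 1), f k • (X * Q ((j : ℝ) + 2) k) =
      ∑ k ∈ Finset.range (n + 1), step j f k • Q ((j : ℝ) + 2) k +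
        (al j n * f n) • Q ((j : ℝ) + 2) (n + 1) - (be j (n + 1) * f (n + 1)) • Q ((j : ℝ) + 2) n := by
  induction n with
  | zero =>
    simp only [zero_add, Finset.range_one, Finset.sum_singleton]
    rw [X_mul_Q_zero j hj]
    simp only [step, smul_smul]
    rw [mul_comm (f 0)]
    abel
  | succ n ih =>
    rw [Finset.sum_range_succ, ih, Finset.sum_range_succ _ (n + 1), X_mul_Q_succ j hj]
    simp only [step, smul_add, smul_smul, add_smul]
    rw [mul_comm (f (n + 1)) (al j (n + 1)), mul_comm (f (n + 1)) (be j (n + 1))]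
    abel

/-- coefficients of the monomials -/
noncomputable def tau (j : ℕ) : ℕ → ℕ → ℝ
  | 0 => fun k => if k = 0 then 1 else 0
  | (m + 1) => step j (tau j m)

lemma step_nonneg (j : ℕ) {f : ℕ → ℝ} (hf : ∀ k, 0 ≤ f k) (k : ℕ) : 0 ≤ step j f k := by
  cases k with
  | zero => exact mul_nonneg (be_nonneg _ _) (hf _)
  | succ k => exact add_nonneg (mul_nonneg (al_nonneg _ _) (hf _)) (mul_nonneg (be_nonneg _ _) (hf _))

lemma tau_nonneg (j m k : ℕ) : 0 ≤ tau j m k := by
  induction m generalizing k with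
  | zero =>
    simp only [tau]
    split_ifs <;> norm_num
  | succ m ih => exact step_nonneg j ih k

lemma tau_support (j m k : ℕ) (h : m < k) : tau j m k = 0 := by
  induction m generalizing k with
  | zero =>
    simp only [tau]
    rw [if_neg (by omega)]
  | succ m ih =>
    cases k with
    | zero => omega
    | succ k =>
      simp only [tau, step]
      rw [ih k (by omega), ih (k + 2) (by omega)]
      simp

lemma tau_expand (j : ℕ) (hj : 1 ≤ j) (m : ℕ) :
    (X : ℝ[X]) ^ m = ∑ k ∈ Finset.range (m + 1), tau j m k • Q ((j : ℝ) + 2) k := by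
  induction m with
  | zero => simp [tau, Q_zero]
  | succ m ih =>
    rw [pow_succ', ih, Finset.mul_sum]
    simp only [mul_smul_comm]
    rw [sum_step j hj, Finset.sum_range_succ _ (m + 1)]
    simp only [tau]
    rw [tau_support j m (m + 1) (by omega)]
    have h2 : step j (tau j m) (m + 1) = al j m * tau j m m := by
      simp only [step]
      rw [tau_support j m (m + 2) (by omega)]
      simp
    rw [h2]
    simp

lemma tau_sum (j : ℕ) (hj : 1 ≤ j) (m : ℕ) : ∑ k ∈ Finset.range (m + 1), tau j m k = 1 := by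
  have hj' : (1 : ℝ) ≤ j := by exact_mod_cast hj
  have hd : (2 : ℝ) < (j : ℝ) + 2 := by linarith
  have h := congrArg (eval 1) (tau_expand j hj m)
  rw [eval_finsetSum] at h
  simp only [eval_pow, eval_X, one_pow, eval_smul, smul_eq_mul, (eval_one hd _).1, mul_one] at h
  exact h.symm

/-- explicit coefficients -/
noncomputable def ct (j k i : ℕ) : ℝ :=
  dd j k * ((k + 2 * i).factorial : ℝ) /
    (2 ^ (k + 2 * i) * (i.factorial : ℝ) * poch (((j : ℝ) + 2) / 2) (k + i))

lemma ct_id0 (j : ℕ) (hj : 1 ≤ j) (i : ℕ) : be j 1 * ct j 1 i = ct j 0 (i + 1) := by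
  have hj' : (1 : ℝ) ≤ j := by exact_mod_cast hj
  have hp := poch_pos (μ := ((j : ℝ) + 2) / 2) (by linarith) (i + 1)
  unfold be ct
  have e1 : (1 + 2 * i : ℕ) = 2 * i + 1 := by ring
  have e2 : (0 + 2 * (i + 1) : ℕ) = 2 * i + 1 + 1 := by ring
  have e3 : (1 + i : ℕ) = i + 1 := by ring
  have e4 : (0 + (i + 1) : ℕ) = i + 1 := by ring
  rw [e1, e2, e3, e4, Nat.factorial_succ (2 * i + 1), Nat.factorial_succ i]
  have h1 : (0 : ℝ) < i.factorial := by positivity
  have h2 : (0 : ℝ) < (2 * i + 1).factorial := by positivity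
  simp only [dd]
  push_cast
  have h3 : (0 : ℝ) < j := by linarith
  field_simp
  ring

lemma ct_id1 (j : ℕ) (hj : 1 ≤ j) (k : ℕ) : al j k * ct j k 0 = ct j (k + 1) 0 := by
  have hj' : (1 : ℝ) ≤ j := by exact_mod_cast hj
  have hk : (0 : ℝ) ≤ k := Nat.cast_nonneg k
  have hp := poch_pos (μ := ((j : ℝ) + 2) / 2) (by linarith) k
  unfold al ct
  simp only [mul_zero, add_zero]
  rw [Nat.factorial_succ k, poch_succ]
  have h1 : (0 : ℝ) < k.factorial := by positivity
  simp only [dd]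
  push_cast
  have h2 : (0 : ℝ) < 2 * k + j := by linarith
  have h3 : (0 : ℝ) < 2 * k + j + 2 := by linarith
  have h4 : ((j : ℝ) + 2) / 2 + k = (2 * k + j + 2) / 2 := by ring
  rw [h4]
  field_simp
  ring

lemma ct_id2 (j : ℕ) (hj : 1 ≤ j) (k i : ℕ) :
    al j k * ct j k (i + 1) + be j (k + 2) * ct j (k + 2) i = ct j (k + 1) (i + 1) := by
  have hj' : (1 : ℝ) ≤ j := by exact_mod_cast hj
  have hk : (0 : ℝ) ≤ k := Nat.cast_nonneg k
  have hi : (0 : ℝ) ≤ i := Nat.cast_nonneg i
  have hp := poch_pos (μ := ((j : ℝ) + 2) / 2) (by linarith) (k + i + 1)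
  unfold al be ct
  have e1 : k + 2 * (i + 1) = k + 2 * i + 2 := by ring
  have e2 : k + 2 + 2 * i = k + 2 * i + 2 := by ring
  have e3 : k + 1 + 2 * (i + 1) = k + 2 * i + 2 + 1 := by ring
  have e4 : k + (i + 1) = k + i + 1 := by ring
  have e5 : k + 2 + i = k + i + 1 + 1 := by ring
  have e6 : k + 1 + (i + 1) = k + i + 1 + 1 := by ring
  rw [e1, e2, e3, e4, e5, e6, Nat.factorial_succ (k + 2 * i + 2), Nat.factorial_succ i,
    poch_succ _ (k + i + 1)]
  have h1 : (0 : ℝ) < i.factorial := by positivity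
  have h2 : (0 : ℝ) < (k + 2 * i + 2).factorial := by positivity
  simp only [dd]
  push_cast
  have h3 : (0 : ℝ) < 2 * k + j := by linarith
  have h4 : (0 : ℝ) < 2 * k + j + 2 := by linarith
  have h5 : (0 : ℝ) < 2 * (k + 1) + j := by linarith
  have h6 : (0 : ℝ) < 2 * (k + 2) + j := by linarith
  have h8 : (0 : ℝ) < 2 * k + 2 * i + j + 4 := by linarith
  have h7 : ((j : ℝ) + 2) / 2 + (k + i + 1) = (2 * k + 2 * i + j + 4) / 2 := by ring
  rw [h7]
  have h9 := dd_pos j k hj
  field_simp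
  ring

lemma tau_explicit (j : ℕ) (hj : 1 ≤ j) (m : ℕ) :
    (∀ k i, m = k + 2 * i → tau j m k = ct j k i) ∧
    (∀ k, (∀ i, m ≠ k + 2 * i) → tau j m k = 0) := by
  induction m with
  | zero =>
    constructor
    · intro k i h
      obtain rfl : k = 0 := by omega
      obtain rfl : i = 0 := by omega
      simp [tau, ct, dd, poch_zero]
    · intro k h
      have : k ≠ 0 := by
        rintro rfl
        exact h 0 rfl
      simp [tau, this]
  | succ m ih =>
    obtain ⟨ih1, ih2⟩ := ih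
    constructor
    · intro k i h
      cases k with
      | zero =>
        cases i with
        | zero => omega
        | succ i =>
          simp only [tau, step]
          rw [ih1 1 i (by omega), ct_id0 j hj]
      | succ k =>
        simp only [tau, step]
        cases i with
        | zero =>
          rw [ih1 k 0 (by omega), ih2 (k + 2) (by intro i; omega), mul_zero, add_zero,
            ct_id1 j hj]
        | succ i =>
          rw [ih1 k (i + 1) (by omega), ih1 (k + 2) i (by omega), ct_id2 j hj]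
    · intro k h
      cases k with
      | zero =>
        simp only [tau, step]
        rw [ih2 1 (by intro i hi; exact h (i + 1) (by omega)), mul_zero]
      | succ k =>
        simp only [tau, step]
        rw [ih2 k (by intro i hi; exact h i (by omega)),
          ih2 (k + 2) (by intro i hi; exact h (i + 1) (by omega))]
        simp

lemma poch_add (μ : ℝ) (k i : ℕ) : poch μ (k + i) = poch μ k * poch (μ + k) i := by
  unfold poch
  rw [Finset.prod_range_add]
  congr 1
  refine Finset.prod_congr rfl fun a _ => ?_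
  push_cast
  ring

/-- column sums -/
lemma column (j : ℕ) (hj : 1 ≤ j) (k : ℕ) (s : ℝ) :
    HasSum (fun m : ℕ => (Complex.I * (s : ℂ)) ^ m / (m.factorial : ℂ) * ((tau j m k : ℝ) : ℂ))
      (Complex.I ^ k * ((dd j k * jb j k s : ℝ) : ℂ)) := by
  have hj' : (1 : ℝ) ≤ j := by exact_mod_cast hj
  have hk0 : (0 : ℝ) ≤ k := Nat.cast_nonneg k
  have hν : 1 ≤ ((j : ℝ) + 2) / 2 := by linarith
  have hinj : Function.Injective (fun i : ℕ => k + 2 * i) := by
    intro a b h
    simp only at h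
    omega
  rw [← hinj.hasSum_iff]
  · have h1 := (bt_summable (μ := ((j : ℝ) + 2) / 2 + k) (by linarith) (s ^ 2 / 4)).hasSum
    have h2 := (Complex.hasSum_ofReal.2 (h1.mul_left (dd j k * ((s / 2) ^ k /
      poch (((j : ℝ) + 2) / 2) k)))).mul_left (Complex.I ^ k)
    have e1 : Complex.I ^ k * ((dd j k * jb j k s : ℝ) : ℂ) =
        Complex.I ^ k * ((dd j k * ((s / 2) ^ k / poch (((j : ℝ) + 2) / 2) k) *
          ∑' b, bt (((j : ℝ) + 2) / 2 + k) (s ^ 2 / 4) b : ℝ) : ℂ) := by
      unfold jb Bs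
      rw [mul_assoc]
    rw [e1]
    refine HasSum.congr_fun h2 fun i => ?_
    simp only [Function.comp_apply]
    rw [(tau_explicit j hj (k + 2 * i)).1 k i rfl]
    have hr : s ^ (k + 2 * i) / ((k + 2 * i).factorial : ℝ) * ct j k i * (-1) ^ i =
        dd j k * ((s / 2) ^ k / poch (((j : ℝ) + 2) / 2) k) *
          bt (((j : ℝ) + 2) / 2 + k) (s ^ 2 / 4) i := by
      unfold ct bt
      rw [poch_add]
      have hp1 := poch_pos hν k
      have hp2 := poch_pos (μ := ((j : ℝ) + 2) / 2 + k) (by linarith) i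
      have h1 : (0 : ℝ) < i.factorial := by positivity
      have h2 : (0 : ℝ) < (k + 2 * i).factorial := by positivity
      have e2 : (-(s ^ 2 / 4)) ^ i = (-1) ^ i * s ^ (2 * i) / 2 ^ (2 * i) := by
        rw [neg_pow, pow_mul, pow_mul, div_pow]
        norm_num
        ring
      rw [e2, pow_add s, pow_add (2 : ℝ), div_pow]
      field_simp
    have hI : (Complex.I * (s : ℂ)) ^ (k + 2 * i) =
        Complex.I ^ k * (((s ^ (k + 2 * i) * (-1) ^ i : ℝ)) : ℂ) := by
      rw [mul_pow, pow_add Complex.I, pow_mul Complex.I, Complex.I_sq]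
      push_cast
      ring
    rw [← hr, hI]
    push_cast
    ring
  · intro m hm
    rw [(tau_explicit j hj m).2 k (fun i hi => hm ⟨i, hi.symm⟩)]
    simp

/-- the double family -/
noncomputable def fam (j : ℕ) (s t : ℝ) (q : ℕ × ℕ) : ℂ :=
  (Complex.I * (s : ℂ)) ^ q.1 / (q.1.factorial : ℂ) * ((tau j q.1 q.2 : ℝ) : ℂ) *
    (((Q ((j : ℝ) + 2) q.2).eval t : ℝ) : ℂ)

/-- the majorant -/
noncomputable def maj (j : ℕ) (s : ℝ) (q : ℕ × ℕ) : ℝ :=
  |s| ^ q.1 / (q.1.factorial : ℝ) * tau j q.1 q.2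

lemma maj_row (j : ℕ) (hj : 1 ≤ j) (s : ℝ) (m : ℕ) :
    HasSum (fun k => maj j s (m, k)) (|s| ^ m / (m.factorial : ℝ)) := by
  have h : HasSum (fun k => maj j s (m, k)) (∑ k ∈ Finset.range (m + 1), maj j s (m, k)) :=
    hasSum_sum_of_ne_finset_zero (fun k hk => by
      rw [Finset.mem_range] at hk
      simp only [maj]
      rw [tau_support j m k (by omega), mul_zero])
  have e : ∑ k ∈ Finset.range (m + 1), maj j s (m, k) = |s| ^ m / (m.factorial : ℝ) := by
    simp only [maj]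
    rw [← Finset.mul_sum, tau_sum j hj, mul_one]
  rwa [e] at h

lemma maj_nonneg (j : ℕ) (s : ℝ) (q : ℕ × ℕ) : 0 ≤ maj j s q := by
  unfold maj
  have := tau_nonneg j q.1 q.2
  positivity

lemma maj_summable (j : ℕ) (hj : 1 ≤ j) (s : ℝ) : Summable (maj j s) := by
  rw [summable_prod_of_nonneg (maj_nonneg j s)]
  refine ⟨fun m => (maj_row j hj s m).summable, ?_⟩
  simp only [(maj_row j hj s _).tsum_eq]
  exact Real.summable_pow_div_factorial |s|

lemma maj_tsum (j : ℕ) (hj : 1 ≤ j) (s : ℝ) : ∑' q, maj j s q = Real.exp |s| := by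
  rw [(maj_summable j hj s).tsum_prod' (fun m => (maj_row j hj s m).summable)]
  simp only [(maj_row j hj s _).tsum_eq]
  rw [Real.exp_eq_exp_ℝ, NormedSpace.exp_eq_tsum_div]

lemma fam_norm_le (j : ℕ) (hj : 1 ≤ j) (s : ℝ) {t : ℝ} (ht : t ∈ Icc (-1 : ℝ) 1) (q : ℕ × ℕ) :
    ‖fam j s t q‖ ≤ maj j s q := by
  have hj' : (1 : ℝ) ≤ j := by exact_mod_cast hj
  have hd : (2 : ℝ) < (j : ℝ) + 2 := by linarith
  unfold fam maj
  rw [norm_mul, norm_mul, norm_div, norm_pow, norm_mul, Complex.norm_I, one_mul,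
    Complex.norm_real, Complex.norm_real, Complex.norm_real, Complex.norm_natCast,
    Real.norm_eq_abs, Real.norm_eq_abs, Real.norm_eq_abs, abs_of_nonneg (tau_nonneg j q.1 q.2)]
  have h1 := abs_le_one hd q.2 ht
  have h2 := tau_nonneg j q.1 q.2
  calc |s| ^ q.1 / (q.1.factorial : ℝ) * tau j q.1 q.2 * |(Q ((j : ℝ) + 2) q.2).eval t|
      ≤ |s| ^ q.1 / (q.1.factorial : ℝ) * tau j q.1 q.2 * 1 := by gcongr
    _ = _ := mul_one _

/-- the coefficients of the plane wave -/
noncomputable def pw (j k : ℕ) (s : ℝ) : ℂ := Complex.I ^ k * ((dd j k * jb j k s : ℝ) : ℂ)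

lemma fam_column (j : ℕ) (hj : 1 ≤ j) (s t : ℝ) (k : ℕ) :
    HasSum (fun m => fam j s t (m, k)) (pw j k s * (((Q ((j : ℝ) + 2) k).eval t : ℝ) : ℂ)) :=
  (column j hj k s).mul_right _

lemma fam_row (j : ℕ) (hj : 1 ≤ j) (s t : ℝ) (m : ℕ) :
    HasSum (fun k => fam j s t (m, k)) ((Complex.I * (s : ℂ) * (t : ℂ)) ^ m / (m.factorial : ℂ)) := by
  have h : HasSum (fun k => fam j s t (m, k)) (∑ k ∈ Finset.range (m + 1), fam j s t (m, k)) :=
    hasSum_sum_of_ne_finset_zero (fun k hk => by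
      rw [Finset.mem_range] at hk
      simp only [fam]
      rw [tau_support j m k (by omega)]
      simp)
  have e : ∑ k ∈ Finset.range (m + 1), fam j s t (m, k) =
      (Complex.I * (s : ℂ) * (t : ℂ)) ^ m / (m.factorial : ℂ) := by
    simp only [fam, mul_assoc]
    rw [← Finset.mul_sum]
    have h1 := congrArg (eval t) (tau_expand j hj m)
    rw [eval_finsetSum] at h1
    simp only [eval_pow, eval_X, eval_smul, smul_eq_mul] at h1
    have h2 : ∑ k ∈ Finset.range (m + 1), (((tau j m k : ℝ) : ℂ) *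
        (((Q ((j : ℝ) + 2) k).eval t : ℝ) : ℂ)) = (t : ℂ) ^ m := by
      rw [← Complex.ofReal_pow, h1]
      push_cast
      rfl
    rw [h2]
    ring
  rwa [e] at h

/-- expansion of the plane wave -/
theorem plane_wave (j : ℕ) (hj : 1 ≤ j) (s : ℝ) {t : ℝ} (ht : t ∈ Icc (-1 : ℝ) 1) :
    HasSum (fun k => pw j k s * (((Q ((j : ℝ) + 2) k).eval t : ℝ) : ℂ))
      (Complex.exp (Complex.I * (s : ℂ) * (t : ℂ))) := by
  have hsum : Summable (fam j s t) :=
    Summable.of_norm_bounded (maj_summable j hj s) (fam_norm_le j hj s ht)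
  have h1 : HasSum (fam j s t) (Complex.exp (Complex.I * (s : ℂ) * (t : ℂ))) := by
    have h2 := hsum.hasSum
    have h3 := h2.prod_fiberwise (fun m => fam_row j hj s t m)
    have h4 : HasSum (fun m : ℕ => (Complex.I * (s : ℂ) * (t : ℂ)) ^ m / (m.factorial : ℂ))
        (Complex.exp (Complex.I * (s : ℂ) * (t : ℂ))) := by
      rw [Complex.exp_eq_exp_ℂ]
      exact NormedSpace.expSeries_div_hasSum_exp _
    rw [← h3.unique h4]
    exact h2
  have h5 : HasSum (fam j s t ∘ Prod.swap) (Complex.exp (Complex.I * (s : ℂ) * (t : ℂ))) :=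
    (Equiv.prodComm ℕ ℕ).hasSum_iff.2 h1
  exact h5.prod_fiberwise (fun k => fam_column j hj s t k)

/-- absolute summability of the coefficients -/
lemma pw_summable (j : ℕ) (hj : 1 ≤ j) (s : ℝ) :
    Summable (fun k => ‖pw j k s‖) ∧ ∑' k, ‖pw j k s‖ ≤ Real.exp |s| := by
  have hsw : Summable (maj j s ∘ Prod.swap) := (Equiv.prodComm ℕ ℕ).summable_iff.2
    (maj_summable j hj s)
  have h1 := (summable_prod_of_nonneg (f := maj j s ∘ Prod.swap)
    (fun q => maj_nonneg j s _)).1 hsw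
  have hle : ∀ k, ‖pw j k s‖ ≤ ∑' m, (maj j s ∘ Prod.swap) (k, m) := by
    intro k
    have hc := column j hj k s
    unfold pw
    rw [← hc.tsum_eq]
    refine tsum_of_norm_bounded (h1.1 k).hasSum fun m => ?_
    simp only [Function.comp_apply, Prod.swap_prod_mk, maj]
    rw [norm_mul, norm_div, norm_pow, norm_mul, Complex.norm_I, one_mul,
      Complex.norm_real, Complex.norm_real, Complex.norm_natCast,
      Real.norm_eq_abs, Real.norm_eq_abs, abs_of_nonneg (tau_nonneg j m k)]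
  refine ⟨Summable.of_nonneg_of_le (fun _ => norm_nonneg _) hle h1.2, ?_⟩
  have h2 : Summable (fun k => ‖pw j k s‖) :=
    Summable.of_nonneg_of_le (fun _ => norm_nonneg _) hle h1.2
  calc ∑' k, ‖pw j k s‖ ≤ ∑' k, ∑' m, (maj j s ∘ Prod.swap) (k, m) := h2.tsum_le_tsum hle h1.2
    _ = ∑' q, (maj j s ∘ Prod.swap) q := (hsw.tsum_prod' h1.1).symm
    _ = ∑' q, maj j s q := (Equiv.prodComm ℕ ℕ).tsum_eq _
    _ = Real.exp |s| := maj_tsum j hj s

end Pool.Agent.MP_6cbfb8_an.Sparse
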