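import Pool.Agent.MP_6cbfb8_an.Sparse.ODE2

/-!
Bounds on `(0, s₀)`, where `s₀` is slightly beyond the turning point.
-/

namespace Pool.Agent.MP_6cbfb8_an.Sparse

open Set Filter Topology MeasureTheory
open scoped Real ENNReal

variable {κ : ℝ} {W V : ℝ → ℝ}

/-- `b = √β` -/
noncomputable def bb (κ : ℝ) : ℝ := Real.sqrt (κ * (κ - 1))

/-- `c = (2β)^(1/3)` -/
noncomputable def cc (κ : ℝ) : ℝ := (2 * (κ * (κ - 1))) ^ ((1 : ℝ) / 3)

noncomputable def ss (κ : ℝ) : ℝ := Real.sqrt (κ * (κ - 1) + cc κ ^ 2)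

lemma beta_ge (hκ : 2 ≤ κ) : 2 ≤ κ * (κ - 1) := by nlinarith

lemma bb_sq (hκ : 2 ≤ κ) : bb κ ^ 2 = κ * (κ - 1) := Real.sq_sqrt (by linarith [beta_ge hκ])

lemma bb_pos (hκ : 2 ≤ κ) : 0 < bb κ := Real.sqrt_pos.2 (by linarith [beta_ge hκ])

lemma cc_pos (hκ : 2 ≤ κ) : 0 < cc κ := Real.rpow_pos_of_pos (by linarith [beta_ge hκ]) _

lemma cc_cube (hκ : 2 ≤ κ) : cc κ ^ 3 = 2 * (κ * (κ - 1)) := by
  unfold cc
  have h := beta_ge hκ
  rw [← Real.rpow_natCast, ← Real.rpow_mul (by linarith)]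
  norm_num

lemma one_le_bb (hκ : 2 ≤ κ) : 1 ≤ bb κ := by
  have h1 := bb_sq hκ
  have h2 := bb_pos hκ
  have h3 := beta_ge hκ
  nlinarith

/-- `c ≤ 2 b` -/
lemma cc_le (hκ : 2 ≤ κ) : cc κ ≤ 3 / 2 * bb κ := by
  have h1 := bb_sq hκ
  have h2 := bb_pos hκ
  have h3 := cc_cube hκ
  have h4 := cc_pos hκ
  have h5 := one_le_bb hκ
  have h6 := beta_ge hκ
  by_contra hc
  push Not at hc
  have h7 : (3 / 2 * bb κ) ^ 3 < cc κ ^ 3 := by
    apply pow_lt_pow_left₀ hc (by positivity) (by norm_num)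
  rw [h3, ← h1] at h7
  have h8 : bb κ ^ 3 = bb κ ^ 2 * bb κ := by ring
  nlinarith

lemma ss_sq (hκ : 2 ≤ κ) : ss κ ^ 2 = κ * (κ - 1) + cc κ ^ 2 :=
  Real.sq_sqrt (by have := beta_ge hκ; positivity)

lemma ss_pos (hκ : 2 ≤ κ) : 0 < ss κ :=
  Real.sqrt_pos.2 (by have := beta_ge hκ; positivity)

lemma bb_lt_ss (hκ : 2 ≤ κ) : bb κ < ss κ := by
  have h1 := bb_sq hκ
  have h2 := bb_pos hκ
  have h3 := ss_sq hκ
  have h4 := cc_pos hκ
  have h5 := ss_pos hκ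
  nlinarith

lemma ss_le (hκ : 2 ≤ κ) : ss κ ≤ 2 * bb κ := by
  have h1 := bb_sq hκ
  have h2 := bb_pos hκ
  have h3 := ss_sq hκ
  have h4 := cc_pos hκ
  have h5 := ss_pos hκ
  have h6 := cc_le hκ
  nlinarith

lemma rr_ss (hκ : 2 ≤ κ) : rr κ (ss κ) = cc κ := by
  unfold rr
  rw [ss_sq hκ, add_sub_cancel_left, Real.sqrt_sq (cc_pos hκ).le]

lemma Sys.FF_le' (h : Sys κ W V) (hκ : 2 ≤ κ) {a : ℝ} (ha : Tendsto (T κ W V) atTop (𝓝 a))
    {s : ℝ} (hs : ss κ ≤ s) : FF κ W V s ≤ 4 * a := by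
  have h1 := ss_sq hκ
  have h2 := cc_pos hκ
  exact h.FF_le (by linarith) ha (ss_pos hκ) (by nlinarith)
    (by rw [rr_ss hκ, cc_cube hκ]) hs

/-- bound beyond `s₀` -/
lemma Sys.W_sq_le (h : Sys κ W V) (hκ : 2 ≤ κ) {a : ℝ} (ha : Tendsto (T κ W V) atTop (𝓝 a))
    {s : ℝ} (hs : ss κ ≤ s) : W s ^ 2 ≤ 4 * a * (s / rr κ s) := by
  have h1 := ss_sq hκ
  have h2 := cc_pos hκ
  have h3 := ss_pos hκ
  have hs0 : 0 < s := h3.trans_le hs
  have hb : κ * (κ - 1) < s ^ 2 := by nlinarith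
  have hF := h.FF_le' hκ ha hs
  have hr : 0 < rr κ s := Real.sqrt_pos.2 (by linarith)
  rw [FF_eq hs0 hb] at hF
  have h4 : rr κ s / s * W s ^ 2 ≤ 4 * a := by
    have : 0 ≤ s / rr κ s * Wp κ W V s ^ 2 := by positivity
    linarith
  calc W s ^ 2 = (rr κ s / s * W s ^ 2) * (s / rr κ s) := by field_simp
    _ ≤ 4 * a * (s / rr κ s) := by gcongr

lemma Sys.T_ss_le (h : Sys κ W V) (hκ : 2 ≤ κ) {a : ℝ} (ha : Tendsto (T κ W V) atTop (𝓝 a)) :
    T κ W V (ss κ) ≤ 4 * a * (cc κ / ss κ) := by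
  have h3 := ss_pos hκ
  have h2 := cc_pos hκ
  have hF := h.FF_le' hκ ha le_rfl
  unfold FF at hF
  rw [rr_ss hκ] at hF
  calc T κ W V (ss κ) = T κ W V (ss κ) * ss κ / cc κ * (cc κ / ss κ) := by field_simp
    _ ≤ 4 * a * (cc κ / ss κ) := by gcongr

/-- bound between the turning point and `s₀` -/
lemma Sys.W_sq_le_mid (h : Sys κ W V) (hκ : 2 ≤ κ) {a : ℝ}
    (ha : Tendsto (T κ W V) atTop (𝓝 a)) {s : ℝ} (hs1 : bb κ ≤ s) (hs2 : s ≤ ss κ) :
    W s ^ 2 ≤ 24 * a * (bb κ / cc κ) := by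
  have hbs := bb_sq hκ
  have hb := bb_pos hκ
  have hss := ss_sq hκ
  have hc := cc_pos hκ
  have hs0 := ss_pos hκ
  have hcb := cc_le hκ
  have hsb := ss_le hκ
  have hc3 := cc_cube hκ
  have hbl := bb_lt_ss hκ
  have hT := h.T_ss_le hκ ha
  have ha0 : 0 ≤ a := by
    have h0 : 0 ≤ T κ W V (ss κ) := by
      unfold T
      have : 0 ≤ 1 - κ * (κ - 1) / ss κ ^ 2 := by
        rw [sub_nonneg, div_le_one (by positivity)]
        nlinarith
      have := sq_nonneg (W (ss κ))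
      have := sq_nonneg (Wp κ W V (ss κ))
      positivity
    exact h0.trans (h.T_le (by linarith) ha hs0)
  set A : ℝ := 4 * a * (cc κ / ss κ) with hA
  have hA0 : 0 ≤ A := by positivity
  -- derivative bound
  have hder : ∀ u ∈ Icc (bb κ) (ss κ), |Wp κ W V u| ≤ Real.sqrt A := by
    intro u hu
    have hu0 : 0 < u := hb.trans_le hu.1
    apply Real.abs_le_sqrt
    have h1 := h.T_mono (by linarith) (mem_Ioi.2 hu0) (mem_Ioi.2 hs0) hu.2
    have h2 : Wp κ W V u ^ 2 ≤ T κ W V u := by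
      unfold T
      have : 0 ≤ 1 - κ * (κ - 1) / u ^ 2 := by
        rw [sub_nonneg, div_le_one (by positivity), ← hbs]
        nlinarith [hu.1]
      have := sq_nonneg (W u)
      nlinarith
    linarith
  have hdiff : |W (ss κ) - W s| ≤ Real.sqrt A * (ss κ - s) := by
    have := (convex_Icc (bb κ) (ss κ)).norm_image_sub_le_of_norm_hasDerivWithin_le
      (f := W) (f' := fun u => Wp κ W V u) (C := Real.sqrt A)
      (fun u hu => (h.hW u (hb.trans_le hu.1)).hasDerivWithinAt)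
      (fun u hu => by rw [Real.norm_eq_abs]; exact hder u hu) ⟨hs1, hs2⟩ ⟨hbl.le, le_rfl⟩
    rw [Real.norm_eq_abs, Real.norm_eq_abs, abs_of_nonneg (by linarith : 0 ≤ ss κ - s)] at this
    exact this
  have hWs := h.W_sq_le hκ ha le_rfl
  rw [rr_ss hκ] at hWs
  have h1 : W s ^ 2 ≤ 2 * W (ss κ) ^ 2 + 2 * (W (ss κ) - W s) ^ 2 := by
    nlinarith [sq_nonneg (2 * W (ss κ) - W s)]
  have h2 : (W (ss κ) - W s) ^ 2 ≤ A * (ss κ - s) ^ 2 := by
    have := pow_le_pow_left₀ (abs_nonneg _) hdiff 2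
    rwa [sq_abs, mul_pow, Real.sq_sqrt hA0] at this
  have h3 : (ss κ - s) ^ 2 ≤ (cc κ ^ 2 / (2 * bb κ)) ^ 2 := by
    have h4 : ss κ - s ≤ cc κ ^ 2 / (2 * bb κ) := by
      rw [le_div_iff₀ (by positivity)]
      have : (ss κ - bb κ) * (ss κ + bb κ) = cc κ ^ 2 := by linarith
      nlinarith
    have h5 : 0 ≤ ss κ - s := by linarith
    gcongr
  have h4 : A * (cc κ ^ 2 / (2 * bb κ)) ^ 2 ≤ 4 * a * (bb κ / cc κ) := by
    have e1 : A ≤ 4 * a * (cc κ / bb κ) := by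
      rw [hA]
      gcongr
    calc A * (cc κ ^ 2 / (2 * bb κ)) ^ 2 ≤ 4 * a * (cc κ / bb κ) * (cc κ ^ 2 / (2 * bb κ)) ^ 2 := by
          gcongr
      _ = a * (cc κ ^ 3) ^ 2 / (bb κ ^ 3 * cc κ) := by
          field_simp
          ring
      _ = 4 * a * (bb κ / cc κ) := by
          rw [hc3, ← hbs]
          field_simp
          ring
  have h5 : 4 * a * (ss κ / cc κ) ≤ 8 * a * (bb κ / cc κ) := by
    calc 4 * a * (ss κ / cc κ) ≤ 4 * a * ((2 * bb κ) / cc κ) := by gcongr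
      _ = 8 * a * (bb κ / cc κ) := by ring
  have h6 : A * (ss κ - s) ^ 2 ≤ 4 * a * (bb κ / cc κ) := le_trans (by gcongr) h4
  linarith

/-- the sup bound on `(0, s₀]` -/
lemma Sys.W_sq_le_low (h : Sys κ W V) (hκ : 2 ≤ κ) {a : ℝ}
    (ha : Tendsto (T κ W V) atTop (𝓝 a))
    (hD : Tendsto (fun s => W s * Wp κ W V s) (𝓝[>] 0) (𝓝 0)) {s : ℝ} (hs1 : 0 < s)
    (hs2 : s ≤ ss κ) : W s ^ 2 ≤ 24 * a * (bb κ / cc κ) := by
  have hbs := bb_sq hκ
  have hb := bb_pos hκ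
  rcases le_total (bb κ) s with h1 | h1
  · exact h.W_sq_le_mid hκ ha h1 hs2
  -- the function `W W'` is nondecreasing on `(0, b]`
  have hDder : ∀ u, 0 < u → HasDerivAt (fun s => W s * Wp κ W V s)
      (Wp κ W V u ^ 2 + (κ * (κ - 1) / u ^ 2 - 1) * W u ^ 2) u := by
    intro u hu
    refine ((h.hW u hu).fun_mul (h.hasDerivAt_Wp hu)).congr_deriv ?_
    have hWp : κ / u * W u - V u = Wp κ W V u := rfl
    rw [hWp]
    ring
  have hmono : MonotoneOn (fun s => W s * Wp κ W V s) (Ioc 0 (bb κ)) := by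
    apply monotoneOn_of_deriv_nonneg (convex_Ioc 0 (bb κ))
    · intro u hu
      exact (hDder u hu.1).continuousAt.continuousWithinAt
    · intro u hu
      rw [interior_Ioc] at hu
      exact (hDder u hu.1).differentiableAt.differentiableWithinAt
    · intro u hu
      rw [interior_Ioc] at hu
      have hu0 : 0 < u := hu.1
      rw [(hDder u hu0).deriv]
      have : 0 ≤ κ * (κ - 1) / u ^ 2 - 1 := by
        rw [sub_nonneg, one_le_div (by positivity), ← hbs]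
        nlinarith [hu.2]
      positivity
  have hD0 : ∀ u ∈ Ioc 0 (bb κ), 0 ≤ W u * Wp κ W V u := by
    intro u hu
    apply le_of_tendsto hD
    filter_upwards [Ioo_mem_nhdsGT hu.1] with v hv
    exact hmono ⟨hv.1, hv.2.le.trans hu.2⟩ hu hv.2.le
  have hWmono : MonotoneOn (fun s => W s ^ 2) (Ioc 0 (bb κ)) := by
    apply monotoneOn_of_deriv_nonneg (convex_Ioc 0 (bb κ))
    · intro u hu
      exact ((h.hW u hu.1).fun_pow 2).continuousAt.continuousWithinAt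
    · intro u hu
      rw [interior_Ioc] at hu
      exact ((h.hW u hu.1).fun_pow 2).differentiableAt.differentiableWithinAt
    · intro u hu
      rw [interior_Ioc] at hu
      rw [((h.hW u hu.1).fun_pow 2).deriv]
      have h2 := hD0 u ⟨hu.1, hu.2.le⟩
      have hWp : κ / u * W u - V u = Wp κ W V u := rfl
      rw [hWp]
      push_cast
      nlinarith
  exact (hWmono ⟨hs1, h1⟩ ⟨hb, le_rfl⟩ h1).trans
    (h.W_sq_le_mid hκ ha le_rfl (bb_lt_ss hκ).le)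

/-- the weighted `L²` bound on `(0, s₀)` -/
lemma Sys.L2_low (h : Sys κ W V) (hκ : 2 ≤ κ) {a : ℝ}
    (ha : Tendsto (T κ W V) atTop (𝓝 a))
    (hT0 : Tendsto (T κ W V) (𝓝[>] 0) (𝓝 0)) :
    ∫⁻ s in Ioo 0 (ss κ), ENNReal.ofReal (W s ^ 2 / s ^ 3) ≤
      ENNReal.ofReal (2 * a * (cc κ / (ss κ * bb κ ^ 2))) := by
  have hbs := bb_sq hκ
  have hb := bb_pos hκ
  have hs0 := ss_pos hκ
  have hc := cc_pos hκ
  have hβ := beta_ge hκ
  set Tt : ℝ → ℝ := fun s => if s ≤ 0 then 0 else T κ W V s with hTt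
  have hTt_pos : ∀ s, 0 < s → Tt s = T κ W V s := fun s hs => by
    simp [hTt, not_le.2 hs]
  have hder : ∀ s ∈ Ioo 0 (ss κ), HasDerivAt Tt (2 * (κ * (κ - 1)) / s ^ 3 * W s ^ 2) s := by
    intro s hs
    refine (h.hasDerivAt_T hs.1).congr_of_eventuallyEq ?_
    filter_upwards [Ioi_mem_nhds hs.1] with u hu
    exact hTt_pos u hu
  have hcont : ContinuousOn Tt (Icc 0 (ss κ)) := by
    intro s hs
    rcases eq_or_lt_of_le hs.1 with h0 | h0
    · rw [← h0]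
      have h1 : Tendsto Tt (𝓝[>] 0) (𝓝 (Tt 0)) := by
        have : Tt 0 = 0 := by simp [hTt]
        rw [this]
        refine hT0.congr' ?_
        filter_upwards [self_mem_nhdsWithin] with u hu
        exact (hTt_pos u hu).symm
      have h2 : ContinuousWithinAt Tt (Ioi 0) 0 := h1
      exact (continuousWithinAt_Ioi_iff_Ici.1 h2).mono Icc_subset_Ici_self
    · have h1 : ContinuousAt Tt s := by
        have h2 := (h.hasDerivAt_T h0).continuousAt
        refine h2.congr ?_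
        filter_upwards [Ioi_mem_nhds h0] with u hu
        exact (hTt_pos u hu).symm
      exact h1.continuousWithinAt
  have hnn : ∀ s ∈ Ioo 0 (ss κ), 0 ≤ 2 * (κ * (κ - 1)) / s ^ 3 * W s ^ 2 := by
    intro s hs
    have := hs.1
    positivity
  have hint := intervalIntegral.integrableOn_deriv_of_nonneg hcont hder hnn
  have hval := intervalIntegral.integral_eq_sub_of_hasDerivAt_of_le hs0.le hcont hder
    ((intervalIntegrable_iff_integrableOn_Ioc_of_le hs0.le).2 hint)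
  rw [intervalIntegral.integral_of_le hs0.le, integral_Ioc_eq_integral_Ioo, hTt_pos _ hs0] at hval
  have h00 : Tt 0 = 0 := by simp [hTt]
  rw [h00, sub_zero] at hval
  have hint' : IntegrableOn (fun s => 2 * (κ * (κ - 1)) / s ^ 3 * W s ^ 2) (Ioo 0 (ss κ)) :=
    hint.mono_set Ioo_subset_Ioc_self
  have e1 : ∫⁻ s in Ioo 0 (ss κ), ENNReal.ofReal (2 * (κ * (κ - 1)) / s ^ 3 * W s ^ 2) =
      ENNReal.ofReal (T κ W V (ss κ)) := by
    rw [← hval, ofReal_integral_eq_lintegral_ofReal hint']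
    exact (ae_restrict_iff' measurableSet_Ioo).2 (Eventually.of_forall hnn)
  have e2 : ∀ s : ℝ, ENNReal.ofReal (2 * (κ * (κ - 1)) / s ^ 3 * W s ^ 2) =
      ENNReal.ofReal (2 * (κ * (κ - 1))) * ENNReal.ofReal (W s ^ 2 / s ^ 3) := by
    intro s
    rw [← ENNReal.ofReal_mul (by linarith)]
    congr 1
    ring
  simp only [e2] at e1
  rw [lintegral_const_mul' _ _ ENNReal.ofReal_ne_top] at e1
  have hpos : 0 < 2 * (κ * (κ - 1)) := by linarith
  have e3 : ENNReal.ofReal (2 * (κ * (κ - 1))) * ∫⁻ s in Ioo 0 (ss κ),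
      ENNReal.ofReal (W s ^ 2 / s ^ 3) ≤ ENNReal.ofReal (2 * (κ * (κ - 1))) *
      ENNReal.ofReal (2 * a * (cc κ / (ss κ * bb κ ^ 2))) := by
    rw [e1, ← ENNReal.ofReal_mul hpos.le]
    apply ENNReal.ofReal_le_ofReal
    refine (h.T_ss_le hκ ha).trans (le_of_eq ?_)
    rw [← hbs]
    field_simp
    ring
  exact (ENNReal.mul_le_mul_iff_right (by simpa using hpos) ENNReal.ofReal_ne_top).1 e3

end Pool.Agent.MP_6cbfb8_an.Sparse
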