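import Mathlib

/-!
Sums over sparse sets; Minkowski's inequality for series; scaling.
-/

namespace Pool.Agent.MP_6cbfb8_an.Sparse

open Set MeasureTheory Filter Topology
open scoped ENNReal Real

lemma sparse_sum {Λ : Set ℕ} {c θ η : ℝ} (hc : 0 < c) (hθ : θ ≤ 1) (hη : 1 < η + θ)
    (hΛ : ∀ k ∈ Λ, ∀ l ∈ Λ, k < l → c * (1 + (k : ℝ)) ^ θ ≤ (l : ℝ) - k) :
    ∑' k : Λ, ENNReal.ofReal ((1 + ((k : ℕ) : ℝ)) ^ (-η)) < ∞ := by
  set I : Λ → Set ℝ := fun k => Ico (1 + ((k : ℕ) : ℝ))
    (1 + ((k : ℕ) : ℝ) + c * (1 + ((k : ℕ) : ℝ)) ^ θ) with hI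
  set f : ℝ → ℝ≥0∞ := fun x => ENNReal.ofReal (x ^ (-(η + θ))) with hf
  set c' : ℝ := c * (1 + c) ^ (-(η + θ)) with hc'
  have hc'0 : 0 < c' := by positivity
  have hdisj : Pairwise (Function.onFun Disjoint I) := by
    have key : ∀ k l : Λ, (k : ℕ) < l → Disjoint (I k) (I l) := by
      intro k l hkl
      rw [Set.disjoint_left]
      intro x hx hx'
      have := hΛ k k.2 l l.2 hkl
      simp only [hI, mem_Ico] at hx hx'
      linarith [hx.2, hx'.1]
    intro k l hkl
    have hne : (k : ℕ) ≠ l := fun h => hkl (Subtype.ext h)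
    rcases lt_or_gt_of_ne hne with h | h
    · exact key k l h
    · exact (key l k h).symm
  have hlow : ∀ k : Λ, ENNReal.ofReal c' * ENNReal.ofReal ((1 + ((k : ℕ) : ℝ)) ^ (-η)) ≤
      ∫⁻ x in I k, f x := by
    intro k
    set y : ℝ := 1 + ((k : ℕ) : ℝ) with hy
    have hy1 : 1 ≤ y := by
      rw [hy]
      have : (0 : ℝ) ≤ ((k : ℕ) : ℝ) := Nat.cast_nonneg _
      linarith
    have hy0 : 0 < y := by linarith
    have hyθ : y ^ θ ≤ y := by
      calc y ^ θ ≤ y ^ (1 : ℝ) := Real.rpow_le_rpow_of_exponent_le hy1 hθ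
        _ = y := Real.rpow_one y
    have h1 : ∀ x ∈ I k, ENNReal.ofReal (((1 + c) * y) ^ (-(η + θ))) ≤ f x := by
      intro x hx
      simp only [hI, mem_Ico] at hx
      rw [← hy] at hx
      apply ENNReal.ofReal_le_ofReal
      apply Real.rpow_le_rpow_of_nonpos (by linarith) _ (by linarith)
      nlinarith [hx.2]
    calc ENNReal.ofReal c' * ENNReal.ofReal (y ^ (-η))
        = ENNReal.ofReal (((1 + c) * y) ^ (-(η + θ))) * volume (I k) := by
          have h2 : volume (I k) = ENNReal.ofReal (c * y ^ θ) := by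
            simp only [hI]
            rw [← hy, Real.volume_Ico]
            congr 1
            ring
          rw [h2, ← ENNReal.ofReal_mul hc'0.le, ← ENNReal.ofReal_mul (by positivity)]
          congr 1
          rw [hc', Real.mul_rpow (by positivity) hy0.le]
          have h3 : y ^ (-η) = y ^ (-(η + θ)) * y ^ θ := by
            rw [← Real.rpow_add hy0]
            congr 1
            ring
          rw [h3]
          ring
      _ = ∫⁻ _ in I k, ENNReal.ofReal (((1 + c) * y) ^ (-(η + θ))) := by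
          rw [setLIntegral_const]
      _ ≤ ∫⁻ x in I k, f x := setLIntegral_mono' measurableSet_Ico h1
  have hsum : ENNReal.ofReal c' * ∑' k : Λ, ENNReal.ofReal ((1 + ((k : ℕ) : ℝ)) ^ (-η)) ≤
      ∫⁻ x in Ioi (1 / 2 : ℝ), f x := by
    rw [← ENNReal.tsum_mul_left]
    calc ∑' k : Λ, ENNReal.ofReal c' * ENNReal.ofReal ((1 + ((k : ℕ) : ℝ)) ^ (-η))
        ≤ ∑' k : Λ, ∫⁻ x in I k, f x := ENNReal.tsum_le_tsum hlow
      _ = ∫⁻ x in ⋃ k, I k, f x :=
          (lintegral_iUnion (fun _ => measurableSet_Ico) hdisj f).symm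
      _ ≤ ∫⁻ x in Ioi (1 / 2 : ℝ), f x := by
          refine lintegral_mono_set (iUnion_subset fun k x hx => ?_)
          simp only [hI, mem_Ico] at hx
          have : (0 : ℝ) ≤ ((k : ℕ) : ℝ) := Nat.cast_nonneg _
          rw [mem_Ioi]
          linarith [hx.1]
  have hfin : ∫⁻ x in Ioi (1 / 2 : ℝ), f x < ∞ := by
    have h3 : IntegrableOn (fun s : ℝ => s ^ (-(η + θ))) (Ioi (1 / 2 : ℝ)) :=
      integrableOn_Ioi_rpow_of_lt (by linarith) (by norm_num)
    have h4 := h3.2
    rw [hasFiniteIntegral_iff_enorm] at h4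
    refine lt_of_le_of_lt (lintegral_mono fun x => ?_) h4
    exact Real.ofReal_le_enorm _
  by_contra hcon
  rw [not_lt, top_le_iff] at hcon
  rw [hcon, ENNReal.mul_top (by simpa using hc'0)] at hsum
  exact absurd hsum (not_le.2 hfin)

/-- Minkowski's inequality for series -/
lemma minkowski {α : Type*} [MeasurableSpace α] {μ : Measure α} {f : ℕ → α → ℝ≥0∞}
    (hf : ∀ k, Measurable (f k)) {p : ℝ} (hp : 1 ≤ p) :
    (∫⁻ a, (∑' k, f k a) ^ p ∂μ) ^ (1 / p) ≤ ∑' k, (∫⁻ a, f k a ^ p ∂μ) ^ (1 / p) := by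
  have hp0 : 0 < p := by linarith
  have hfin : ∀ N : ℕ, (∫⁻ a, (∑ k ∈ Finset.range N, f k a) ^ p ∂μ) ^ (1 / p) ≤
      ∑ k ∈ Finset.range N, (∫⁻ a, f k a ^ p ∂μ) ^ (1 / p) := by
    intro N
    induction N with
    | zero => simp [ENNReal.zero_rpow_of_pos hp0, hp0]
    | succ N ih =>
      simp only [Finset.sum_range_succ]
      have hm : AEMeasurable (fun a => ∑ k ∈ Finset.range N, f k a) μ :=
        (Finset.measurable_fun_sum _ fun k _ => hf k).aemeasurable
      have h := ENNReal.lintegral_Lp_add_le hm (hf N).aemeasurable hp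
      refine le_trans h ?_
      gcongr
  have hmono : Monotone fun (N : ℕ) (a : α) => (∑ k ∈ Finset.range N, f k a) ^ p := by
    intro N M hNM a
    simp only
    gcongr
  have e1 : ∀ a, (∑' k, f k a) ^ p = ⨆ N : ℕ, (∑ k ∈ Finset.range N, f k a) ^ p := by
    intro a
    rw [ENNReal.tsum_eq_iSup_nat]
    exact (ENNReal.orderIsoRpow p hp0).map_iSup _
  simp only [e1]
  rw [lintegral_iSup (fun N => (Finset.measurable_fun_sum _ fun k _ => hf k).pow_const p) hmono]
  have e2 := (ENNReal.orderIsoRpow (1 / p) (by positivity)).map_iSup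
    (fun N : ℕ => ∫⁻ a, (∑ k ∈ Finset.range N, f k a) ^ p ∂μ)
  simp only [ENNReal.orderIsoRpow_apply] at e2
  rw [e2]
  refine iSup_le fun N => (hfin N).trans ?_
  exact ENNReal.sum_le_tsum _

/-- scaling on the half line -/
lemma lintegral_scale (F : ℝ → ℝ≥0∞) (hF : Measurable F) {a : ℝ} (ha : 0 < a) :
    ∫⁻ x in Ioi (0 : ℝ), F (a * x) = ENNReal.ofReal a⁻¹ * ∫⁻ x in Ioi (0 : ℝ), F x := by
  rw [← lintegral_indicator measurableSet_Ioi, ← lintegral_indicator measurableSet_Ioi]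
  have h1 : ∀ x, (Ioi (0 : ℝ)).indicator (fun x => F (a * x)) x =
      (Ioi (0 : ℝ)).indicator F (a * x) := by
    intro x
    by_cases hx : 0 < x
    · rw [indicator_of_mem (mem_Ioi.2 hx), indicator_of_mem (mem_Ioi.2 (by positivity))]
    · rw [indicator_of_notMem (by simpa using hx), indicator_of_notMem]
      rw [mem_Ioi, not_lt]
      push Not at hx
      nlinarith
  simp only [h1]
  have h2 := Real.map_volume_mul_left ha.ne'
  have h3 : ∫⁻ x, (Ioi (0 : ℝ)).indicator F (a * x) =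
      ∫⁻ y, (Ioi (0 : ℝ)).indicator F y ∂(Measure.map (a * ·) volume) := by
    rw [lintegral_map (hF.indicator measurableSet_Ioi) (measurable_const_mul a)]
  rw [h3, h2, lintegral_smul_measure, abs_of_pos (by positivity), smul_eq_mul]

end Pool.Agent.MP_6cbfb8_an.Sparse
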