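import Pool.Agent.MP_6cbfb8_an.Sparse.Zonal
import Pool.Agent.MP_6cbfb8_an.Sparse.Plane
import Pool.Agent.MP_6cbfb8_an.Sparse.BesFinal
import Pool.Agent.MP_6cbfb8_an.Sparse.Sum
import Pool.Agent.MP_6cbfb8_an.Sparse.Harm

/-!
The Fourier transform of a measure on the sphere in terms of the spherical harmonic expansion of
its density; bounds.
-/

namespace Pool.Agent.MP_6cbfb8_an.Sparse

open MeasureTheory Set Filter Topology
open scoped ENNReal Real RealInnerProductSpace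

lemma jb_neg (j k : ℕ) (s : ℝ) : |jb j k (-s)| = |jb j k s| := by
  unfold jb
  rw [neg_sq, neg_div, neg_pow, mul_div_assoc, mul_assoc, abs_mul, abs_pow, abs_neg, abs_one,
    one_pow, one_mul]

lemma norm_pw (j k : ℕ) (hj : 1 ≤ j) (s : ℝ) : ‖pw j k s‖ = dd j k * |jb j k s| := by
  unfold pw
  rw [norm_mul, norm_pow, Complex.norm_I, one_pow, one_mul, Complex.norm_real, Real.norm_eq_abs,
    abs_mul, abs_of_pos (dd_pos j k hj)]

lemma continuous_jb (j k : ℕ) : Continuous (jb j k) := by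
  have hj0 : (0 : ℝ) ≤ j := Nat.cast_nonneg j
  have hk0 : (0 : ℝ) ≤ k := Nat.cast_nonneg k
  have h : Continuous (Bs (((j : ℝ) + 2) / 2 + k)) :=
    continuous_iff_continuousAt.2 fun x => (hasDerivAt_Bs (by linarith) x).continuousAt
  unfold jb
  exact (((continuous_id.div_const 2).pow k).div_const _).mul
    (h.comp ((continuous_pow 2).div_const 4))

/-- the expansion -/
lemma hasSum_ext (j : ℕ) (hj : 1 ≤ j) {g : S (j + 2) → ℂ} (hg : Measurable g) {B : ℝ}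
    (hB : ∀ x, ‖g x‖ ≤ B) (ω : S (j + 2)) (s : ℝ) :
    HasSum (fun k => pw j k s * Lf j g ω (Q ((j : ℝ) + 2) k))
      (∫ x : S (j + 2), g x * Complex.exp (Complex.I * (s : ℂ) *
        ((⟪(ω : E (j + 2)), (x : E (j + 2))⟫ : ℝ) : ℂ)) ∂(sm (j + 2))) := by
  have hj' : (1 : ℝ) ≤ j := by exact_mod_cast hj
  have hd : (2 : ℝ) < (j : ℝ) + 2 := by linarith
  have hin : ∀ x : S (j + 2), ⟪(ω : E (j + 2)), (x : E (j + 2))⟫ ∈ Icc (-1 : ℝ) 1 := by
    intro x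
    have := abs_real_inner_le_norm (ω : E (j + 2)) (x : E (j + 2))
    have h2 : |⟪(ω : E (j + 2)), (x : E (j + 2))⟫| ≤ 1 := by simpa using this
    exact abs_le.1 h2
  set F : ℕ → S (j + 2) → ℂ := fun k x => g x * (pw j k s *
    (((Q ((j : ℝ) + 2) k).eval ⟪(ω : E (j + 2)), (x : E (j + 2))⟫ : ℝ) : ℂ)) with hF
  have hFi : ∀ k x, F k x = pw j k s * (g x *
    (((Q ((j : ℝ) + 2) k).eval ⟪(ω : E (j + 2)), (x : E (j + 2))⟫ : ℝ) : ℂ)) := by
    intro k x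
    simp only [hF]
    ring
  have hint : ∀ k, Integrable (F k) (sm (j + 2)) := by
    intro k
    have := (integrable_Lf j hg hB ω (Q ((j : ℝ) + 2) k)).const_mul (pw j k s)
    refine this.congr (Eventually.of_forall fun x => (hFi k x).symm)
  have hB0 : 0 ≤ B := (norm_nonneg _).trans (hB ω)
  have hnorm : ∀ k, ∫ x, ‖F k x‖ ∂(sm (j + 2)) ≤
      ‖pw j k s‖ * (B * (sm (j + 2)).real univ) := by
    intro k
    have h1 : ∀ x, ‖F k x‖ ≤ ‖pw j k s‖ * B := by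
      intro x
      rw [hFi, norm_mul, norm_mul, Complex.norm_real, Real.norm_eq_abs]
      have h2 := abs_le_one hd k (hin x)
      calc ‖pw j k s‖ * (‖g x‖ * |(Q ((j : ℝ) + 2) k).eval ⟪(ω : E (j + 2)), (x : E (j + 2))⟫|)
          ≤ ‖pw j k s‖ * (B * 1) := by
            gcongr
            exact hB x
        _ = _ := by rw [mul_one]
    calc ∫ x, ‖F k x‖ ∂(sm (j + 2)) ≤ ∫ _x, ‖pw j k s‖ * B ∂(sm (j + 2)) :=
          integral_mono (hint k).norm (integrable_const _) h1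
      _ = _ := by
          rw [integral_const, smul_eq_mul]
          ring
  have hsum : Summable fun k => ∫ x, ‖F k x‖ ∂(sm (j + 2)) :=
    Summable.of_nonneg_of_le (fun k => integral_nonneg fun x => norm_nonneg _) hnorm
      ((pw_summable j hj s).1.mul_right _)
  have key := hasSum_integral_of_summable_integral_norm hint hsum
  have e1 : ∀ k, ∫ x, F k x ∂(sm (j + 2)) = pw j k s * Lf j g ω (Q ((j : ℝ) + 2) k) := by
    intro k
    simp only [hFi]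
    rw [integral_const_mul]
    rfl
  simp only [e1] at key
  have e2 : ∫ x : S (j + 2), g x * Complex.exp (Complex.I * (s : ℂ) *
        ((⟪(ω : E (j + 2)), (x : E (j + 2))⟫ : ℝ) : ℂ)) ∂(sm (j + 2)) =
      ∫ x, ∑' k, F k x ∂(sm (j + 2)) := by
    refine integral_congr_ae (Eventually.of_forall fun x => ?_)
    have h3 := (plane_wave j hj s (hin x)).mul_left (g x)
    exact h3.tsum_eq.symm
  rw [e2]
  exact key

/-- pointwise bound -/
lemma ext_bound (j : ℕ) (hj : 1 ≤ j) {g : S (j + 2) → ℂ} (hg : Measurable g) {B : ℝ}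
    (hB : ∀ x, ‖g x‖ ≤ B) (a : ℕ → ℝ≥0∞)
    (ha : ∀ (k : ℕ) (ω : S (j + 2)),
      ENNReal.ofReal ‖(dd j k : ℂ) * Lf j g ω (Q ((j : ℝ) + 2) k)‖ ≤ ENNReal.ofReal B * a k)
    (ξ : E (j + 2)) :
    ‖∫ x : S (j + 2), g x * Complex.exp (((-(2 * π * ⟪(x : E (j + 2)), ξ⟫) : ℝ) : ℂ) *
      Complex.I) ∂(sm (j + 2))‖ₑ ≤
      ENNReal.ofReal B * ∑' k, a k * ENNReal.ofReal |jb j k (2 * π * ‖ξ‖)| := by
  obtain ⟨ω, hω⟩ : ∃ ω : S (j + 2), ξ = ‖ξ‖ • (ω : E (j + 2)) := by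
    rcases eq_or_ne ξ 0 with h0 | h0
    · exact ⟨⟨join (0 : E (j + 1)) 1, pole_mem (j + 1)⟩, by simp [h0]⟩
    · have hn : ‖ξ‖ ≠ 0 := norm_ne_zero_iff.2 h0
      refine ⟨⟨‖ξ‖⁻¹ • ξ, ?_⟩, ?_⟩
      · rw [mem_sphere_zero_iff_norm, norm_smul, norm_inv, norm_norm, inv_mul_cancel₀ hn]
      · simp only
        rw [smul_smul, mul_inv_cancel₀ hn, one_smul]
  set r : ℝ := ‖ξ‖ with hr
  have h1 := hasSum_ext j hj hg hB ω (-(2 * π * r))
  have e1 : ∫ x : S (j + 2), g x * Complex.exp (((-(2 * π * ⟪(x : E (j + 2)), ξ⟫) : ℝ) : ℂ) *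
      Complex.I) ∂(sm (j + 2)) = ∫ x : S (j + 2), g x * Complex.exp (Complex.I *
        ((-(2 * π * r) : ℝ) : ℂ) * ((⟪(ω : E (j + 2)), (x : E (j + 2))⟫ : ℝ) : ℂ))
          ∂(sm (j + 2)) := by
    refine integral_congr_ae (Eventually.of_forall fun x => ?_)
    simp only
    congr 2
    rw [hω, real_inner_smul_right, real_inner_comm]
    push_cast
    ring
  rw [e1, ← h1.tsum_eq]
  refine enorm_tsum_le_tsum_enorm.trans ?_
  rw [← ENNReal.tsum_mul_left]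
  refine ENNReal.tsum_le_tsum fun k => ?_
  have e2 : ‖pw j k (-(2 * π * r)) * Lf j g ω (Q ((j : ℝ) + 2) k)‖ₑ =
      ENNReal.ofReal |jb j k (2 * π * r)| *
        ENNReal.ofReal ‖(dd j k : ℂ) * Lf j g ω (Q ((j : ℝ) + 2) k)‖ := by
    rw [← ofReal_norm, norm_mul, norm_pw j k hj, jb_neg,
      ← ENNReal.ofReal_mul (abs_nonneg _), norm_mul, Complex.norm_real, Real.norm_eq_abs,
      abs_of_pos (dd_pos j k hj)]
    congr 1
    ring
  rw [e2]
  calc ENNReal.ofReal |jb j k (2 * π * r)| *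
        ENNReal.ofReal ‖(dd j k : ℂ) * Lf j g ω (Q ((j : ℝ) + 2) k)‖
      ≤ ENNReal.ofReal |jb j k (2 * π * r)| * (ENNReal.ofReal B * a k) := by
        gcongr
        exact ha k ω
    _ = _ := by ring

/-- vanishing of the components of degree `k` -/
lemma Lf_eq_zero (j : ℕ) {g : S (j + 2) → ℂ} {k : ℕ}
    (h : ∀ P : MvPolynomial (Fin (j + 2)) ℝ, P.IsHomogeneous k →
      ∑ i, MvPolynomial.pderiv i (MvPolynomial.pderiv i P) = 0 →
      ∫ x : S (j + 2), g x * ((MvPolynomial.eval (fun i => (x : E (j + 2)) i) P : ℝ) : ℂ)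
        ∂(sm (j + 2)) = 0) (ω : S (j + 2)) : Lf j g ω (Q ((j : ℝ) + 2) k) = 0 := by
  have hsq : ∀ x : S (j + 2), ∑ i, ((x : E (j + 2)) i) ^ 2 = 1 := by
    intro x
    have h1 : ‖(x : E (j + 2))‖ ^ 2 = 1 := by simp
    rw [EuclideanSpace.norm_sq_eq] at h1
    simpa using h1
  have h2 := h (HP (fun i => (ω : E (j + 2)) i) k) (HP_homogeneous _ k).1
    (HP_harmonic (by omega) (hsq ω) k).1
  unfold Lf
  rw [← h2]
  refine integral_congr_ae (Eventually.of_forall fun x => ?_)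
  simp only
  rw [(eval_HP (fun i => (ω : E (j + 2)) i) (fun i => (x : E (j + 2)) i) (hsq x) k).1]
  have h3 : ⟪(ω : E (j + 2)), (x : E (j + 2))⟫ =
      ∑ i, (ω : E (j + 2)) i * (x : E (j + 2)) i := by
    rw [PiLp.inner_apply]
    refine Finset.sum_congr rfl fun i _ => ?_
    simp [mul_comm]
  rw [h3]
  push_cast
  rfl

/-- `L^p` norm of the radial factors -/
lemma radial_Lp (j : ℕ) (hj : 1 ≤ j) {p : ℝ} (hp2 : 2 < p) (hp4 : p < 4)
    (hγ1 : 1 < ((j : ℝ) + 1) * (p / 2 - 1)) (hγ3 : ((j : ℝ) + 1) * (p / 2 - 1) ≤ 3) :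
    ∃ C : ℝ, 0 ≤ C ∧ ∀ k : ℕ,
      (∫⁻ ξ : E (j + 2), ENNReal.ofReal |jb j k (2 * π * ‖ξ‖)| ^ p) ^ (1 / p) ≤
        ENNReal.ofReal (C * ((k : ℝ) + 1) ^ ((1 - ((j : ℝ) + 1) * (p / 2 - 1)) / p)) := by
  obtain ⟨C, hC0, hC⟩ := bessel_Lp j hj hp2 hp4 hγ1 hγ3
  set m : ℝ := (sm (j + 2)).real univ with hm
  have hm0 : 0 ≤ m := measureReal_nonneg
  have hpi : 0 < 2 * π := by positivity
  refine ⟨(m * ((2 * π)⁻¹ ^ (j + 1) * ((2 * π)⁻¹ * C))) ^ (1 / p), by positivity, fun k => ?_⟩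
  have hmeas : Measurable fun r : ℝ => ENNReal.ofReal |jb j k (2 * π * r)| ^ p := by
    have := (continuous_jb j k).comp (continuous_const.mul continuous_id : Continuous
      fun r : ℝ => 2 * π * r)
    exact (ENNReal.measurable_ofReal.comp this.abs.measurable).pow_const p
  have hmeas' : Measurable fun ξ : E (j + 2) => ENNReal.ofReal |jb j k (2 * π * ‖ξ‖)| ^ p :=
    hmeas.comp measurable_norm
  rw [lintegral_polar (j + 1) _ hmeas']
  have e1 : ∀ ω : S (j + 1 + 1), ∫⁻ ρ in Ioi (0 : ℝ),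
      ENNReal.ofReal |jb j k (2 * π * ‖ρ • (ω : E (j + 1 + 1))‖)| ^ p *
        ENNReal.ofReal (ρ ^ (j + 1)) ≤
      ENNReal.ofReal ((2 * π)⁻¹ ^ (j + 1) * ((2 * π)⁻¹ *
        (C * ((k : ℝ) + 1) ^ (1 - ((j : ℝ) + 1) * (p / 2 - 1))))) := by
    intro ω
    have e2 : ∫⁻ ρ in Ioi (0 : ℝ),
      ENNReal.ofReal |jb j k (2 * π * ‖ρ • (ω : E (j + 1 + 1))‖)| ^ p *
        ENNReal.ofReal (ρ ^ (j + 1)) = ∫⁻ ρ in Ioi (0 : ℝ),
          ENNReal.ofReal ((2 * π)⁻¹ ^ (j + 1)) * ENNReal.ofReal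
            (|jb j k (2 * π * ρ)| ^ p * (2 * π * ρ) ^ ((j : ℝ) + 1)) := by
      refine setLIntegral_congr_fun measurableSet_Ioi fun ρ hρ => ?_
      have hρ0 : 0 < ρ := hρ
      have h1 : ‖ρ • (ω : E (j + 1 + 1))‖ = ρ := by
        rw [norm_smul, Real.norm_of_nonneg hρ0.le]
        simp
      simp only [h1]
      rw [ENNReal.ofReal_rpow_of_nonneg (abs_nonneg _) (by linarith),
        ← ENNReal.ofReal_mul (by positivity), ← ENNReal.ofReal_mul (by positivity)]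
      congr 1
      have h2 : (2 * π * ρ) ^ ((j : ℝ) + 1) = (2 * π) ^ (j + 1) * ρ ^ (j + 1) := by
        have : ((j : ℝ) + 1) = ((j + 1 : ℕ) : ℝ) := by push_cast; ring
        rw [this, Real.rpow_natCast, mul_pow]
      rw [h2, inv_pow]
      field_simp
    have hF : Measurable fun s : ℝ => ENNReal.ofReal (|jb j k s| ^ p * s ^ ((j : ℝ) + 1)) := by
      have h1 : Measurable fun s : ℝ => |jb j k s| ^ p * s ^ ((j : ℝ) + 1) :=
        ((continuous_jb j k).abs.measurable.pow_const p).mul (measurable_id.pow_const _)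
      exact ENNReal.measurable_ofReal.comp h1
    rw [e2, lintegral_const_mul' _ _ ENNReal.ofReal_ne_top,
      lintegral_scale (fun s : ℝ => ENNReal.ofReal (|jb j k s| ^ p * s ^ ((j : ℝ) + 1))) hF hpi,
      ENNReal.ofReal_mul (by positivity), ENNReal.ofReal_mul (by positivity)]
    gcongr
    exact hC k
  have e3 : ∫⁻ ω : S (j + 1 + 1), (∫⁻ ρ in Ioi (0 : ℝ),
      ENNReal.ofReal |jb j k (2 * π * ‖ρ • (ω : E (j + 1 + 1))‖)| ^ p *
        ENNReal.ofReal (ρ ^ (j + 1))) ∂(sm (j + 1 + 1)) ≤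
      ENNReal.ofReal (m * ((2 * π)⁻¹ ^ (j + 1) * ((2 * π)⁻¹ *
        (C * ((k : ℝ) + 1) ^ (1 - ((j : ℝ) + 1) * (p / 2 - 1)))))) := by
    refine (lintegral_mono e1).trans ?_
    rw [lintegral_const, ENNReal.ofReal_mul hm0, mul_comm, hm, ofReal_measureReal]
  have hk : (0 : ℝ) < (k : ℝ) + 1 := by positivity
  calc (∫⁻ ω : S (j + 1 + 1), (∫⁻ ρ in Ioi (0 : ℝ),
      ENNReal.ofReal |jb j k (2 * π * ‖ρ • (ω : E (j + 1 + 1))‖)| ^ p *
        ENNReal.ofReal (ρ ^ (j + 1))) ∂(sm (j + 1 + 1))) ^ (1 / p)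
      ≤ ENNReal.ofReal (m * ((2 * π)⁻¹ ^ (j + 1) * ((2 * π)⁻¹ *
        (C * ((k : ℝ) + 1) ^ (1 - ((j : ℝ) + 1) * (p / 2 - 1)))))) ^ (1 / p) := by
        gcongr
    _ = _ := by
        rw [ENNReal.ofReal_rpow_of_nonneg (by positivity) (by positivity)]
        congr 1
        have e4 : m * ((2 * π)⁻¹ ^ (j + 1) * ((2 * π)⁻¹ *
            (C * ((k : ℝ) + 1) ^ (1 - ((j : ℝ) + 1) * (p / 2 - 1))))) =
            (m * ((2 * π)⁻¹ ^ (j + 1) * ((2 * π)⁻¹ * C))) *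
              ((k : ℝ) + 1) ^ (1 - ((j : ℝ) + 1) * (p / 2 - 1)) := by ring
        rw [e4, Real.mul_rpow (by positivity) (by positivity), ← Real.rpow_mul hk.le]
        congr 2
        ring

end Pool.Agent.MP_6cbfb8_an.Sparse
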