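import Pool.Agent.MP_6cbfb8_an.Sparse.Main

/-!
# Restriction to the sphere: bounded densities with sparse spherical harmonic spectrum
-/

namespace Pool.Agent.Results.MP_6cbfb8_an.SparseSpectrum

open MeasureTheory Set
open scoped ENNReal Real
open Pool.Agent.MP_6cbfb8_an Pool.Agent.MP_6cbfb8_an.Sparse

/-- Let `n ≥ 3`, `p > 2n/(n-1)` and let `Λ` be a set of degrees such that any two elements
`k < l` of `Λ` of the same parity satisfy `l - k ≥ c (1 + k)^θ`, where `1 - θ` is less than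
`(n-1)/(2n) - 1/min(p, 2(n+1)/(n-1))`. Then there is a radial function in `L^p` that dominates the
Fourier transform of every measure `g dσ` with `|g| ≤ 1` whose spherical harmonic expansion has
only degrees in `Λ`. -/
theorem result (n : ℕ) (hn : 3 ≤ n) (p θ c : ℝ) (hp : 2 * (n : ℝ) / (n - 1) < p)
    (hθ : 1 - θ < ((n : ℝ) - 1) / (2 * n) - 1 / min p (2 * ((n : ℝ) + 1) / (n - 1)))
    (hc : 0 < c) (Λ : Set ℕ)
    (hΛ : ∀ k ∈ Λ, ∀ l ∈ Λ, k < l → k % 2 = l % 2 → c * (1 + (k : ℝ)) ^ θ ≤ (l : ℝ) - k) :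
    ∃ Φ : ℝ → ℝ≥0∞, Measurable Φ ∧
      ∫⁻ ξ : EuclideanSpace ℝ (Fin n), Φ ‖ξ‖ ^ p < ∞ ∧
      ∀ (g : Metric.sphere (0 : EuclideanSpace ℝ (Fin n)) 1 → ℂ) (B : ℝ), Measurable g →
        (∀ x, ‖g x‖ ≤ B) →
        (∀ k, k ∉ Λ → ∀ P : MvPolynomial (Fin n) ℝ, P.IsHomogeneous k →
          ∑ i, MvPolynomial.pderiv i (MvPolynomial.pderiv i P) = 0 →
          ∫ x : Metric.sphere (0 : EuclideanSpace ℝ (Fin n)) 1,
            g x * ((MvPolynomial.eval (fun i => (x : EuclideanSpace ℝ (Fin n)) i) P : ℝ) : ℂ)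
            ∂(volume : Measure (EuclideanSpace ℝ (Fin n))).toSphere = 0) →
        ∀ ξ : EuclideanSpace ℝ (Fin n),
          ‖∫ x : Metric.sphere (0 : EuclideanSpace ℝ (Fin n)) 1, g x *
              Complex.exp (((-(2 * π * inner ℝ (x : EuclideanSpace ℝ (Fin n)) ξ) : ℝ) : ℂ) *
                Complex.I) ∂(volume : Measure (EuclideanSpace ℝ (Fin n))).toSphere‖ₑ ≤
            ENNReal.ofReal B * Φ ‖ξ‖ := by
  obtain ⟨j, rfl⟩ : ∃ j, n = j + 2 := ⟨n - 2, by omega⟩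
  have hj : 1 ≤ j := by omega
  have hj' : (1 : ℝ) ≤ j := by exact_mod_cast hj
  -- normalisation of the parameters
  set q : ℝ := min p (2 * (((j + 2 : ℕ) : ℝ) + 1) / (((j + 2 : ℕ) : ℝ) - 1)) with hq
  have hn1 : (((j + 2 : ℕ) : ℝ) - 1) = j + 1 := by push_cast; ring
  have hn2 : ((j + 2 : ℕ) : ℝ) = j + 2 := by push_cast; ring
  rw [hn1] at hq hθ hp
  rw [hn2] at hq hθ hp
  have hqp : q ≤ p := by rw [hq]; exact min_le_left _ _
  have hqs : q ≤ 2 * ((j : ℝ) + 3) / (j + 1) := by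
    rw [hq]
    refine (min_le_right _ _).trans (le_of_eq ?_)
    ring
  have hqc : 2 * ((j : ℝ) + 2) / (j + 1) < q := by
    rw [hq, lt_min_iff]
    refine ⟨hp, ?_⟩
    rw [div_lt_div_iff_of_pos_right (by positivity)]
    linarith
  have hq0 : 0 < q := lt_trans (by positivity) hqc
  have hx0 : 0 < ((j : ℝ) + 1) / (2 * (j + 2)) - 1 / q := by
    rw [sub_pos, div_lt_iff₀ hq0]
    rw [div_lt_iff₀ (by positivity)] at hqc
    rw [div_mul_eq_mul_div, lt_div_iff₀ (by positivity)]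
    linarith
  set θ' : ℝ := min θ 1 with hθ'
  have hθ'1 : θ' ≤ 1 := min_le_right _ _
  have hθ'' : 1 - θ' < ((j : ℝ) + 1) / (2 * (j + 2)) - 1 / q := by
    rcases min_choice θ 1 with h | h
    · rw [hθ', h]
      exact hθ
    · rw [hθ', h, sub_self]
      exact hx0
  have hθ'0 : 0 ≤ θ' := by
    have h1 : ((j : ℝ) + 1) / (2 * (j + 2)) ≤ 1 := by
      rw [div_le_one (by positivity)]
      linarith
    have h2 : 0 < 1 / q := by positivity
    linarith
  set c' : ℝ := min c 1 with hc'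
  have hc'0 : 0 < c' := lt_min hc one_pos
  have hc'1 : c' ≤ 1 := min_le_right _ _
  have hΛ' : ∀ k ∈ Λ, ∀ l ∈ Λ, k < l → k % 2 = l % 2 →
      c' * (1 + (k : ℝ)) ^ θ' ≤ (l : ℝ) - k := by
    intro k hk l hl hkl hpar
    refine le_trans ?_ (hΛ k hk l hl hkl hpar)
    have hk0 : (0 : ℝ) ≤ k := Nat.cast_nonneg k
    have h1 : (1 + (k : ℝ)) ^ θ' ≤ (1 + (k : ℝ)) ^ θ :=
      Real.rpow_le_rpow_of_exponent_le (by linarith) (min_le_left _ _)
    have h2 : c' ≤ c := min_le_left _ _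
    gcongr
  -- the auxiliary exponent
  obtain ⟨x, hx⟩ : ∃ x : ℝ, x = ((j : ℝ) + 1) / (2 * (j + 2)) - (1 - θ') := ⟨_, rfl⟩
  have hxq : 1 / q < x := by rw [hx]; linarith
  have hxpos : 0 < x := lt_trans (by positivity) hxq
  have h1x : 1 / x < q := by
    rw [div_lt_iff₀ hxpos]
    rw [div_lt_iff₀ hq0] at hxq
    linarith
  obtain ⟨s, hs1, hs2⟩ := exists_between h1x
  have hs0 : 0 < s := lt_trans (by positivity) hs1
  have hsx : 1 < s * x := by
    rw [div_lt_iff₀ hxpos] at hs1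
    exact hs1
  have hsc : 2 * ((j : ℝ) + 2) < s * (j + 1) := by
    have h3 : x ≤ ((j : ℝ) + 1) / (2 * (j + 2)) := by rw [hx]; linarith
    have h4 : 1 < s * (((j : ℝ) + 1) / (2 * (j + 2))) := lt_of_lt_of_le hsx (by gcongr)
    rw [mul_div_assoc', lt_div_iff₀ (by positivity)] at h4
    linarith
  have hss : s * (j + 1) < 2 * ((j : ℝ) + 3) := by
    have h3 := lt_of_lt_of_le hs2 hqs
    rwa [lt_div_iff₀ (by positivity)] at h3
  have hsp2 : 2 < s := by nlinarith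
  have hsp4 : s < 4 := by nlinarith
  have hγ1 : 1 < ((j : ℝ) + 1) * (s / 2 - 1) := by nlinarith
  have hγ3 : ((j : ℝ) + 1) * (s / 2 - 1) ≤ 3 := by nlinarith
  have hcond : (1 - θ') * (j + 2) < (((j : ℝ) + 1) * (s / 2 - 1) - 1) / s := by
    rw [lt_div_iff₀ hs0]
    have h3 : (1 - θ') = ((j : ℝ) + 1) / (2 * (j + 2)) - x := by rw [hx]; ring
    rw [h3]
    have h4 : (((j : ℝ) + 1) / (2 * (j + 2)) - x) * (j + 2) * s =
        (j + 1) * s / 2 - (s * x) * (j + 2) := by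
      field_simp
    rw [h4]
    nlinarith
  obtain ⟨Φ, hΦm, hΦs, hΦ⟩ := main_aux j hj hsp2 hsp4 hγ1 hγ3 hθ'0 hθ'1 hc'0 hc'1 hcond hΛ'
  have hsp : s ≤ p := (hs2.trans_le hqp).le
  refine ⟨fun r => min (Φ r) (sm (j + 2) univ), hΦm.min measurable_const, ?_, ?_⟩
  · have h5 : ∀ ξ : E (j + 2), (min (Φ ‖ξ‖) (sm (j + 2) univ)) ^ p ≤
        (sm (j + 2) univ) ^ (p - s) * Φ ‖ξ‖ ^ s := by
      intro ξ
      have h6 : p = (p - s) + s := by ring
      conv_lhs => rw [h6]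
      rw [ENNReal.rpow_add_of_nonneg _ _ (by linarith) hs0.le]
      exact mul_le_mul' (ENNReal.rpow_le_rpow (min_le_right _ _) (by linarith))
        (ENNReal.rpow_le_rpow (min_le_left _ _) hs0.le)
    refine lt_of_le_of_lt (lintegral_mono h5) ?_
    have h7 : (sm (j + 2) univ) ^ (p - s) ≠ ∞ :=
      ENNReal.rpow_ne_top_of_nonneg (by linarith) (measure_ne_top _ _)
    rw [lintegral_const_mul' _ _ h7]
    exact ENNReal.mul_lt_top h7.lt_top hΦs
  · intro g B hg hB hz ξ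
    have hz' : ∀ l, l ∉ Λ → ∀ ω : S (j + 2), Lf j g ω (Q ((j : ℝ) + 2) l) = 0 :=
      fun l hl ω => Lf_eq_zero j (fun P hP hP' => hz l hl P hP hP') ω
    have h8 : ‖∫ x : S (j + 2), g x * Complex.exp (((-(2 * π * inner ℝ (x : E (j + 2)) ξ) : ℝ) : ℂ) *
        Complex.I) ∂(sm (j + 2))‖ₑ ≤ ENNReal.ofReal B * sm (j + 2) univ := by
      refine (enorm_integral_le_lintegral_enorm _).trans ?_
      rw [← lintegral_const]
      refine lintegral_mono fun x => ?_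
      rw [enorm_mul, ← ofReal_norm (Complex.exp _), Complex.norm_exp_ofReal_mul_I,
        ENNReal.ofReal_one, mul_one, ← ofReal_norm]
      exact ENNReal.ofReal_le_ofReal (hB x)
    rw [mul_min]
    exact le_min (hΦ g B hg hB hz' ξ) h8

end Pool.Agent.Results.MP_6cbfb8_an.SparseSpectrum
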