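import Pool.Agent.MP_6cbfb8_an.Sparse.Fejer
import Pool.Agent.MP_6cbfb8_an.Sphere

/-!
Zonal functions on the sphere; the projection of a bounded function whose spectrum has a gap
around `k` on the harmonics of degree `k`.
-/

namespace Pool.Agent.MP_6cbfb8_an.Sparse

open Polynomial MeasureTheory Set
open scoped Real RealInnerProductSpace

lemma inner_join_last {n : ℕ} (x : E n) (t : ℝ) : ⟪join (0 : E n) 1, join x t⟫ = t := by
  rw [PiLp.inner_apply, Fin.sum_univ_castSucc]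
  simp [join]

lemma pole_mem (n : ℕ) : join (0 : E n) 1 ∈ S (n + 1) := by
  rw [mem_sphere_zero_iff_norm]
  have h := norm_join_sq (0 : E n) 1
  simp only [norm_zero] at h
  nlinarith [norm_nonneg (join (0 : E n) 1)]

lemma zonal_integral (j : ℕ) (ω : S (j + 2)) (F : ℝ → ℝ) (hF : Continuous F) :
    ∫ x : S (j + 2), F ⟪(ω : E (j + 2)), (x : E (j + 2))⟫ ∂(sm (j + 2)) =
      (sm (j + 1)).real univ * ∫ θ in (0:ℝ)..π, F (Real.cos θ) * Real.sin θ ^ j := by
  -- move `ω` to the pole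
  set e : E (j + 1 + 1) := join (0 : E (j + 1)) 1 with he
  have he1 : ‖e‖ = 1 := by simpa using pole_mem (j + 1)
  have hω1 : ‖(ω : E (j + 2))‖ = 1 := by simp
  set R : E (j + 2) ≃ₗᵢ[ℝ] E (j + 2) := Submodule.reflection (ℝ ∙ ((ω : E (j + 2)) - e))ᗮ with hR
  have hRω : R (ω : E (j + 2)) = e := Submodule.reflection_sub (hω1.trans he1.symm)
  have hmp := measurePreserving_isometry R
  have h1 : ∫ x : S (j + 2), F ⟪(ω : E (j + 2)), (x : E (j + 2))⟫ ∂(sm (j + 2)) =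
      ∫ x : S (j + 2), F ⟪e, (x : E (j + 2))⟫ ∂(sm (j + 2)) := by
    have hc : Continuous fun x : S (j + 2) => F ⟪e, (x : E (j + 2))⟫ := by
      refine hF.comp ?_
      fun_prop
    conv_rhs => rw [← hmp.map_eq]
    rw [integral_map hmp.measurable.aemeasurable hc.aestronglyMeasurable]
    refine integral_congr_ae (Filter.Eventually.of_forall fun x => ?_)
    simp only
    rw [← hRω, LinearIsometryEquiv.inner_map_map]
  have hs := slicing j
  rw [h1, ← hs.map_eq]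
  have hc : Continuous fun x : S (j + 2) => F ⟪e, (x : E (j + 2))⟫ := by
    refine hF.comp ?_
    fun_prop
  rw [integral_map hs.measurable.aemeasurable hc.aestronglyMeasurable]
  have h2 : ∀ q : ℝ × S (j + 1), F ⟪e, (pt q.1 (q.2 : E (j + 1)) : E (j + 2))⟫ =
      F (Real.cos q.1) := by
    intro q
    rw [he]
    unfold pt
    rw [inner_join_last]
  simp only [h2]
  rw [integral_fun_fst (f := fun θ : ℝ => F (Real.cos θ)), smul_eq_mul]
  congr 1
  rw [integral_withDensity_eq_integral_toReal_smul (by fun_prop)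
    (Filter.Eventually.of_forall fun _ => ENNReal.ofReal_lt_top),
    intervalIntegral.integral_of_le Real.pi_pos.le, integral_Ioc_eq_integral_Ioo]
  refine setIntegral_congr_fun measurableSet_Ioo fun θ hθ => ?_
  have : 0 ≤ Real.sin θ ^ j := pow_nonneg (Real.sin_pos_of_mem_Ioo hθ).le _
  simp only [smul_eq_mul]
  rw [ENNReal.toReal_ofReal this, mul_comm]

/-- the functional `P ↦ ∫ g(x) P(⟪ω, x⟫) dσ(x)` -/
noncomputable def Lf (j : ℕ) (g : S (j + 2) → ℂ) (ω : S (j + 2)) (P : ℝ[X]) : ℂ :=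
  ∫ x : S (j + 2), g x * ((P.eval ⟪(ω : E (j + 2)), (x : E (j + 2))⟫ : ℝ) : ℂ) ∂(sm (j + 2))

lemma integrable_Lf (j : ℕ) {g : S (j + 2) → ℂ} (hg : Measurable g) {B : ℝ}
    (hB : ∀ x, ‖g x‖ ≤ B) (ω : S (j + 2)) (P : ℝ[X]) :
    Integrable (fun x : S (j + 2) => g x * ((P.eval ⟪(ω : E (j + 2)), (x : E (j + 2))⟫ : ℝ) : ℂ))
      (sm (j + 2)) := by
  have hc : Continuous fun x : S (j + 2) =>
      ((P.eval ⟪(ω : E (j + 2)), (x : E (j + 2))⟫ : ℝ) : ℂ) := by
    refine Complex.continuous_ofReal.comp (P.continuous.comp ?_)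
    fun_prop
  have hi : Integrable (fun x : S (j + 2) =>
      ((P.eval ⟪(ω : E (j + 2)), (x : E (j + 2))⟫ : ℝ) : ℂ)) (sm (j + 2)) :=
    hc.integrable_of_hasCompactSupport (HasCompactSupport.of_compactSpace _)
  exact hi.bdd_mul hg.aestronglyMeasurable (Filter.Eventually.of_forall hB)

/-- the linear version of `Lf` -/
noncomputable def Llin (j : ℕ) {g : S (j + 2) → ℂ} (hg : Measurable g) {B : ℝ}
    (hB : ∀ x, ‖g x‖ ≤ B) (ω : S (j + 2)) : ℝ[X] →ₗ[ℝ] ℂ where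
  toFun := Lf j g ω
  map_add' := fun P R => by
    unfold Lf
    rw [← integral_add (integrable_Lf j hg hB ω P) (integrable_Lf j hg hB ω R)]
    refine integral_congr_ae (Filter.Eventually.of_forall fun x => ?_)
    simp only [eval_add]
    push_cast
    ring
  map_smul' := fun a P => by
    unfold Lf
    rw [RingHom.id_apply, Complex.real_smul, ← integral_const_mul]
    refine integral_congr_ae (Filter.Eventually.of_forall fun x => ?_)
    simp only [eval_smul, smul_eq_mul]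
    push_cast
    ring

/-- bound for the functional on a product `J Q_k` -/
lemma Lf_bound (j : ℕ) (hj : 1 ≤ j) {g : S (j + 2) → ℂ} {B : ℝ}
    (hB : ∀ x, ‖g x‖ ≤ B) (ω : S (j + 2)) (M k : ℕ) :
    ‖Lf j g ω (Jp j M * Q (j + 2) k)‖ ≤ B * ((sm (j + 1)).real univ * zint j (Jp j M)) := by
  have hj' : (1 : ℝ) ≤ j := by exact_mod_cast hj
  have hd : (2 : ℝ) < (j : ℝ) + 2 := by linarith
  have h0 := zonal_integral j ω (fun t => (Jp j M).eval t) (Jp j M).continuous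
  unfold zint
  rw [← h0, ← integral_const_mul]
  unfold Lf
  have hc : Continuous fun x : S (j + 2) => B * (Jp j M).eval ⟪(ω : E (j + 2)), (x : E (j + 2))⟫ := by
    refine continuous_const.mul ((Jp j M).continuous.comp ?_)
    fun_prop
  refine norm_integral_le_of_norm_le
    (hc.integrable_of_hasCompactSupport (HasCompactSupport.of_compactSpace _))
    (Filter.Eventually.of_forall fun x => ?_)
  have hin : |⟪(ω : E (j + 2)), (x : E (j + 2))⟫| ≤ 1 := by
    have := abs_real_inner_le_norm (ω : E (j + 2)) (x : E (j + 2))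
    simpa using this
  obtain ⟨hl, hu⟩ := abs_le.1 hin
  have hJ : 0 ≤ (Jp j M).eval ⟪(ω : E (j + 2)), (x : E (j + 2))⟫ := by
    have := Jp_nonneg j M (Real.arccos ⟪(ω : E (j + 2)), (x : E (j + 2))⟫)
    rwa [Real.cos_arccos hl hu] at this
  have hB0 : 0 ≤ B := (norm_nonneg _).trans (hB x)
  rw [norm_mul, Complex.norm_real, Real.norm_eq_abs, eval_mul, abs_mul, abs_of_nonneg hJ]
  have hQ := abs_le_one hd k (t := ⟪(ω : E (j + 2)), (x : E (j + 2))⟫) ⟨hl, hu⟩
  calc ‖g x‖ * ((Jp j M).eval ⟪(ω : E (j + 2)), (x : E (j + 2))⟫ *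
        |(Q (j + 2) k).eval ⟪(ω : E (j + 2)), (x : E (j + 2))⟫|)
      ≤ B * ((Jp j M).eval ⟪(ω : E (j + 2)), (x : E (j + 2))⟫ * 1) := by
        gcongr
        exact hB x
    _ = _ := by rw [mul_one]

/-- projection estimate: if the spectrum of `g` contains no degree `l ≠ k` with
`|l - k| ≤ (j + 2) (M - 1)`, then the component of degree `k` is bounded. -/
theorem separation (j : ℕ) (hj : 1 ≤ j) : ∃ C : ℝ, 0 < C ∧ ∀ (g : S (j + 2) → ℂ),
    Measurable g → ∀ B : ℝ, (∀ x, ‖g x‖ ≤ B) → ∀ (ω : S (j + 2)) (k M : ℕ), 1 ≤ M → M ≤ k + j →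
    (∀ l, l ≠ k → k ≤ l + (j + 2) * (M - 1) → l ≤ k + (j + 2) * (M - 1) →
      Lf j g ω (Q (j + 2) l) = 0) →
    ‖(dd j k : ℂ) * Lf j g ω (Q (j + 2) k)‖ ≤ C * B * (((k : ℝ) + j) / M) ^ (j + 1) := by
  obtain ⟨C1, hC1, h1⟩ := Jp_upper j
  obtain ⟨c2, hc2, h2⟩ := Jp_lower j hj
  have hj' : (1 : ℝ) ≤ j := by exact_mod_cast hj
  have hd : (2 : ℝ) < (j : ℝ) + 2 := by linarith
  have hh0 : 0 ≤ hn j 0 := by
    unfold hn zint
    apply intervalIntegral.integral_nonneg Real.pi_pos.le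
    intro θ hθ
    have hs0 : 0 ≤ Real.sin θ := Real.sin_nonneg_of_nonneg_of_le_pi hθ.1 hθ.2
    rw [eval_mul]
    have := mul_self_nonneg ((Q (j + 2) 0).eval (Real.cos θ))
    positivity
  set m : ℝ := (sm (j + 1)).real univ with hm
  have hm0 : 0 ≤ m := measureReal_nonneg
  refine ⟨(hn j 0) * m * C1 / c2 + 1, by positivity, fun g hg B hB ω k M hM hMk hL => ?_⟩
  have hM' : (0 : ℝ) < M := by exact_mod_cast hM
  have hk0 : (0 : ℝ) ≤ k := Nat.cast_nonneg k
  have hkj : (0 : ℝ) < (k : ℝ) + j := by linarith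
  have hB0 : 0 ≤ B := (norm_nonneg _).trans (hB ω)
  -- the second functional
  set Bf : ℝ[X] →ₗ[ℝ] ℝ := (zlin j).comp (LinearMap.mulRight ℝ (Q ((j : ℝ) + 2) k)) with hBf
  have hBf' : ∀ P, Bf P = zint j (P * Q (j + 2) k) := fun P => rfl
  have ht := transfer hd k ((j + 2) * (M - 1)) (Jp j M) (Jp_natDegree j M) (Llin j hg hB ω) Bf
    (fun l hl h1 h2 => hL l hl h1 h2) (fun l hl => by rw [hBf']; exact ortho j hj hl)
  rw [hBf', hBf'] at ht
  change Lf j g ω (Jp j M * Q (j + 2) k) * ((hn j k : ℝ) : ℂ) = Lf j g ω (Q (j + 2) k) *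
    ((zint j (Jp j M * Q (j + 2) k * Q (j + 2) k) : ℝ) : ℂ) at ht
  have hlow := h2 M k hM hMk
  have hup := h1 M hM
  have hbd := Lf_bound j hj hB ω M k
  set Z : ℝ := zint j (Jp j M * Q (j + 2) k * Q (j + 2) k) with hZ
  have hc0 : 0 < c2 * (1 / ((k : ℝ) + j)) ^ (j + 1) := by positivity
  have hZ0 : 0 < Z := hc0.trans_le hlow
  have hnk : dd j k * hn j k = hn j 0 := dd_mul_hn j k hj
  have hdd := dd_pos j k hj
  have e1 : ‖(dd j k : ℂ) * Lf j g ω (Q (j + 2) k)‖ * Z =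
      (hn j 0) * ‖Lf j g ω (Jp j M * Q (j + 2) k)‖ := by
    have h3 : ‖(dd j k : ℂ) * Lf j g ω (Q (j + 2) k)‖ * Z =
        ‖(dd j k : ℂ) * (Lf j g ω (Q (j + 2) k) * (Z : ℂ))‖ := by
      rw [← mul_assoc, norm_mul _ (Z : ℂ), Complex.norm_real, Real.norm_of_nonneg hZ0.le]
    rw [h3, ← ht]
    have h4 : (dd j k : ℂ) * (Lf j g ω (Jp j M * Q (j + 2) k) * ((hn j k : ℝ) : ℂ)) =
        ((dd j k * hn j k : ℝ) : ℂ) * Lf j g ω (Jp j M * Q (j + 2) k) := by
      push_cast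
      ring
    rw [h4, hnk, norm_mul, Complex.norm_real, Real.norm_of_nonneg hh0]
  have e2 : ‖(dd j k : ℂ) * Lf j g ω (Q (j + 2) k)‖ * (c2 * (1 / ((k : ℝ) + j)) ^ (j + 1)) ≤
      hn j 0 * (B * (m * (C1 * (1 / (M : ℝ)) ^ (j + 1)))) := by
    calc ‖(dd j k : ℂ) * Lf j g ω (Q (j + 2) k)‖ * (c2 * (1 / ((k : ℝ) + j)) ^ (j + 1))
        ≤ ‖(dd j k : ℂ) * Lf j g ω (Q (j + 2) k)‖ * Z := by gcongr
      _ = (hn j 0) * ‖Lf j g ω (Jp j M * Q (j + 2) k)‖ := e1
      _ ≤ hn j 0 * (B * (m * zint j (Jp j M))) := by gcongr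
      _ ≤ _ := by gcongr
  have e3 : ‖(dd j k : ℂ) * Lf j g ω (Q (j + 2) k)‖ ≤
      (hn j 0) * m * C1 / c2 * B * (((k : ℝ) + j) / M) ^ (j + 1) := by
    rw [← le_div_iff₀ hc0] at e2
    refine e2.trans (le_of_eq ?_)
    rw [div_pow, div_pow, div_pow, one_pow]
    field_simp
  refine e3.trans ?_
  gcongr
  linarith

end Pool.Agent.MP_6cbfb8_an.Sparse
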